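import Pool.Agent.H863R2.NL.Loc

/-! # Averages over the configurations -/

namespace Pool.Agent.H863R2.NL
open H974 H906.Cyl Finset
open Pool.Agent.H863R2.Cyl (Wd Tc rows FSpec push)

namespace AvgAux

theorem Ex_half (S : Finset Edg) (g : Finset Edg → ℝ) :
    Ex (fun _ => 1/2) S g = (1/2)^S.card * ∑ F ∈ S.powerset, g F := by
  unfold Ex
  rw [Finset.mul_sum]
  apply Finset.sum_congr rfl
  intro F hF
  have hF' := Finset.mem_powerset.1 hF
  rw [Finset.prod_const, Finset.prod_const]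
  rw [show (1 - 1/2 : ℝ) = 1/2 by norm_num, ← pow_add, Finset.card_sdiff_of_subset hF']
  congr 2
  have := Finset.card_le_card hF'
  omega

theorem Ex_red {n : ℕ} {q : ℝ} {S B : Finset Edg} (hinj : Set.InjOn (red n) B)
    (hS : B.image (red n) ⊆ S) (A : Finset Edg → ℝ) :
    Ex (fun _ => q) S (fun F => A (B.filter (fun e => red n e ∈ F))) = Ex (fun _ => q) B A := by
  have e1 : Ex (fun _ => q) S (fun F => A (B.filter (fun e => red n e ∈ F)))
      = Ex (fun _ => q) (B.image (red n)) (fun F => A (B.filter (fun e => red n e ∈ F))) := by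
    apply Ex_local hS
    intro F _
    have : B.filter (fun e => red n e ∈ F) =
        B.filter (fun e => red n e ∈ F ∩ B.image (red n)) := by
      apply Finset.filter_congr
      intro e he
      rw [Finset.mem_inter]
      exact ⟨fun h => ⟨h, Finset.mem_image_of_mem _ he⟩, fun h => h.1⟩
    rw [this]
  rw [e1]
  rw [Ex_image _ _ _ hinj]
  apply Ex_congr
  intro F hF
  have : B.filter (fun e => red n e ∈ F.image (red n)) = F := by
    ext e
    rw [Finset.mem_filter, Finset.mem_image]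
    constructor
    · rintro ⟨h1, a, h2, h3⟩
      have := hinj (Finset.mem_coe.2 (hF h2)) (Finset.mem_coe.2 h1) h3
      exact this ▸ h2
    · intro h
      exact ⟨hF h, e, h, rfl⟩
  show A (B.filter (fun e => red n e ∈ F.image (red n))) = A F
  rw [this]

end AvgAux
open AvgAux

theorem EN_avg {n : ℕ} (hn : 0 < n) (M : ℕ) (g : ℕ → ℝ) : EN n g =
    Ex (fun _ => (1/2 : ℝ)) (CE n M) (fun F => ∑ σ : Wd (2 * n - 1 + 1), ∑ τ : Wd (2 * n - 1 + 1),
      mu n σ * mu n τ * g (fN (rows (2 * n - 1) (dn n M F) M σ).1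
        (rows (2 * n - 1) (up n M F) M τ).1)) := by
  have e1 := avg_rows (mu_stat n) M (fun σ τ => g (fN σ.1 τ.1))
  have e2 := sum_config (n := n) (M := M) hn (fun a b =>
    ∑ σ, ∑ τ, mu n σ * mu n τ * g (fN (rows (2 * n - 1) (H906.Cyl.ext a) M σ).1
      (rows (2 * n - 1) (H906.Cyl.ext b) M τ).1))
  rw [e1] at e2
  have e3 : ∑ F ∈ (CE n M).powerset, ∑ σ, ∑ τ, mu n σ * mu n τ *
      g (fN (rows (2 * n - 1) (dn n M F) M σ).1 (rows (2 * n - 1) (up n M F) M τ).1)
      = (2 ^ (2 * n - 1 + 1)) ^ M * ((2 ^ (2 * n - 1 + 1)) ^ M * EN n g) := by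
    unfold EN
    rw [← e2]
    apply Finset.sum_congr rfl
    intro F _
    have r1 : ∀ σ, rows (2 * n - 1) (H906.Cyl.ext (fun t : Fin M => dn n M F t)) M σ
        = rows (2 * n - 1) (dn n M F) M σ := fun σ => rows_congr (fun t ht => by
      unfold H906.Cyl.ext; rw [dif_pos ht]) σ
    have r2 : ∀ σ, rows (2 * n - 1) (H906.Cyl.ext (fun t : Fin M => up n M F t)) M σ
        = rows (2 * n - 1) (up n M F) M σ := fun σ => rows_congr (fun t ht => by
      unfold H906.Cyl.ext; rw [dif_pos ht]) σ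
    simp only [r1, r2]
  rw [Ex_half, e3, card_CE]
  have e4 : (1/2 : ℝ) ^ ((2 * n) * (2 * M)) *
      ((2 ^ (2 * n - 1 + 1)) ^ M * (2 ^ (2 * n - 1 + 1)) ^ M) = 1 := by
    rw [show 2 * n - 1 + 1 = 2 * n by omega, ← pow_mul, ← pow_add, one_div, inv_pow,
      show (2 * n) * (2 * M) = 2 * n * M + 2 * n * M by ring]
    exact inv_mul_cancel₀ (by positivity)
  calc EN n g = (1/2 : ℝ) ^ ((2 * n) * (2 * M)) *
      ((2 ^ (2 * n - 1 + 1)) ^ M * (2 ^ (2 * n - 1 + 1)) ^ M) * EN n g := by rw [e4, one_mul]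
    _ = _ := by ring

theorem TT_per_local {n k M : ℕ} {F : Finset Edg} (_hF : F ⊆ CE n M) :
    TT (per n F) k = TT (per n (F ∩ (boxE k).image (red n))) k := by
  apply TT_local
  intro e he
  show red n e ∈ F ↔ red n e ∈ F ∩ (boxE k).image (red n)
  rw [Finset.mem_inter]
  exact ⟨fun h => ⟨h, Finset.mem_image_of_mem _ he⟩, fun h => h.1⟩

theorem Ex_per {n k M : ℕ} (hk : 2 * k < n) (hM : 2 * k ≤ M) (g : ℕ → ℝ) :
    Ex (fun _ => (1/2 : ℝ)) (CE n M) (fun F => g (TT (per n F) k)) = ET k g := by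
  unfold Pool.Agent.H863R2.NL.ET
  rw [← Ex_red (n := n) (q := 1/2) (S := CE n M) (B := boxE k)
    (by unfold boxE; exact red_inj_x (by omega))
    (by unfold boxE; exact image_red_sub (by omega) (by omega) (by omega))
    (fun F => g (TT (↑F) k))]
  apply Ex_congr
  intro F _
  show g (TT (per n F) k) = g (TT (↑((boxE k).filter (fun e => red n e ∈ F))) k)
  congr 1
  apply TT_local
  intro e he
  show red n e ∈ F ↔ e ∈ (↑((boxE k).filter (fun e => red n e ∈ F)) : Set Edg)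
  rw [Finset.mem_coe, Finset.mem_filter]
  exact ⟨fun h => ⟨he, h⟩, fun h => h.2⟩

theorem ET_box {k k' : ℕ} (h : k ≤ k') (g : ℕ → ℝ) :
    Ex (fun _ => (1/2 : ℝ)) (boxE k') (fun F => g (TT (↑F) k)) = ET k g := by
  unfold Pool.Agent.H863R2.NL.ET
  apply Ex_local (boxE_mono h)
  intro F _
  congr 1
  apply TT_local
  intro e he
  rw [Finset.coe_inter]
  exact ⟨fun h => ⟨h, he⟩, fun h => h.1⟩

theorem ok : Ok (fun _ : Edg => (1/2 : ℝ)) := okq (by norm_num) (by norm_num)

theorem ET_anti {k k' : ℕ} (h : k ≤ k') {g : ℕ → ℝ} (hg : Antitone g) : ET k' g ≤ ET k g := by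
  rw [← ET_box h g]
  exact Ex_mono ok (fun _ _ => hg (TT_mono h))

theorem ET_mono {k k' : ℕ} (h : k ≤ k') {g : ℕ → ℝ} (hg : Monotone g) : ET k g ≤ ET k' g := by
  rw [← ET_box h g]
  exact Ex_mono ok (fun _ _ => hg (TT_mono h))

/-- elementary properties of the two expectations -/
theorem EN_mono {n : ℕ} {g g' : ℕ → ℝ} (h : ∀ m, g m ≤ g' m) : EN n g ≤ EN n g' := by
  unfold EN
  apply Finset.sum_le_sum; intro σ _
  apply Finset.sum_le_sum; intro τ _
  exact mul_le_mul_of_nonneg_left (h _) (mul_nonneg (mu_nonneg n σ) (mu_nonneg n τ))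

theorem ET_le_ET {k : ℕ} {g g' : ℕ → ℝ} (h : ∀ m, g m ≤ g' m) : ET k g ≤ ET k g' :=
  Ex_mono ok (fun _ _ => h _)

theorem EN_const (n : ℕ) (c : ℝ) : EN n (fun _ => c) = c := by
  unfold EN
  simp only [← Finset.sum_mul, ← Finset.mul_sum, mu_sum, mul_one, one_mul]

theorem ET_const (k : ℕ) (c : ℝ) : ET k (fun _ => c) = c := Ex_const _ _ _

theorem EN_mul (n : ℕ) (c : ℝ) (g : ℕ → ℝ) : EN n (fun m => c * g m) = c * EN n g := by
  unfold EN
  simp only [Finset.mul_sum]
  apply Finset.sum_congr rfl; intro σ _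
  apply Finset.sum_congr rfl; intro τ _
  ring

theorem ET_mul (k : ℕ) (c : ℝ) (g : ℕ → ℝ) : ET k (fun m => c * g m) = c * ET k g :=
  Ex_mul_left _ _ _ _

theorem EN_add (n : ℕ) (g g' : ℕ → ℝ) : EN n (fun m => g m + g' m) = EN n g + EN n g' := by
  unfold EN
  simp only [mul_add, Finset.sum_add_distrib]

theorem ET_add (k : ℕ) (g g' : ℕ → ℝ) : ET k (fun m => g m + g' m) = ET k g + ET k g' :=
  Ex_add _ _ _ _

end Pool.Agent.H863R2.NL
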