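import Pool.Agent.H863R2.NL.Exit

/-!
# Basic properties of `D` and `TT`, locality
-/

namespace Pool.Agent.H863R2.NL
open H974 H906.Cyl Finset
open Pool.Agent.H863R2.Nest (Ch St StI at_ mir Full nb)

theorem D_mono {G : Set Edg} {k K K' : ℕ} (h : K ≤ K') (hD : D G k K) : D G k K' := by
  obtain ⟨q, hq, hc⟩ := hD
  exact ⟨q, hq, hc.mono h⟩

namespace LocAux

theorem row (G : Set Edg) (j : ℕ) : Ch (Mv G) St j (0, 0) ((j : ℤ), (0 : ℤ)) := by
  induction j with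
  | zero => exact Ch.refl _ _
  | succ j ih =>
    refine Ch.step ih (Or.inl ⟨rfl, Or.inl ?_⟩)
    push_cast
    rfl

theorem nm_lt {p : ℤ × ℤ} {m : ℤ} (h : nm p < m) :
    p.1 + p.2 < m ∧ p.1 - p.2 < m ∧ p.2 - p.1 < m ∧ -p.1 - p.2 < m := by
  unfold nm at h
  have h1 := le_abs_self p.1
  have h2 := neg_abs_le p.1
  have h3 := le_abs_self p.2
  have h4 := neg_abs_le p.2
  refine ⟨?_, ?_, ?_, ?_⟩ <;> linarith

theorem edz_mem {k : ℕ} {j d : ℤ} (h : (nm (j, d) < 2 * k ∨ nm (j + 1, d + 1) < 2 * k) ∨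
    (nm (j + 1, d) < 2 * k ∨ nm (j, d + 1) < 2 * k)) : edz j d ∈ boxE k := by
  unfold edz boxE
  split_ifs with h0
  · rw [mem_RE_true]
    rcases h with (h | h) | (h | h) <;>
    · have h1 := nm_lt h
      simp only at h1
      omega
  · rw [mem_RE_false]
    rcases h with (h | h) | (h | h) <;>
    · have h1 := nm_lt h
      simp only at h1
      omega

theorem lnk_imp {G G' : Set Edg} {k : ℕ} (h : ∀ e ∈ boxE k, (e ∈ G ↔ e ∈ G')) {p q : ℤ × ℤ}
    (hp : nm p < 2 * k ∨ nm q < 2 * k) (hl : lnk G p q) : lnk G' p q := by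
  obtain ⟨a, s⟩ := p
  obtain ⟨b, t⟩ := q
  obtain ⟨h1, h2⟩ := hl
  simp only at h1 h2
  subst h1
  refine ⟨rfl, ?_⟩
  rcases h2 with ⟨h2, h3⟩ | ⟨h2, h3⟩
  · subst h2
    have e := h (edz a s) (edz_mem (Or.inl hp))
    refine Or.inl ⟨rfl, ?_⟩
    simpa only [e] using h3
  · subst h2
    have e := h (edz b s) (edz_mem (Or.inr hp))
    refine Or.inr ⟨rfl, ?_⟩
    simpa only [e] using h3

theorem Mv_imp {G G' : Set Edg} {k : ℕ} (h : ∀ e ∈ boxE k, (e ∈ G ↔ e ∈ G')) {p q : ℤ × ℤ}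
    (hp : nm p < 2 * k) (hl : Mv G p q) : Mv G' p q := by
  rcases hl with hl | hl
  · exact Or.inl (lnk_imp h (Or.inl hp) hl)
  · exact Or.inr (lnk_imp h (Or.inr hp) hl)

end LocAux

theorem D_top (G : Set Edg) (k : ℕ) : D G k (2 * k) := by
  refine ⟨(((2 * k : ℕ) : ℤ), 0), ?_, LocAux.row G (2 * k)⟩
  unfold nm
  simp only [abs_zero, add_zero]
  have := le_abs_self (((2 * k : ℕ) : ℤ))
  push_cast at this ⊢
  exact this

theorem TT_le_iff {G : Set Edg} {k K : ℕ} : TT G k ≤ K ↔ D G k K := by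
  constructor
  · intro h
    have h1 : D G k (TT G k) := Nat.sInf_mem (s := {K | D G k K}) ⟨2 * k, D_top G k⟩
    exact D_mono h h1
  · intro h
    exact Nat.sInf_le h

theorem TT_le_two (G : Set Edg) (k : ℕ) : TT G k ≤ 2 * k := TT_le_iff.2 (D_top G k)

theorem TT_mono {G : Set Edg} {k k' : ℕ} (h : k ≤ k') : TT G k ≤ TT G k' := by
  rw [TT_le_iff]
  obtain ⟨q, hq, hc⟩ := TT_le_iff.1 (le_refl (TT G k'))
  exact ⟨q, by omega, hc⟩

/-- all sources of the moves may be taken inside the open box -/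
theorem D_iff {G : Set Edg} {k K : ℕ} : D G k K ↔ ∃ q : ℤ × ℤ, 2 * (k : ℤ) ≤ nm q ∧
    Ch (fun p q => Mv G p q ∧ nm p < 2 * k) (fun p q => St p q ∧ nm p < 2 * k) K (0, 0) q := by
  constructor
  · rintro ⟨q, hq, hc⟩
    by_cases hk : k = 0
    · subst hk
      exact ⟨(0, 0), by simp [nm], Ch.refl _ _⟩
    · have h0 : nm ((0, 0) : ℤ × ℤ) < 2 * (k : ℤ) := by
        have : (0 : ℤ) < k := by exact_mod_cast Nat.pos_of_ne_zero hk
        simp only [nm, abs_zero, add_zero]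
        linarith
      obtain ⟨c', c, K1, K2, _, h2, _, h4, h5, _⟩ :=
        Ch_exit (fun p : ℤ × ℤ => nm p < 2 * (k : ℤ)) hc h0 (not_lt.2 hq)
      exact ⟨c, not_lt.1 h2, h5.mono (by omega)⟩
  · rintro ⟨q, hq, hc⟩
    refine ⟨q, hq, ?_⟩
    exact Ch.map (fun x => x) (fun a b h => Ch.of_rel h.1) (fun a b h => Ch.of_step h.1) hc

/-- `TT G k` depends only on the edges of the box -/
theorem TT_local {G G' : Set Edg} {k : ℕ} (h : ∀ e ∈ boxE k, (e ∈ G ↔ e ∈ G')) :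
    TT G k = TT G' k := by
  have key : ∀ {G G' : Set Edg}, (∀ e ∈ boxE k, (e ∈ G ↔ e ∈ G')) → TT G' k ≤ TT G k := by
    intro G G' h
    rw [TT_le_iff, D_iff]
    obtain ⟨q, hq, hc⟩ := D_iff.1 (TT_le_iff.1 (le_refl (TT G k)))
    refine ⟨q, hq, ?_⟩
    exact Ch.map (fun x => x) (fun a b h' => Ch.of_rel ⟨LocAux.Mv_imp h h'.2 h'.1, h'.2⟩)
      (fun a b h' => Ch.of_step h') hc
  exact le_antisymm (key (fun e he => (h e he).symm)) (key h)

end Pool.Agent.H863R2.NL
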