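import Pool.Agent.H863R2.NL.Defs
import Pool.Agent.H863R2.NL.Loc

/-! Module Inf: the infinite lattice. -/

namespace Pool.Agent.H863R2.NL
open H974 H906.Cyl Finset
open Pool.Agent.H863R2.Nest (Ch St StI at_ mir Full nb)

namespace InfAux

/-- the face of a point -/
def ph (p : Pt) : ℤ × ℤ := if p.2 then (p.1.1 + p.1.2, p.1.1 - p.1.2)
  else (p.1.1 + p.1.2 + 1, p.1.1 - p.1.2)

theorem ph_true (x y : ℤ) : ph ((x, y), true) = (x + y, x - y) := rfl
theorem ph_false (x y : ℤ) : ph ((x, y), false) = (x + y + 1, x - y) := rfl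

theorem ph_inj {p q : Pt} (h : ph p = ph q) : p = q := by
  obtain ⟨⟨x, y⟩, b⟩ := p
  obtain ⟨⟨x', y'⟩, b'⟩ := q
  cases b <;> cases b'
  · rw [ph_false, ph_false, Prod.mk.injEq] at h
    simp only [Prod.mk.injEq, and_true]
    omega
  · rw [ph_false, ph_true, Prod.mk.injEq] at h
    exfalso; omega
  · rw [ph_true, ph_false, Prod.mk.injEq] at h
    exfalso; omega
  · rw [ph_true, ph_true, Prod.mk.injEq] at h
    simp only [Prod.mk.injEq, and_true]
    omega

theorem ph_surj (a : ℤ × ℤ) : ∃ p, ph p = a := by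
  obtain ⟨a, s⟩ := a
  by_cases h : (a + s) % 2 = 0
  · refine ⟨(((a + s) / 2, (a - s) / 2), true), ?_⟩
    rw [ph_true, Prod.mk.injEq]
    omega
  · refine ⟨(((a + s - 1) / 2, (a - s - 1) / 2), false), ?_⟩
    rw [ph_false, Prod.mk.injEq]
    omega

theorem nm_ph (p : Pt) : norm2 p = nm (ph p) := by
  obtain ⟨⟨x, y⟩, b⟩ := p
  cases b
  · rw [ph_false]
    show max |2 * x + 1| |2 * y + 1| = |x + y + 1| + |x - y|
    rcases abs_cases (2 * x + 1) with ⟨h1, h1'⟩ | ⟨h1, h1'⟩ <;>
    rcases abs_cases (2 * y + 1) with ⟨h2, h2'⟩ | ⟨h2, h2'⟩ <;>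
    rcases abs_cases (x + y + 1) with ⟨h3, h3'⟩ | ⟨h3, h3'⟩ <;>
    rcases abs_cases (x - y) with ⟨h4, h4'⟩ | ⟨h4, h4'⟩ <;>
    rw [h1, h2, h3, h4] <;> omega
  · rw [ph_true]
    show max |2 * x + 0| |2 * y + 0| = |x + y| + |x - y|
    rcases abs_cases (2 * x + 0) with ⟨h1, h1'⟩ | ⟨h1, h1'⟩ <;>
    rcases abs_cases (2 * y + 0) with ⟨h2, h2'⟩ | ⟨h2, h2'⟩ <;>
    rcases abs_cases (x + y) with ⟨h3, h3'⟩ | ⟨h3, h3'⟩ <;>
    rcases abs_cases (x - y) with ⟨h4, h4'⟩ | ⟨h4, h4'⟩ <;>
    rw [h1, h2, h3, h4] <;> omega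

theorem edz_even (x y : ℤ) : edz (x + y) (x - y) = (x, y, true) := by
  unfold edz
  rw [if_pos (by omega)]
  simp only [Prod.mk.injEq, and_true]
  omega

theorem edz_odd (x y : ℤ) : edz (x + y) (x - y - 1) = (x, y, false) := by
  unfold edz
  rw [if_neg (by omega)]
  simp only [Prod.mk.injEq, and_true]
  omega

theorem mv_primal (G : Set Edg) (e : Edg) (he : e ∈ G) :
    Mv G (ph (src e, true)) (ph (tgt e, true)) := by
  obtain ⟨x, y, b⟩ := e
  cases b
  · right
    refine ⟨?_, Or.inr ⟨?_, ?_⟩⟩
    · show x - y = x - (y + 1) + 1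
      ring
    · show x + (y + 1) = x + y + 1
      ring
    · show if (x + y + (x - (y + 1))) % 2 = 0 then edz (x + y) (x - (y + 1)) ∉ G
        else edz (x + y) (x - (y + 1)) ∈ G
      rw [if_neg (by omega), ← sub_sub, edz_odd]
      exact he
  · left
    refine ⟨?_, Or.inl ⟨?_, ?_⟩⟩
    · show (x + 1) - y = x - y + 1
      ring
    · show (x + 1) + y = x + y + 1
      ring
    · show if (x + y + (x - y)) % 2 = 0 then edz (x + y) (x - y) ∈ G else edz (x + y) (x - y) ∉ G
      rw [if_pos (by omega), edz_even]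
      exact he

/-- the two faces next to an edge -/
theorem mv_dual (G : Set Edg) (e : Edg) (he : e ∉ G) :
    Mv G (ph (dsrc e, false)) (ph (dtgt e, false)) := by
  obtain ⟨x, y, b⟩ := e
  cases b
  · left
    refine ⟨?_, Or.inl ⟨?_, ?_⟩⟩
    · show x - y = (x - 1) - y + 1
      ring
    · show x + y + 1 = (x - 1) + y + 1 + 1
      ring
    · show if ((x - 1) + y + 1 + ((x - 1) - y)) % 2 = 0 then edz ((x - 1) + y + 1) ((x - 1) - y) ∈ G
        else edz ((x - 1) + y + 1) ((x - 1) - y) ∉ G
      rw [if_neg (by omega), show (x - 1) + y + 1 = x + y by ring,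
        show (x - 1) - y = x - y - 1 by ring, edz_odd]
      exact he
  · right
    refine ⟨?_, Or.inr ⟨?_, ?_⟩⟩
    · show x - (y - 1) = x - y + 1
      ring
    · show x + y + 1 = x + (y - 1) + 1 + 1
      ring
    · show if (x + (y - 1) + 1 + (x - y)) % 2 = 0 then edz (x + (y - 1) + 1) (x - y) ∉ G
        else edz (x + (y - 1) + 1) (x - y) ∈ G
      rw [if_pos (by omega), show x + (y - 1) + 1 = x + y by ring, edz_even]
      exact he

theorem Mv_symm {G : Set Edg} {p q : ℤ × ℤ} (h : Mv G p q) : Mv G q p := h.symm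

/-- two different faces with the two common corners `src e`, `tgt e` -/
theorem corners (e : Edg) {u v : ℤ × ℤ} (huv : u ≠ v) (h1 : Corner (src e) u)
    (h2 : Corner (tgt e) u) (h3 : Corner (src e) v) (h4 : Corner (tgt e) v) :
    (u = dsrc e ∧ v = dtgt e) ∨ (u = dtgt e ∧ v = dsrc e) := by
  obtain ⟨x, y, b⟩ := e
  obtain ⟨u1, u2⟩ := u
  obtain ⟨v1, v2⟩ := v
  rw [Ne, Prod.mk.injEq] at huv
  cases b
  · simp only [Corner, src_mk, tgt_false, dtgt_mk, dsrc, Bool.false_eq_true, if_false,
      Prod.mk.injEq] at *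
    omega
  · simp only [Corner, src_mk, tgt_true, dtgt_mk, dsrc, if_true, Prod.mk.injEq] at *
    omega

theorem free_mv {ω : sqLattice.edgeSet → Bool} {p q : Pt} (h : Free ω p q) :
    Mv (opn ω) (ph p) (ph q) := by
  cases h with
  | primal h =>
    obtain ⟨e, he, ⟨rfl, rfl⟩ | ⟨rfl, rfl⟩⟩ := (openGraph_adj ω _ _).1 h
    · exact mv_primal _ e he
    · exact Mv_symm (mv_primal _ e he)
  | @dual u v x y huv hxy hcl h1 h2 h3 h4 =>
    obtain ⟨e, he⟩ := adj_edge hxy
    have hne : e ∉ opn ω := by
      intro hmem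
      apply hcl
      rw [openGraph_adj]
      exact ⟨e, hmem, he⟩
    have hc : (u = dsrc e ∧ v = dtgt e) ∨ (u = dtgt e ∧ v = dsrc e) := by
      rcases he with ⟨rfl, rfl⟩ | ⟨rfl, rfl⟩
      · exact corners e huv h1 h2 h3 h4
      · exact corners e huv h2 h1 h4 h3
    rcases hc with ⟨rfl, rfl⟩ | ⟨rfl, rfl⟩
    · exact mv_dual _ e hne
    · exact Mv_symm (mv_dual _ e hne)

theorem adj_sq (e : Edg) : sqLattice.Adj (src e) (tgt e) := by
  obtain ⟨x, y, b⟩ := e
  cases b
  · show |x - x| + |y - (y + 1)| = 1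
    rw [show y - (y + 1) = -1 by ring]
    simp
  · show |x - (x + 1)| + |y - y| = 1
    rw [show x - (x + 1) = -1 by ring]
    simp

theorem free_symm {ω : sqLattice.edgeSet → Bool} {p q : Pt} (h : Free ω p q) : Free ω q p := by
  cases h with
  | primal h => exact Free.primal h.symm
  | dual huv hxy hcl h1 h2 h3 h4 => exact Free.dual huv.symm hxy hcl h3 h4 h1 h2

theorem adj_open (ω : sqLattice.edgeSet → Bool) (e : Edg) :
    (openGraph ω).Adj (src e) (tgt e) ↔ e ∈ opn ω := by
  rw [openGraph_adj]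
  constructor
  · rintro ⟨e', he', h⟩
    have : e' = e := by
      obtain ⟨x, y, b⟩ := e
      obtain ⟨x', y', b'⟩ := e'
      cases b <;> cases b' <;>
        simp only [src_mk, tgt_false, tgt_true, Prod.mk.injEq, and_true] at h ⊢ <;> omega
    rwa [← this]
  · intro h
    exact ⟨e, h, Or.inl ⟨rfl, rfl⟩⟩

theorem free_dual {ω : sqLattice.edgeSet → Bool} (e : Edg) (he : e ∉ opn ω) :
    Free ω (dsrc e, false) (dtgt e, false) := by
  refine Free.dual (x := src e) (y := tgt e) ?_ (adj_sq e) ?_ ?_ ?_ ?_ ?_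
  · obtain ⟨x, y, b⟩ := e
    cases b
    · simp only [dsrc, dtgt, Bool.false_eq_true, if_false, Ne, Prod.mk.injEq]
      omega
    · simp only [dsrc, dtgt, if_true, Ne, Prod.mk.injEq]
      omega
  · rw [adj_open]; exact he
  all_goals
    obtain ⟨x, y, b⟩ := e
    cases b <;> simp [Corner, src, tgt, dsrc, dtgt]

theorem lnk_free {ω : sqLattice.edgeSet → Bool} {p q : Pt} (h : lnk (opn ω) (ph p) (ph q)) :
    Free ω p q := by
  obtain ⟨⟨x, y⟩, b⟩ := p
  obtain ⟨⟨x', y'⟩, b'⟩ := q
  obtain ⟨h1, h2⟩ := h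
  cases b <;> cases b'
  · -- dual
    rw [ph_false, ph_false] at h1 h2
    simp only at h1 h2
    rcases h2 with ⟨h2, h3⟩ | ⟨h2, h3⟩
    · have hx : x' = x + 1 := by omega
      have hy : y' = y := by omega
      subst hx hy
      rw [if_neg (by omega), show x + y' + 1 = (x + 1) + y' by ring,
        show x - y' = (x + 1) - y' - 1 by ring, edz_odd] at h3
      have := free_dual (ω := ω) (x + 1, y', false) h3
      simpa [dsrc, dtgt] using this
    · have hx : x' = x := by omega
      have hy : y' = y - 1 := by omega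
      subst hx hy
      rw [if_pos (by omega), show x' + (y - 1) + 1 = x' + y by ring, edz_even] at h3
      have := free_symm (free_dual (ω := ω) (x', y, true) h3)
      simpa [dsrc, dtgt] using this
  · exfalso
    rw [ph_false, ph_true] at h1 h2
    simp only at h1 h2
    rcases h2 with ⟨h2, h3⟩ | ⟨h2, h3⟩ <;> omega
  · exfalso
    rw [ph_false, ph_true] at h1 h2
    simp only at h1 h2
    rcases h2 with ⟨h2, h3⟩ | ⟨h2, h3⟩ <;> omega
  · rw [ph_true, ph_true] at h1 h2
    simp only at h1 h2
    rcases h2 with ⟨h2, h3⟩ | ⟨h2, h3⟩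
    · have hx : x' = x + 1 := by omega
      have hy : y' = y := by omega
      subst hx hy
      rw [if_pos (by omega), edz_even] at h3
      exact Free.primal ((adj_open ω (x, y', true)).2 h3)
    · have hx : x' = x := by omega
      have hy : y' = y - 1 := by omega
      subst hx hy
      rw [if_neg (by omega), show x' - y = x' - (y - 1) - 1 by ring, edz_odd] at h3
      have := (adj_open ω (x', y - 1, false)).2 h3
      rw [tgt_false, src_mk, sub_add_cancel] at this
      exact Free.primal this.symm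

theorem free_iff {ω : sqLattice.edgeSet → Bool} {p q : Pt} :
    Free ω p q ↔ Mv (opn ω) (ph p) (ph q) := by
  constructor
  · exact free_mv
  · rintro (h | h)
    · exact lnk_free h
    · exact free_symm (lnk_free h)

theorem change_iff {p q : Pt} : Change p q ↔ St (ph p) (ph q) := by
  constructor
  · intro h
    cases h with
    | @out v w h =>
      obtain ⟨x, y⟩ := v
      obtain ⟨x', y'⟩ := w
      rw [ph_true, ph_false]
      unfold Corner at h
      simp only at h
      unfold St nb
      simp only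
      omega
    | @back v w h =>
      obtain ⟨x, y⟩ := v
      obtain ⟨x', y'⟩ := w
      rw [ph_true, ph_false]
      unfold Corner at h
      simp only at h
      unfold St nb
      simp only
      omega
  · intro h
    obtain ⟨⟨x, y⟩, b⟩ := p
    obtain ⟨⟨x', y'⟩, b'⟩ := q
    unfold St nb at h
    cases b <;> cases b'
    · exfalso
      rw [ph_false, ph_false] at h
      simp only at h
      omega
    · rw [ph_false, ph_true] at h
      simp only at h
      apply Change.back
      unfold Corner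
      simp only
      omega
    · rw [ph_false, ph_true] at h
      simp only at h
      apply Change.out
      unfold Corner
      simp only
      omega
    · exfalso
      rw [ph_true, ph_true] at h
      simp only at h
      omega

theorem reach_ch {ω : sqLattice.edgeSet → Bool} {k : ℕ} {p : Pt} (h : ReachIn ω k p) :
    Ch (Mv (opn ω)) St k (0, 0) (ph p) := by
  induction h with
  | start k => exact Ch.refl k _
  | free _ h ih => exact Ch.rel ih (free_iff.1 h)
  | change _ h ih => exact Ch.step ih (change_iff.1 h)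

theorem ch_reach {ω : sqLattice.edgeSet → Bool} {k : ℕ} {a b : ℤ × ℤ}
    (h : Ch (Mv (opn ω)) St k a b) (ha : a = (0, 0)) : ∀ p : Pt, ph p = b → ReachIn ω k p := by
  induction h with
  | refl k a =>
    intro p hp
    have : p = ((0, 0), true) := ph_inj (by rw [hp, ha]; rfl)
    rw [this]
    exact ReachIn.start k
  | rel _ h ih =>
    intro p hp
    obtain ⟨q, hq⟩ := ph_surj _
    refine ReachIn.free (ih ha q hq) (free_iff.2 ?_)
    rw [hq, hp]
    exact h
  | step _ h ih =>
    intro p hp
    obtain ⟨q, hq⟩ := ph_surj _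
    refine ReachIn.change (ih ha q hq) (change_iff.2 ?_)
    rw [hq, hp]
    exact h

end InfAux

open InfAux

theorem changes_eq (n : ℕ) (ω : sqLattice.edgeSet → Bool) : changes n ω = TT (opn ω) n := by
  unfold changes TT D
  congr 1
  ext k
  constructor
  · rintro ⟨p, hp, h⟩
    exact ⟨ph p, by rw [← nm_ph]; exact hp, reach_ch h⟩
  · rintro ⟨q, hq, h⟩
    obtain ⟨p, rfl⟩ := ph_surj q
    exact ⟨p, by rw [nm_ph]; exact hq, ch_reach h rfl p rfl⟩

theorem changes_FF (n : ℕ) (ω : sqLattice.edgeSet → Bool) :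
    changes n ω = TT (↑(FF (boxE n) ω)) n := by
  rw [changes_eq]
  apply TT_local
  intro e he
  rw [FF_coe]
  constructor
  · intro h
    exact ⟨h, he⟩
  · intro h
    exact h.1

theorem changes_mono {n m : ℕ} (h : n ≤ m) (ω : sqLattice.edgeSet → Bool) :
    changes n ω ≤ changes m ω := by
  rw [changes_eq, changes_eq]
  exact TT_mono h

theorem meas_changes (n : ℕ) : Measurable (changes n) := by
  apply measurable_to_countable'
  intro m
  have h : changes n ⁻¹' {m} = {ω | (fun F : Finset Edg => TT (↑F) n = m) (FF (boxE n) ω)} := by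
    ext ω
    show changes n ω = m ↔ TT (↑(FF (boxE n) ω)) n = m
    rw [changes_FF]
  rw [h]
  exact meas_event (boxE n) (fun F : Finset Edg => TT (↑F) n = m)

theorem prob_changes (n : ℕ) (P : ℕ → Prop) :
    (bondLaw hlf).real {ω | P (changes n ω)} = ET n (fun m => ind (P m)) := by
  have h : {ω | P (changes n ω)} = {ω | (fun F : Finset Edg => P (TT (↑F) n)) (FF (boxE n) ω)} := by
    ext ω
    show P (changes n ω) ↔ P (TT (↑(FF (boxE n) ω)) n)
    rw [changes_FF]
  rw [h, law_event hlf (boxE n) (fun F : Finset Edg => P (TT (↑F) n))]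
  rfl

open MeasureTheory in
theorem int_changes (n : ℕ) (g : ℕ → ℝ) :
    ∫ ω, g (changes n ω) ∂(bondLaw hlf) = ET n g := by
  have hle : ∀ ω, changes n ω ∈ range (2 * n + 1) := by
    intro ω
    rw [mem_range, changes_eq]
    have := TT_le_two (opn ω) n
    omega
  have h1 : ∀ ω, g (changes n ω) = ∑ m ∈ range (2 * n + 1),
      ({ω | changes n ω = m} : Set (sqLattice.edgeSet → Bool)).indicator (fun _ => g m) ω := by
    intro ω
    rw [Finset.sum_eq_single (changes n ω)]
    · rw [Set.indicator_of_mem]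
      rfl
    · intro m _ hm
      rw [Set.indicator_of_notMem]
      exact fun h => hm h.symm
    · intro h
      exact absurd (hle ω) h
  have hms : ∀ m, MeasurableSet {ω | changes n ω = m} := fun m =>
    meas_changes n (measurableSet_singleton m)
  simp only [h1]
  rw [integral_finsetSum]
  · have h2 : ∀ m ∈ range (2 * n + 1), ∫ ω, ({ω | changes n ω = m} :
        Set (sqLattice.edgeSet → Bool)).indicator (fun _ => g m) ω ∂(bondLaw hlf) =
        ET n (fun j => g m * ind (j = m)) := by
      intro m _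
      rw [integral_indicator_const _ (hms m), prob_changes n (fun j => j = m), smul_eq_mul, mul_comm]
      unfold ET
      rw [Ex_mul_left]
    rw [Finset.sum_congr rfl h2]
    unfold ET
    rw [← Ex_sum]
    apply Ex_congr
    intro F _
    rw [Finset.sum_eq_single (TT (↑F) n)]
    · show g (TT (↑F) n) * ind (TT (↑F) n = TT (↑F) n) = _
      rw [ind_of rfl, mul_one]
    · intro m _ hm
      show g m * ind (TT (↑F) n = m) = 0
      rw [ind_not_of (fun h => hm h.symm), mul_zero]
    · intro h
      exact absurd (mem_range.2 (by have := TT_le_two (↑F : Set Edg) n; omega)) h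
  · intro m _
    exact (integrable_const _).indicator (hms m)

end Pool.Agent.H863R2.NL
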