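import Pool.Agent.H863R2.NL.Opn

/-! # Few closed edges suffice, by BK -/

namespace Pool.Agent.H863R2.NL
open H974 H906.Cyl Finset

namespace CutAux

/-- the complement event in terms of the closed edges -/
def NC (S : Finset Edg) (A B : Vtx → Prop) (H : Finset Edg) : Prop := ¬ Crs S A B (S \ H)

def NO (k : ℕ) (S : Finset Edg) (A B : Vtx → Prop) (H : Finset Edg) : Prop :=
  ¬ Opn k S (Crs S A B) (S \ H)

theorem Crs_mono {S : Finset Edg} {A B : Vtx → Prop} {F G : Finset Edg} (h : F ⊆ G)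
    (hF : Crs S A B F) : Crs S A B G := by
  obtain ⟨u, v, h1, h2, h3⟩ := hF
  exact ⟨u, v, h1, h2, h3.mono (Set.inter_subset_inter_left _ (by exact_mod_cast h))⟩

theorem NC_incr (S : Finset Edg) (A B : Vtx → Prop) : IncrE S (NC S A B) := by
  intro F G hFG _ hF hG
  exact hF (Crs_mono (Finset.sdiff_subset_sdiff (Finset.Subset.refl _) hFG) hG)

theorem NO_incr (k : ℕ) (S : Finset Edg) (A B : Vtx → Prop) : IncrE S (NO k S A B) := by
  rintro F G hFG _ hF ⟨X, hX, hk, hG⟩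
  exact hF ⟨X, hX, hk, Crs_mono (Finset.union_subset_union
    (Finset.sdiff_subset_sdiff (Finset.Subset.refl _) hFG) (Finset.Subset.refl _)) hG⟩

theorem step (k : ℕ) (S : Finset Edg) (A B : Vtx → Prop) {H : Finset Edg} (hH : H ⊆ S)
    (h : NO (k + 1) S A B H) : DisjOcc (NC S A B) (NO k S A B) H := by
  classical
  set W : Vtx → Prop := fun v => ∃ u, A u ∧ Reach (↑(S \ H) ∩ ↑S) u v with hW
  have hWB : ∀ v, B v → ¬ W v := by
    rintro v hv ⟨u, hu, hr⟩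
    exact h ⟨∅, Finset.empty_subset _, by simp, u, v, hu, hv, by simpa using hr⟩
  have hWF : ∀ e ∈ S \ H, (W (src e) ↔ W (tgt e)) := by
    intro e he
    have heS : e ∈ S := (Finset.mem_sdiff.1 he).1
    constructor
    · rintro ⟨u, hu, hr⟩
      exact ⟨u, hu, hr.trans (Adj.reach ⟨e, ⟨by exact_mod_cast he, by exact_mod_cast heS⟩,
        Or.inl ⟨rfl, rfl⟩⟩)⟩
    · rintro ⟨u, hu, hr⟩
      exact ⟨u, hu, hr.trans (Adj.reach ⟨e, ⟨by exact_mod_cast he, by exact_mod_cast heS⟩,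
        Or.inr ⟨rfl, rfl⟩⟩)⟩
  set K := H.filter (fun e => ¬ (W (src e) ↔ W (tgt e))) with hK
  refine ⟨K, H \ K, Finset.filter_subset _ _, Finset.sdiff_subset, Finset.disjoint_sdiff, ?_, ?_⟩
  · rintro ⟨u, v, hu, hv, hr⟩
    have hWu : W u := ⟨u, hu, Reach.refl _ _⟩
    obtain ⟨e, ⟨he1, -⟩, w, w', hc, hw, hw', -⟩ := last_exit hr hWu (hWB v hv)
    have he1' : e ∈ S ∧ e ∉ K := Finset.mem_sdiff.1 (by exact_mod_cast he1)
    have hne : ¬ (W (src e) ↔ W (tgt e)) := by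
      rcases hc with ⟨h5, h6⟩ | ⟨h5, h6⟩
      · rw [h5, h6]; exact fun h7 => hw' (h7.1 hw)
      · rw [h5, h6]; exact fun h7 => hw' (h7.2 hw)
    have heH : e ∈ H := by
      by_contra hcon
      exact hne (hWF e (Finset.mem_sdiff.2 ⟨he1'.1, hcon⟩))
    exact he1'.2 (Finset.mem_filter.2 ⟨heH, hne⟩)
  · rintro ⟨X, hX, hk, u, v, hu, hv, hr⟩
    have hWu : W u := ⟨u, hu, Reach.refl _ _⟩
    obtain ⟨e, ⟨-, he2⟩, w, w', hc, hw, hw', hr'⟩ := last_exit hr hWu (hWB v hv)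
    obtain ⟨u0, hu0, hr0⟩ := hw
    apply h
    refine ⟨insert e X, ?_, ?_, u0, v, hu0, hv, ?_⟩
    · intro x hx
      rcases Finset.mem_insert.1 hx with h1 | h1
      · rw [h1]; exact_mod_cast he2
      · exact hX h1
    · exact (Finset.card_insert_le _ _).trans (by omega)
    · have r1 : Reach (↑((S \ H) ∪ insert e X) ∩ ↑S) u0 w := by
        apply hr0.mono
        rintro x ⟨h1, h2⟩
        exact ⟨by
          rw [Finset.mem_coe, Finset.mem_union]
          exact Or.inl (by exact_mod_cast h1), h2⟩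
      have r2 : Reach (↑((S \ H) ∪ insert e X) ∩ ↑S) w w' := by
        apply Adj.reach
        refine ⟨e, ⟨?_, he2⟩, hc⟩
        rw [Finset.mem_coe, Finset.mem_union]
        exact Or.inr (Finset.mem_insert_self _ _)
      have r3 : Reach (↑((S \ H) ∪ insert e X) ∩ ↑S) w' v := by
        apply hr'.mono
        rintro x ⟨⟨h1, h2⟩, h3, h4⟩
        refine ⟨?_, h2⟩
        rw [Finset.mem_coe, Finset.mem_union] at h1 ⊢
        rcases h1 with h1 | h1
        · left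
          obtain ⟨h5, h6⟩ := Finset.mem_sdiff.1 h1
          refine Finset.mem_sdiff.2 ⟨h5, fun h7 => ?_⟩
          apply h6
          refine Finset.mem_sdiff.2 ⟨h7, fun h8 => ?_⟩
          have h9 := (Finset.mem_filter.1 h8).2
          exact h9 ⟨fun h10 => absurd h10 h3, fun h10 => absurd h10 h4⟩
        · exact Or.inr (Finset.mem_insert_of_mem h1)
      exact (r1.trans r2).trans r3

end CutAux
open CutAux

theorem cut_bk {q : ℝ} (h0 : 0 ≤ q) (h1 : q ≤ 1) (S : Finset Edg) (A B : Vtx → Prop) (k : ℕ) :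
    Pr (fun _ => q) S (fun F => ¬ Opn k S (Crs S A B) F) ≤
      (Pr (fun _ => q) S (fun F => ¬ Crs S A B F)) ^ (k + 1) := by
  have ok' : Ok (fun _ : Edg => 1 - q) := fun _ => ⟨by linarith, by linarith⟩
  have e1 : ∀ j, Pr (fun _ => q) S (fun F => ¬ Opn j S (Crs S A B) F) =
      Pr (fun _ => 1 - q) S (NO j S A B) := by
    intro j
    have := Pr_compl (p := fun _ : Edg => q) S (NO j S A B)
    rw [this]
    apply Pr_congr
    intro F hF
    unfold CutAux.NO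
    rw [Finset.sdiff_sdiff_eq_self hF]
  have e2 : Pr (fun _ => q) S (fun F => ¬ Crs S A B F) = Pr (fun _ => 1 - q) S (NC S A B) := by
    have := Pr_compl (p := fun _ : Edg => q) S (NC S A B)
    rw [this]
    apply Pr_congr
    intro F hF
    unfold CutAux.NC
    rw [Finset.sdiff_sdiff_eq_self hF]
  rw [e1, e2]
  induction k with
  | zero =>
    rw [pow_one]
    apply Pr_mono ok'
    intro F _ hF hC
    exact hF ⟨∅, Finset.empty_subset _, by simp, by rw [Finset.union_empty]; exact hC⟩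
  | succ k ih =>
    calc Pr (fun _ => 1 - q) S (NO (k + 1) S A B)
        ≤ Pr (fun _ => 1 - q) S (DisjOcc (NC S A B) (NO k S A B)) :=
          Pr_mono ok' (fun F hF h => step k S A B hF h)
      _ ≤ Pr (fun _ => 1 - q) S (NC S A B) * Pr (fun _ => 1 - q) S (NO k S A B) :=
          bk ok' (NC_incr S A B) (NO_incr k S A B)
      _ ≤ Pr (fun _ => 1 - q) S (NC S A B) * Pr (fun _ => 1 - q) S (NC S A B) ^ (k + 1) :=
          mul_le_mul_of_nonneg_left ih (Pr_nonneg ok' _ _)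
      _ = _ := by ring

theorem opn_LRc (k : ℕ) (a b c d : ℤ) :
    Pr (fun _ => (1/2 : ℝ)) (LRE a b c d) (fun F => ¬ Opn k (LRE a b c d) (LRc a b c d) F) ≤
      (1 - hh (1/2) (b - a) (d - c)) ^ (k + 1) := by
  have e : LRc a b c d = Crs (LRE a b c d) (fun u => u.1 = a ∧ (c ≤ u.2 ∧ u.2 ≤ d))
      (fun v => v.1 = b ∧ (c ≤ v.2 ∧ v.2 ≤ d)) := by
    funext F
    apply propext
    constructor
    · rintro ⟨y, y', h1, h2, h3⟩
      exact ⟨(a, y), (b, y'), ⟨rfl, h1⟩, ⟨rfl, h2⟩, h3⟩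
    · rintro ⟨⟨x, y⟩, ⟨x', y'⟩, ⟨h1, h2⟩, ⟨h3, h4⟩, h5⟩
      simp only at h1 h3
      subst h1; subst h3
      exact ⟨y, y', h2, h4, h5⟩
  have h := cut_bk (q := 1/2) (by norm_num) (by norm_num) (LRE a b c d)
    (fun u => u.1 = a ∧ (c ≤ u.2 ∧ u.2 ≤ d)) (fun v => v.1 = b ∧ (c ≤ v.2 ∧ v.2 ≤ d)) k
  have e2 : Pr (fun _ => (1/2 : ℝ)) (LRE a b c d) (fun F => ¬ LRc a b c d F) =
      1 - hh (1/2) (b - a) (d - c) := by
    rw [Pr_not, pr_LRc _ (Finset.Subset.refl _)]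
  rw [← e, e2] at h
  exact h

theorem opn_TBc (k : ℕ) (a b c d : ℤ) :
    Pr (fun _ => (1/2 : ℝ)) (TBE a b c d) (fun F => ¬ Opn k (TBE a b c d) (TBc a b c d) F) ≤
      (1 - hh (1/2) (d - c) (b - a)) ^ (k + 1) := by
  have e : TBc a b c d = Crs (TBE a b c d) (fun u => u.2 = c ∧ (a ≤ u.1 ∧ u.1 ≤ b))
      (fun v => v.2 = d ∧ (a ≤ v.1 ∧ v.1 ≤ b)) := by
    funext F
    apply propext
    constructor
    · rintro ⟨y, y', h1, h2, h3⟩
      exact ⟨(y, c), (y', d), ⟨rfl, h1⟩, ⟨rfl, h2⟩, h3⟩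
    · rintro ⟨⟨x, y⟩, ⟨x', y'⟩, ⟨h1, h2⟩, ⟨h3, h4⟩, h5⟩
      simp only at h1 h3
      subst h1; subst h3
      exact ⟨x, x', h2, h4, h5⟩
  have h := cut_bk (q := 1/2) (by norm_num) (by norm_num) (TBE a b c d)
    (fun u => u.2 = c ∧ (a ≤ u.1 ∧ u.1 ≤ b)) (fun v => v.2 = d ∧ (a ≤ v.1 ∧ v.1 ≤ b)) k
  have e2 : Pr (fun _ => (1/2 : ℝ)) (TBE a b c d) (fun F => ¬ TBc a b c d F) =
      1 - hh (1/2) (d - c) (b - a) := by
    rw [Pr_not, pr_TBc _ (Finset.Subset.refl _)]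
  rw [← e, e2] at h
  exact h

end Pool.Agent.H863R2.NL
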