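import Pool.Agent.H863R2.NL.Defs
import Pool.Agent.H863R2.NL.CutBK

/-!
# Probability of bad configurations
-/

namespace Pool.Agent.H863R2.NL
open H974 H906.Cyl Finset

namespace BadAux

/-! ### straight lines -/

theorem line_h {G : Set Edg} {a y : ℤ} (m : ℕ)
    (h : ∀ x : ℤ, a ≤ x → x < a + m → ((x, y, true) : Edg) ∈ G) : Reach G (a, y) (a + m, y) := by
  induction m with
  | zero => simp only [Nat.cast_zero, add_zero]; exact Reach.refl _ _
  | succ m ih =>
    have h1 := ih fun x hx hx2 => h x hx (by push_cast; omega)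
    refine h1.trans (Adj.reach ⟨((a + m, y, true) : Edg), h _ (by omega) (by push_cast; omega),
      Or.inl ⟨?_, ?_⟩⟩)
    · simp [src]
    · simp [tgt, add_assoc]

theorem line_v {G : Set Edg} {a y : ℤ} (m : ℕ)
    (h : ∀ x : ℤ, y ≤ x → x < y + m → ((a, x, false) : Edg) ∈ G) : Reach G (a, y) (a, y + m) := by
  induction m with
  | zero => simp only [Nat.cast_zero, add_zero]; exact Reach.refl _ _
  | succ m ih =>
    have h1 := ih fun x hx hx2 => h x hx (by push_cast; omega)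
    refine h1.trans (Adj.reach ⟨((a, y + m, false) : Edg), h _ (by omega) (by push_cast; omega),
      Or.inl ⟨?_, ?_⟩⟩)
    · simp [src]
    · simp [tgt, add_assoc]

theorem full_LR {a b c d : ℤ} (hab : a ≤ b) (hcd : c ≤ d) (F : Finset Edg) :
    LRc a b c d (F ∪ LRE a b c d) := by
  refine ⟨c, c, ⟨le_rfl, hcd⟩, ⟨le_rfl, hcd⟩, ?_⟩
  have h := line_h (G := ↑(F ∪ LRE a b c d) ∩ ↑(LRE a b c d)) (a := a) (y := c) (b - a).toNat ?_
  · rwa [show a + ((b - a).toNat : ℤ) = b by omega] at h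
  · intro x h1 h2
    have h3 : ((x, c, true) : Edg) ∈ LRE a b c d := by
      rw [mem_LRE_true]
      omega
    exact ⟨mem_coe.2 (mem_union_right _ h3), mem_coe.2 h3⟩

theorem full_TB {a b c d : ℤ} (hab : a ≤ b) (hcd : c ≤ d) (F : Finset Edg) :
    TBc a b c d (F ∪ TBE a b c d) := by
  refine ⟨a, a, ⟨le_rfl, hab⟩, ⟨le_rfl, hab⟩, ?_⟩
  have h := line_v (G := ↑(F ∪ TBE a b c d) ∩ ↑(TBE a b c d)) (a := a) (y := c) (d - c).toNat ?_
  · rwa [show c + ((d - c).toNat : ℤ) = d by omega] at h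
  · intro x h1 h2
    have h3 : ((a, x, false) : Edg) ∈ TBE a b c d := by
      rw [mem_TBE_false]
      omega
    exact ⟨mem_coe.2 (mem_union_right _ h3), mem_coe.2 h3⟩

/-! ### one rectangle -/

theorem red_eq {n : ℕ} {e e' : Edg} (h : red n e = red n e') :
    ∃ m : ℤ, e'.1 = e.1 + n * m ∧ e'.2.1 = e.2.1 + n * m ∧ e'.2.2 = e.2.2 := by
  simp only [red, Prod.mk.injEq] at h
  obtain ⟨h1, h2, h3⟩ := h
  refine ⟨(e'.1 + e'.2.1) / (2 * n) - (e.1 + e.2.1) / (2 * n), ?_, ?_, h3.symm⟩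
  · linear_combination -h1
  · linear_combination -h2

theorem one {n M : ℕ} {φ : Finset Edg → ℝ} {B S : Finset Edg}
    (hφ : ∀ F, F ⊆ CE n M → φ F = φ (F ∩ B.image (red n)))
    (hB : B.image (red n) ⊆ CE n M) (hS : S.image (red n) ⊆ CE n M)
    (hinj : Set.InjOn (red n) S)
    (hd : ∀ e ∈ B, ∀ e' ∈ S, red n e ≠ red n e') (A : Finset Edg → Prop) :
    Ex (fun _ => (1/2 : ℝ)) (CE n M) (fun F => φ F * ind (A (pf n S F))) =
      Ex (fun _ => (1/2 : ℝ)) (CE n M) φ * Pr (fun _ => (1/2 : ℝ)) S A := by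
  have hdis : Disjoint (B.image (red n)) (S.image (red n)) := by
    rw [Finset.disjoint_left]
    intro x hx hx'
    obtain ⟨e, he, rfl⟩ := mem_image.1 hx
    obtain ⟨e', he', h⟩ := mem_image.1 hx'
    exact hd e he e' he' h.symm
  rw [Ex_mul_indep hB hS hdis hφ]
  · congr 1
    exact Pr_red hinj hS A
  · intro F _
    have : pf n S F = pf n S (F ∩ S.image (red n)) := by
      ext e
      rw [mem_pf, mem_pf, mem_inter]
      exact ⟨fun h => ⟨h.1, h.2, mem_image_of_mem _ h.1⟩, fun h => ⟨h.1, h.2.1⟩⟩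
    rw [← this]

theorem hhb {w h : ℤ} {x : ℝ} (hx : x ≤ hh (1/2) w h) (k : ℕ) :
    (1 - hh (1/2) w h) ^ (k + 1) ≤ (1 - x) ^ (k + 1) := by
  have h1 : hh (1/2) w h ≤ 1 := by
    unfold hh
    exact Pr_le_one (okq (by norm_num) (by norm_num)) _ _
  exact pow_le_pow_left₀ (by linarith) (by linarith) _

theorem bad_one {a M : ℕ} (k : ℕ) {φ : Finset Edg → ℝ} (h0 : ∀ F, 0 ≤ φ F)
    (ha : 0 < a) (hM : 20 * a ≤ M)
    (hφ : ∀ F, F ⊆ CE (10 * a) M → φ F = φ (F ∩ (boxE (2 * a - 1)).image (red (10 * a))))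
    {S : Finset Edg} (hS : S.image (red (10 * a)) ⊆ CE (10 * a) M)
    (hinj : Set.InjOn (red (10 * a)) S)
    (hd : ∀ x y x' y' : ℤ, ∀ t : Bool, x < 2 * a → -(2 * a : ℤ) < x → y < 2 * a →
      -(2 * a : ℤ) < y → ∀ m : ℤ, x' = x + 10 * a * m → y' = y + 10 * a * m →
      ((x', y', t) : Edg) ∈ S → False)
    (C : Finset Edg → Prop)
    (hp : Pr (fun _ => (1/2 : ℝ)) S (fun F => ¬ Opn k S C F) ≤ (1 - (1/2 : ℝ) ^ 47) ^ (k + 1)) :
    Ex (fun _ => (1/2 : ℝ)) (CE (10 * a) M)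
      (fun F => φ F * ind (¬ Opn k S C (pf (10 * a) S F))) ≤
      (1 - (1/2 : ℝ) ^ 47) ^ (k + 1) * Ex (fun _ => (1/2 : ℝ)) (CE (10 * a) M) φ := by
  have hB : (boxE (2 * a - 1)).image (red (10 * a)) ⊆ CE (10 * a) M := by
    unfold boxE
    exact image_red_sub (by omega) (by omega) (by omega)
  rw [one hφ hB hS hinj ?_ (fun F => ¬ Opn k S C F), mul_comm]
  · refine mul_le_mul_of_nonneg_right hp (Ex_nonneg (okq (by norm_num) (by norm_num)) ?_)
    exact fun F _ => h0 F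
  · rintro ⟨x, y, t⟩ he ⟨x', y', t'⟩ he' h
    obtain ⟨m, h1, h2, h3⟩ := red_eq h
    simp only at h1 h2 h3
    have hx : (x < 2 * a ∧ -(2 * a : ℤ) < x) ∧ (y < 2 * a ∧ -(2 * a : ℤ) < y) := by
      unfold boxE at he
      cases t
      · simp only [mem_RE_false] at he
        omega
      · simp only [mem_RE_true] at he
        omega
    push_cast at h1 h2
    exact hd x y x' y' t' hx.1.1 hx.1.2 hx.2.1 hx.2.2 m h1 h2 he'

end BadAux

open BadAux

theorem bad_le {a M : ℕ} (k : ℕ) (ha : 0 < a) (hM : 20 * a ≤ M) (φ : Finset Edg → ℝ)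
    (h0 : ∀ F, 0 ≤ φ F) (hφ : ∀ F, F ⊆ CE (10 * a) M →
      φ F = φ (F ∩ (boxE (2 * a - 1)).image (red (10 * a)))) :
    Ex (fun _ => (1/2 : ℝ)) (CE (10 * a) M) (fun F => φ F * ind (¬ Good (10 * a) (2 * a) k F)) ≤
      6 * (1 - (1/2 : ℝ) ^ 47) ^ (k + 1) * Ex (fun _ => (1/2 : ℝ)) (CE (10 * a) M) φ := by
  have ok := okq (q := 1/2) (by norm_num) (by norm_num)
  set b : ℤ := ((2 * a : ℕ) : ℤ) with hb
  set n : ℤ := ((10 * a : ℕ) : ℤ) with hn
  have hb' : b = 2 * (a : ℤ) := by rw [hb]; push_cast; ring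
  have hn' : n = 10 * (a : ℤ) := by rw [hn]; push_cast; ring
  have ha' : (0 : ℤ) < a := by exact_mod_cast ha
  set S1 := LRE (-(2 * b)) (2 * b) b (2 * b) with hS1
  set S2 := LRE (-(2 * b)) (2 * b) (-(2 * b)) (-b) with hS2
  set S3 := TBE b (2 * b) (-(2 * b)) (2 * b) with hS3
  set S4 := TBE (-(2 * b)) (-b) (-(2 * b)) (2 * b) with hS4
  set S5 := LRE b (n + 2 * b) (-b) b with hS5
  set S6 := TBE (n - b) (n + b) (-(2 * b)) (n - b) with hS6
  have r1 : (1/2 : ℝ) ^ 47 ≤ hh (1/2) (8 * a) (2 * a) :=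
    rsw (n := (a : ℤ)) ha' (by omega) (by omega) (by omega)
  have r2 : (1/2 : ℝ) ^ 47 ≤ hh (1/2) (12 * a) (4 * a) :=
    rsw (n := 2 * (a : ℤ)) (by omega) (by omega) (by omega) (by omega)
  have b1 := bad_one (M := M) k h0 ha hM hφ (S := S1)
    (by
      refine (image_subset_image LRE_subset_RE).trans (image_red_sub (by omega) ?_ ?_) <;> omega)
    ((red_inj_x (n := 10 * a) (a := -(2 * b)) (b := 2 * b) (c := b) (d := 2 * b)
      (by omega)).mono (by exact_mod_cast LRE_subset_RE))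
    (by
      intro x y x' y' t h1 h2 h3 h4 m h5 h6 h7
      have h8 : 2 * (a : ℤ) ≤ y' ∧ y' ≤ 4 * a := by
        cases t
        · rw [hS1, mem_LRE_false] at h7; omega
        · rw [hS1, mem_LRE_true] at h7; omega
      rcases lt_trichotomy m 0 with hm | hm | hm
      · nlinarith
      · subst hm; omega
      · nlinarith)
    (LRc (-(2 * b)) (2 * b) b (2 * b))
    ((opn_LRc k _ _ _ _).trans (by
      rw [show (2 * b - -(2 * b)) = 8 * (a : ℤ) by rw [hb']; ring,
        show (2 * b - b) = 2 * (a : ℤ) by rw [hb']; ring]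
      exact hhb r1 k))
  have b2 := bad_one (M := M) k h0 ha hM hφ (S := S2)
    (by
      refine (image_subset_image LRE_subset_RE).trans (image_red_sub (by omega) ?_ ?_) <;> omega)
    ((red_inj_x (n := 10 * a) (a := -(2 * b)) (b := 2 * b) (c := -(2 * b)) (d := -b)
      (by omega)).mono (by exact_mod_cast LRE_subset_RE))
    (by
      intro x y x' y' t h1 h2 h3 h4 m h5 h6 h7
      have h8 : -(4 * (a : ℤ)) ≤ y' ∧ y' ≤ -(2 * a) := by
        cases t
        · rw [hS2, mem_LRE_false] at h7; omega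
        · rw [hS2, mem_LRE_true] at h7; omega
      rcases lt_trichotomy m 0 with hm | hm | hm
      · nlinarith
      · subst hm; omega
      · nlinarith)
    (LRc (-(2 * b)) (2 * b) (-(2 * b)) (-b))
    ((opn_LRc k _ _ _ _).trans (by
      rw [show (2 * b - -(2 * b)) = 8 * (a : ℤ) by rw [hb']; ring,
        show (-b - -(2 * b)) = 2 * (a : ℤ) by rw [hb']; ring]
      exact hhb r1 k))
  have b3 := bad_one (M := M) k h0 ha hM hφ (S := S3)
    (by
      refine (image_subset_image TBE_subset_RE).trans (image_red_sub (by omega) ?_ ?_) <;> omega)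
    ((red_inj_x (n := 10 * a) (a := b) (b := 2 * b) (c := -(2 * b)) (d := 2 * b)
      (by omega)).mono (by exact_mod_cast TBE_subset_RE))
    (by
      intro x y x' y' t h1 h2 h3 h4 m h5 h6 h7
      have h8 : 2 * (a : ℤ) ≤ x' ∧ x' ≤ 4 * a := by
        cases t
        · rw [hS3, mem_TBE_false] at h7; omega
        · rw [hS3, mem_TBE_true] at h7; omega
      rcases lt_trichotomy m 0 with hm | hm | hm
      · nlinarith
      · subst hm; omega
      · nlinarith)
    (TBc b (2 * b) (-(2 * b)) (2 * b))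
    ((opn_TBc k _ _ _ _).trans (by
      rw [show (2 * b - -(2 * b)) = 8 * (a : ℤ) by rw [hb']; ring,
        show (2 * b - b) = 2 * (a : ℤ) by rw [hb']; ring]
      exact hhb r1 k))
  have b4 := bad_one (M := M) k h0 ha hM hφ (S := S4)
    (by
      refine (image_subset_image TBE_subset_RE).trans (image_red_sub (by omega) ?_ ?_) <;> omega)
    ((red_inj_x (n := 10 * a) (a := -(2 * b)) (b := -b) (c := -(2 * b)) (d := 2 * b)
      (by omega)).mono (by exact_mod_cast TBE_subset_RE))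
    (by
      intro x y x' y' t h1 h2 h3 h4 m h5 h6 h7
      have h8 : -(4 * (a : ℤ)) ≤ x' ∧ x' ≤ -(2 * a) := by
        cases t
        · rw [hS4, mem_TBE_false] at h7; omega
        · rw [hS4, mem_TBE_true] at h7; omega
      rcases lt_trichotomy m 0 with hm | hm | hm
      · nlinarith
      · subst hm; omega
      · nlinarith)
    (TBc (-(2 * b)) (-b) (-(2 * b)) (2 * b))
    ((opn_TBc k _ _ _ _).trans (by
      rw [show (2 * b - -(2 * b)) = 8 * (a : ℤ) by rw [hb']; ring,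
        show (-b - -(2 * b)) = 2 * (a : ℤ) by rw [hb']; ring]
      exact hhb r1 k))
  have b5 := bad_one (M := M) k h0 ha hM hφ (S := S5)
    (by
      refine (image_subset_image LRE_subset_RE).trans (image_red_sub (by omega) ?_ ?_) <;> omega)
    ((red_inj_y (n := 10 * a) (a := b) (b := n + 2 * b) (c := -b) (d := b)
      (by omega)).mono (by exact_mod_cast LRE_subset_RE))
    (by
      intro x y x' y' t h1 h2 h3 h4 m h5 h6 h7
      have h8 : 2 * (a : ℤ) ≤ x' ∧ (-(2 * (a : ℤ)) ≤ y' ∧ y' ≤ 2 * a) := by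
        cases t
        · rw [hS5, mem_LRE_false] at h7; omega
        · rw [hS5, mem_LRE_true] at h7; omega
      rcases lt_trichotomy m 0 with hm | hm | hm
      · nlinarith
      · subst hm; omega
      · nlinarith)
    (LRc b (n + 2 * b) (-b) b)
    ((opn_LRc k _ _ _ _).trans (by
      rw [show (n + 2 * b - b) = 12 * (a : ℤ) by rw [hb', hn']; ring,
        show (b - -b) = 4 * (a : ℤ) by rw [hb']; ring]
      exact hhb r2 k))
  have b6 := bad_one (M := M) k h0 ha hM hφ (S := S6)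
    (by
      refine (image_subset_image TBE_subset_RE).trans (image_red_sub (by omega) ?_ ?_) <;> omega)
    ((red_inj_x (n := 10 * a) (a := n - b) (b := n + b) (c := -(2 * b)) (d := n - b)
      (by omega)).mono (by exact_mod_cast TBE_subset_RE))
    (by
      intro x y x' y' t h1 h2 h3 h4 m h5 h6 h7
      have h8 : (8 * (a : ℤ) ≤ x' ∧ x' ≤ 12 * a) ∧ (-(4 * (a : ℤ)) ≤ y' ∧ y' ≤ 8 * a) := by
        cases t
        · rw [hS6, mem_TBE_false] at h7; omega
        · rw [hS6, mem_TBE_true] at h7; omega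
      rcases lt_trichotomy m 0 with hm | hm | hm
      · nlinarith
      · subst hm; omega
      · rcases (show m = 1 ∨ 2 ≤ m by omega) with h9 | h9
        · subst h9; omega
        · nlinarith)
    (TBc (n - b) (n + b) (-(2 * b)) (n - b))
    ((opn_TBc k _ _ _ _).trans (by
      rw [show (n - b - -(2 * b)) = 12 * (a : ℤ) by rw [hb', hn']; ring,
        show (n + b - (n - b)) = 4 * (a : ℤ) by rw [hb']; ring]
      exact hhb r2 k))
  have key : ∀ F : Finset Edg, φ F * ind (¬ Good (10 * a) (2 * a) k F) ≤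
      ((((φ F * ind (¬ Opn k S1 (LRc (-(2 * b)) (2 * b) b (2 * b)) (pf (10 * a) S1 F)) +
        φ F * ind (¬ Opn k S2 (LRc (-(2 * b)) (2 * b) (-(2 * b)) (-b)) (pf (10 * a) S2 F))) +
        φ F * ind (¬ Opn k S3 (TBc b (2 * b) (-(2 * b)) (2 * b)) (pf (10 * a) S3 F))) +
        φ F * ind (¬ Opn k S4 (TBc (-(2 * b)) (-b) (-(2 * b)) (2 * b)) (pf (10 * a) S4 F))) +
        φ F * ind (¬ Opn k S5 (LRc b (n + 2 * b) (-b) b) (pf (10 * a) S5 F))) +
        φ F * ind (¬ Opn k S6 (TBc (n - b) (n + b) (-(2 * b)) (n - b)) (pf (10 * a) S6 F)) := by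
    intro F
    simp only [← mul_add]
    refine mul_le_mul_of_nonneg_left ?_ (h0 F)
    have h1 : ¬ Good (10 * a) (2 * a) k F →
        ((((¬ Opn k S1 (LRc (-(2 * b)) (2 * b) b (2 * b)) (pf (10 * a) S1 F) ∨
        ¬ Opn k S2 (LRc (-(2 * b)) (2 * b) (-(2 * b)) (-b)) (pf (10 * a) S2 F)) ∨
        ¬ Opn k S3 (TBc b (2 * b) (-(2 * b)) (2 * b)) (pf (10 * a) S3 F)) ∨
        ¬ Opn k S4 (TBc (-(2 * b)) (-b) (-(2 * b)) (2 * b)) (pf (10 * a) S4 F)) ∨
        ¬ Opn k S5 (LRc b (n + 2 * b) (-b) b) (pf (10 * a) S5 F)) ∨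
        ¬ Opn k S6 (TBc (n - b) (n + b) (-(2 * b)) (n - b)) (pf (10 * a) S6 F) := by
      intro h
      by_contra h2
      simp only [not_or, not_not] at h2
      exact h ⟨⟨h2.1.1.1.1.1, h2.1.1.1.1.2⟩, ⟨h2.1.1.1.2, h2.1.1.2⟩, ⟨h2.1.2, h2.2⟩⟩
    refine (ind_mono h1).trans ?_
    refine (ind_or_le _ _).trans (add_le_add ?_ le_rfl)
    refine (ind_or_le _ _).trans (add_le_add ?_ le_rfl)
    refine (ind_or_le _ _).trans (add_le_add ?_ le_rfl)
    refine (ind_or_le _ _).trans (add_le_add ?_ le_rfl)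
    exact ind_or_le _ _
  have h1 := Ex_mono ok (S := CE (10 * a) M) fun F _ => key F
  simp only [Ex_add] at h1
  linarith

/-- for large `k` every configuration is good -/
theorem good_top {n b k : ℕ} (hb : 0 < b) (hbn : 4 * b < n) (F : Finset Edg)
    (hk : (LRE (-(2 * b)) (2 * b) b (2 * b)).card + (LRE (-(2 * b)) (2 * b) (-(2 * b)) (-b)).card +
      (TBE b (2 * b) (-(2 * b)) (2 * b)).card + (TBE (-(2 * b)) (-b) (-(2 * b)) (2 * b)).card +
      (LRE b (n + 2 * b) (-b) b).card + (TBE (n - b) (n + b) (-(2 * b)) (n - b)).card ≤ k) :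
    Good n b k F := by
  refine ⟨⟨⟨_, Subset.rfl, by omega, full_LR ?_ ?_ _⟩, ⟨_, Subset.rfl, by omega, full_LR ?_ ?_ _⟩⟩,
    ⟨⟨_, Subset.rfl, by omega, full_TB ?_ ?_ _⟩, ⟨_, Subset.rfl, by omega, full_TB ?_ ?_ _⟩⟩,
    ⟨⟨_, Subset.rfl, by omega, full_LR ?_ ?_ _⟩, ⟨_, Subset.rfl, by omega, full_TB ?_ ?_ _⟩⟩⟩ <;>
    omega

theorem good_mono {n b k k' : ℕ} {F : Finset Edg} (h : k ≤ k') (hG : Good n b k F) :
    Good n b k' F := by
  have key : ∀ {S : Finset Edg} {C : Finset Edg → Prop} {F : Finset Edg},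
      Opn k S C F → Opn k' S C F := fun ⟨X, h1, h2, h3⟩ => ⟨X, h1, h2.trans h, h3⟩
  exact ⟨⟨key hG.1.1, key hG.1.2⟩, ⟨key hG.2.1.1, key hG.2.1.2⟩, ⟨key hG.2.2.1, key hG.2.2.2⟩⟩

end Pool.Agent.H863R2.NL
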