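import Pool.Agent.H863R2.NL.Defs

/-!
Module CircZ (helper913): a circuit in an annulus, with an explicit point.
-/

namespace Pool.Agent.H863R2.NL
open H974 H906.Cyl Finset

theorem circ_z {R1 R2 : ℤ} (h1 : 0 ≤ R1) (h2 : R1 < R2) {E : Finset Edg} (h : Circ R1 R2 E) :
    ∃ z : Vtx, Zp R1 R2 E z := by
  obtain ⟨⟨⟨t, t', ht, ht', hT0⟩, ⟨b, b', hb, hb', hB0⟩⟩, ⟨r, r', hr, hr', hR0⟩,
    ⟨l, l', hl, hl', hL0⟩⟩ := h
  refine ⟨(r, -R2), ?_⟩
  intro F hEF u v hu hv hP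
  have hsub : ∀ S : Set Edg, (↑E ∩ S : Set Edg) ⊆ ↑F ∩ S := fun S =>
    Set.inter_subset_inter_left _ (by exact_mod_cast hEF)
  have hT' := (hT0.mono (hsub _)).mono (Set.inter_subset_inter_right (↑F)
    (by exact_mod_cast LRE_subset_RE : (↑(LRE (-R2) R2 R1 R2) : Set Edg) ⊆ _))
  have hB' := (hB0.mono (hsub _)).mono (Set.inter_subset_inter_right (↑F)
    (by exact_mod_cast LRE_subset_RE : (↑(LRE (-R2) R2 (-R2) (-R1)) : Set Edg) ⊆ _))
  have hR' := (hR0.mono (hsub _)).mono (Set.inter_subset_inter_right (↑F)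
    (by exact_mod_cast TBE_subset_RE : (↑(TBE R1 R2 (-R2) R2) : Set Edg) ⊆ _))
  have hL' := (hL0.mono (hsub _)).mono (Set.inter_subset_inter_right (↑F)
    (by exact_mod_cast TBE_subset_RE : (↑(TBE (-R2) (-R1) (-R2) R2) : Set Edg) ⊆ _))
  have mTR : Reach (↑F ∩ ↑(RE (-R2) R2 (-R2) R2)) (-R2, t) (r, -R2) :=
    cross_meet (by omega) h2 le_rfl (by omega) h2 le_rfl hT' (by simp only; omega) le_rfl hR'
      (by simp only; omega) le_rfl
  have mBR : Reach (↑F ∩ ↑(RE (-R2) R2 (-R2) R2)) (-R2, b) (r, -R2) :=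
    cross_meet (by omega) h2 le_rfl le_rfl (by omega) (by omega) hB' (by simp only; omega) le_rfl
      hR' le_rfl (by simp only; omega)
  have mTL : Reach (↑F ∩ ↑(RE (-R2) R2 (-R2) R2)) (-R2, t) (l, -R2) :=
    cross_meet le_rfl (by omega) (by omega) (by omega) h2 le_rfl hT' le_rfl (by simp only; omega)
      hL' (by simp only; omega) le_rfl
  unfold inR at hu
  rcases hv with hv | hv | hv | hv
  · have m : Reach (↑F ∩ ↑(RE (-R2) R2 (-R2) R2)) v (l, -R2) :=
      cross_meet le_rfl (by omega) (by omega) le_rfl (by omega) le_rfl hP.symm hv.le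
        (show -R1 ≤ u.1 by omega) hL' le_rfl le_rfl
    exact hP.trans (m.trans (mTL.symm.trans mTR))
  · exact cross_meet (by omega) h2 le_rfl le_rfl (by omega) le_rfl hP (by omega) hv.ge hR' le_rfl
      le_rfl
  · have m : Reach (↑F ∩ ↑(RE (-R2) R2 (-R2) R2)) (-R2, b) v :=
      cross_meet le_rfl (by omega) le_rfl le_rfl (by omega) (by omega) hB' le_rfl le_rfl hP.symm
        hv.le (show -R1 ≤ u.2 by omega)
    exact hP.trans (m.symm.trans mBR)
  · have m : Reach (↑F ∩ ↑(RE (-R2) R2 (-R2) R2)) (-R2, t) u :=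
      cross_meet le_rfl (by omega) le_rfl (by omega) h2 le_rfl hT' le_rfl le_rfl hP
        (by omega) hv.ge
    exact m.symm.trans mTR

end Pool.Agent.H863R2.NL
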