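import Pool.Agent.H863R2.NL.Defs

/-!
# Module Conn: connection of the circuit with its translate
-/

namespace Pool.Agent.H863R2.NL
open H974 H906.Cyl Finset

theorem conn {n b : ℕ} (hb : 0 < b) (hbn : 4 * b < n) {F X1 X5 X6 : Finset Edg} {z : Vtx}
    (hX1 : X1 ⊆ RE (-(2 * b)) (2 * b) (-(2 * b)) (2 * b))
    (hX5 : X5 ⊆ LRE b (n + 2 * b) (-b) b) (hX6 : X6 ⊆ TBE (n - b) (n + b) (-(2 * b)) (n - b))
    (hz : Zp b (2 * b) (pf n (RE (-(2 * b)) (2 * b) (-(2 * b)) (2 * b)) F ∪ X1) z)
    (h5 : LRc b (n + 2 * b) (-b) b (pf n (LRE b (n + 2 * b) (-b) b) F ∪ X5))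
    (h6 : TBc (n - b) (n + b) (-(2 * b)) (n - b)
      (pf n (TBE (n - b) (n + b) (-(2 * b)) (n - b)) F ∪ X6)) :
    Reach ((per n F ∪ ↑(X1 ∪ X5 ∪ X6 ∪ X1.image (fun e : Edg => (e.1 + n, e.2.1 + n, e.2.2)))) ∩
      {e | -((n : ℤ) + 3 * b) ≤ dco e ∧ dco e < n + 3 * b}) z (z.1 + n, z.2 + n) := by
  have _hX1 := hX1
  have hb' : (0 : ℤ) < b := by exact_mod_cast hb
  have hbn' : 4 * (b : ℤ) < n := by exact_mod_cast hbn
  have hn : 0 < n := by omega
  set G5 : Finset Edg := pf n (LRE b (n + 2 * b) (-b) b) F ∪ X5 with hG5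
  set G6 : Finset Edg := pf n (TBE (n - b) (n + b) (-(2 * b)) (n - b)) F ∪ X6 with hG6
  set E1 : Finset Edg := pf n (RE (-(2 * b)) (2 * b) (-(2 * b)) (2 * b)) F ∪ X1 with hE1
  set T : Set Edg := (per n F ∪ ↑(X1 ∪ X5 ∪ X6 ∪
    X1.image (fun e : Edg => (e.1 + n, e.2.1 + n, e.2.2)))) ∩
      {e | -((n : ℤ) + 3 * b) ≤ dco e ∧ dco e < n + 3 * b} with hT
  -- membership in `T`
  have mG5 : ∀ e ∈ G5, e ∈ T := by
    intro e he
    have he' := he
    rw [hG5, Finset.mem_union, mem_pf] at he
    refine ⟨?_, ?_⟩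
    · rcases he with he | he
      · exact Or.inl he.2
      · exact Or.inr (by simp only [Finset.coe_union, Set.mem_union, Finset.mem_coe]; tauto)
    · have h1 : e ∈ RE b (n + 2 * b) (-b) b := by
        rcases he with he | he
        · exact LRE_subset_RE he.1
        · exact LRE_subset_RE (hX5 he)
      have h2 := RE_dco h1
      simp only [Set.mem_ofPred_eq]
      omega
  have mG6 : ∀ e ∈ G6, e ∈ T := by
    intro e he
    have he' := he
    rw [hG6, Finset.mem_union, mem_pf] at he
    refine ⟨?_, ?_⟩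
    · rcases he with he | he
      · exact Or.inl he.2
      · exact Or.inr (by simp only [Finset.coe_union, Set.mem_union, Finset.mem_coe]; tauto)
    · have h1 : e ∈ RE (n - b) (n + b) (-(2 * b)) (n - b) := by
        rcases he with he | he
        · exact TBE_subset_RE he.1
        · exact TBE_subset_RE (hX6 he)
      have h2 := RE_dco h1
      simp only [Set.mem_ofPred_eq]
      omega
  have mE1 : ∀ e ∈ E1, e ∈ RE (-(2 * b)) (2 * b) (-(2 * (b : ℤ))) (2 * b) → e ∈ T := by
    intro e he hR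
    rw [hE1, Finset.mem_union, mem_pf] at he
    refine ⟨?_, ?_⟩
    · rcases he with he | he
      · exact Or.inl he.2
      · exact Or.inr (by simp only [Finset.coe_union, Set.mem_union, Finset.mem_coe]; tauto)
    · have h2 := RE_dco hR
      simp only [Set.mem_ofPred_eq]
      omega
  have mE1s : ∀ e ∈ E1, e ∈ RE (-(2 * b)) (2 * b) (-(2 * (b : ℤ))) (2 * b) →
      ((e.1 + n, e.2.1 + n, e.2.2) : Edg) ∈ T := by
    intro e he hR
    have hd : dco ((e.1 + n, e.2.1 + n, e.2.2) : Edg) = dco e := by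
      obtain ⟨x, y, _ | _⟩ := e <;>
        simp only [dco, Bool.false_eq_true, if_false, if_true] <;> ring
    rw [hE1, Finset.mem_union, mem_pf] at he
    refine ⟨?_, ?_⟩
    · rcases he with he | he
      · left
        have := red_shift hn e 1
        simp only [mul_one] at this
        show red n _ ∈ F
        rw [this]
        exact he.2
      · right
        simp only [Finset.coe_union, Set.mem_union, Finset.mem_coe, Finset.mem_image]
        right
        exact ⟨e, he, rfl⟩
    · have h2 := RE_dco hR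
      simp only [Set.mem_ofPred_eq]
      rw [hd]
      omega
  obtain ⟨y, y', hy, hy', hL⟩ := h5
  obtain ⟨x, x', hx, hx', hTB⟩ := h6
  have hL' : Reach (↑G5 ∩ ↑(RE b (n + 2 * b) (-b) b)) ((b : ℤ), y) (n + 2 * b, y') :=
    hL.mono (Set.inter_subset_inter_right _ (by exact_mod_cast LRE_subset_RE))
  have hT' : Reach (↑G6 ∩ ↑(RE (n - b) (n + b) (-(2 * b)) (n - b))) (x, -(2 * (b : ℤ)))
      (x', (n : ℤ) - b) :=
    hTB.mono (Set.inter_subset_inter_right _ (by exact_mod_cast TBE_subset_RE))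
  -- the two long paths meet
  have r2 : Reach T ((b : ℤ), y) (x, -(2 * (b : ℤ))) := by
    have := cross_meet (F := (↑G5 ∪ ↑G6 : Set Edg)) (A := b) (B := n + 2 * b) (C := -(2 * b))
      (D := n - b) (a := n - b) (b := n + b) (c := -b) (d := b) (by omega) (by omega)
      (by omega) (by omega) (by omega) (by omega)
      (hL'.mono (Set.inter_subset_inter_left _ Set.subset_union_left))
      (by simp only; omega) (by simp only; omega)
      (hT'.mono (Set.inter_subset_inter_left _ Set.subset_union_right))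
      (by simp only; omega) (by simp only; omega)
    refine this.mono ?_
    rintro e ⟨he | he, -⟩
    · exact mG5 e he
    · exact mG6 e he
  -- the horizontal path meets the circuit around the origin
  have r3 : Reach T ((b : ℤ), y) z := by
    obtain ⟨y1, y2, k1, k2, k3, k4⟩ := sub_LR (a := b) (b := 2 * b) (c := -b) (d := b) (by omega)
      (by rintro x y ⟨-, h⟩ _ _; simp only [mem_coe, mem_RE_true] at h; omega)
      (by rintro x y ⟨-, h⟩ _ _; simp only [mem_coe, mem_RE_false] at h; omega) hL'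
      (by simp only; omega) (by simp only; omega)
    have k5 : Reach (↑(E1 ∪ G5) ∩ ↑(RE (-(2 * (b : ℤ))) (2 * b) (-(2 * b)) (2 * b)))
        ((b : ℤ), y1) (2 * (b : ℤ), y2) := by
      apply k3.mono
      rintro e ⟨⟨h6, -⟩, h7⟩
      refine ⟨Finset.mem_coe.2 (Finset.mem_union_right _ h6), ?_⟩
      have := LRE_subset_RE (Finset.mem_coe.1 h7)
      exact Finset.mem_coe.2 (RE_subset (by omega) le_rfl (by omega) (by omega) this)
    have k6 := hz (E1 ∪ G5) Finset.subset_union_left ((b : ℤ), y1) (2 * (b : ℤ), y2)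
      (by unfold inR; simp only; omega) (by simp) k5
    have k7 : Reach T ((b : ℤ), y1) z := by
      apply k6.mono
      rintro e ⟨h1, h2⟩
      rw [Finset.mem_coe, Finset.mem_union] at h1
      rcases h1 with h1 | h1
      · exact mE1 e h1 h2
      · exact mG5 e h1
    exact (k4.mono (fun e he => mG5 e he.1)).trans k7
  -- the vertical path meets the translated circuit
  have r4 : Reach T (x, -(2 * (b : ℤ))) (z.1 + n, z.2 + n) := by
    obtain ⟨x1, x2, k1, k2, k3, k4⟩ := sub_TB (a := n - b) (b := n + b) (c := n - 2 * b)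
      (d := n - b) (by omega)
      (by rintro x y ⟨-, h⟩ _ _; simp only [mem_coe, mem_RE_false] at h; omega)
      (by rintro x y ⟨-, h⟩ _ _; simp only [mem_coe, mem_RE_true] at h; omega) hT'
      (by simp only; omega) (by simp only; omega)
    set G6' : Finset Edg := G6.image (fun e : Edg => (e.1 - n, e.2.1 - n, e.2.2)) with hG6'
    have k6 : Reach (↑(E1 ∪ G6') ∩ ↑(RE (-(2 * (b : ℤ))) (2 * b) (-(2 * b)) (2 * b)))
        (x1 - n, -(2 * (b : ℤ))) (x2 - n, -(b : ℤ)) := by
      rw [← (trl n n).reach_iff, trl_ψ, trl_ψ]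
      simp only [sub_add_cancel]
      rw [show (-(2 * (b : ℤ)) + (n : ℤ)) = n - 2 * b by ring,
        show (-(b : ℤ) + (n : ℤ)) = n - b by ring]
      apply k3.mono
      rintro ⟨ex, ey, eb⟩ ⟨⟨h6, -⟩, h7⟩
      refine ⟨(ex - n, ey - n, eb), ?_, by rw [trl_φ]; simp⟩
      have h8 := TBE_subset_RE (Finset.mem_coe.1 h7)
      have hm : ((ex - n, ey - n, eb) : Edg) ∈ RE (-(2 * (b : ℤ))) (2 * b) (-(2 * b)) (2 * b) := by
        cases eb
        · simp only [mem_RE_false] at h8 ⊢; omega
        · simp only [mem_RE_true] at h8 ⊢; omega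
      refine ⟨?_, Finset.mem_coe.2 hm⟩
      apply Finset.mem_coe.2
      apply Finset.mem_union_right
      rw [hG6', Finset.mem_image]
      exact ⟨(ex, ey, eb), h6, rfl⟩
    have k7 := hz (E1 ∪ G6') Finset.subset_union_left (x2 - n, -(b : ℤ)) (x1 - n, -(2 * (b : ℤ)))
      (by unfold inR; simp only; omega) (by simp) k6.symm
    have k8 := k6.trans k7
    have k9 := (trl n n).reach k8
    rw [trl_ψ] at k9
    have hzz : (trl n n).ψ z = (z.1 + n, z.2 + n) := rfl
    rw [hzz] at k9
    simp only [sub_add_cancel] at k9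
    rw [show (-(2 * (b : ℤ)) + (n : ℤ)) = n - 2 * b by ring] at k9
    have k10 : Reach T (x1, (n : ℤ) - 2 * b) (z.1 + n, z.2 + n) := by
      apply k9.mono
      rintro e ⟨e', ⟨h1, h2⟩, rfl⟩
      obtain ⟨ex, ey, eb⟩ := e'
      rw [trl_φ]
      rw [Finset.mem_coe, Finset.mem_union] at h1
      rcases h1 with h1 | h1
      · exact mE1s (ex, ey, eb) h1 h2
      · rw [hG6', Finset.mem_image] at h1
        obtain ⟨⟨fx, fy, fb⟩, h3, h4⟩ := h1
        simp only [Prod.mk.injEq] at h4
        obtain ⟨h5, h6, h7⟩ := h4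
        have h8 : ((ex + n, ey + n, eb) : Edg) = (fx, fy, fb) := by
          simp only [Prod.mk.injEq]
          refine ⟨by omega, by omega, h7.symm⟩
        rw [h8]
        exact mG6 _ h3
    exact (k4.mono (fun e he => mG6 e he.1)).trans k10
  exact r3.symm.trans (r2.trans r4)

end Pool.Agent.H863R2.NL
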