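import Pool.Agent.H863R2.NL.Defs

/-!
# The lattice of `Nest.f_full` is the periodic lift
-/

namespace Pool.Agent.H863R2.NL
open H974 H906.Cyl Finset
open Pool.Agent.H863R2.Cyl (Wd Tc rows FSpec push)
open Pool.Agent.H863R2.Nest (Ch St StI at_ mir Full nb lk lks)

namespace FullLAux

/-- a row of plaquettes -/
theorem lk_pst {n : ℕ} (hn : 0 < n) (M : ℕ) (F : Finset Edg) (r : ℕ) (p q : ℤ × ℤ) :
    lk (pst n M F r) ((r : ℤ) - M) p q ↔ p.2 = (r : ℤ) - M ∧ lnk (per n F) p q := by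
  unfold lk lnk
  rw [cl_false_iff hn, cl_pst hn]
  constructor
  · rintro ⟨h1, h2, h3⟩
    rw [← h1] at h2 h3
    exact ⟨h1, h2, h3⟩
  · rintro ⟨h1, h2, h3⟩
    rw [h1] at h2 h3
    exact ⟨h1, h2, h3⟩

theorem lk_up {n : ℕ} (hn : 0 < n) (M : ℕ) (F : Finset Edg) (t r : ℕ) (ht : t < M)
    (hr : r = 2 * M - 1 - t) (p q : ℤ × ℤ) :
    lk (up n M F t) (-(M : ℤ) + t) (mir p) (mir q) ↔ q.2 = (r : ℤ) - M ∧ lnk (per n F) q p := by
  have hcl : ∀ j : ℤ, Pool.Agent.H863R2.Cyl.cl (up n M F t) j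
      = !(Pool.Agent.H863R2.Cyl.cl (pst n M F r) j) := by
    intro j
    unfold Pool.Agent.H863R2.Cyl.cl up
    rw [hr]
  have hrM : ((r : ℤ) - M) = M - 1 - t := by omega
  unfold lk lnk mir
  simp only
  rw [hcl, hcl]
  have h0 : (!(Pool.Agent.H863R2.Cyl.cl (pst n M F r) p.1)) = false ↔
      Pool.Agent.H863R2.Cyl.cl (pst n M F r) p.1 = true := by
    cases Pool.Agent.H863R2.Cyl.cl (pst n M F r) p.1 <;> simp
  have h1 : (!(Pool.Agent.H863R2.Cyl.cl (pst n M F r) q.1)) = true ↔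
      Pool.Agent.H863R2.Cyl.cl (pst n M F r) q.1 = false := by
    cases Pool.Agent.H863R2.Cyl.cl (pst n M F r) q.1 <;> simp
  rw [h0, h1, cl_false_iff hn, cl_pst hn]
  constructor
  · rintro ⟨h2, h3, h4⟩
    have h5 : q.2 = (r : ℤ) - M := by omega
    rw [← h5] at h4
    exact ⟨h5, by omega, h4.symm⟩
  · rintro ⟨h2, h3, h4⟩
    rw [h2] at h4
    exact ⟨by omega, by omega, h4.symm⟩

end FullLAux

open FullLAux

theorem full_CM {n : ℕ} (hn : 0 < n) (M : ℕ) (F : Finset Edg) (w w' : List Bool) (p q : ℤ × ℤ) :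
    Full (dn n M F) (up n M F) M M w w' p q ↔ CM n M F w w' p q := by
  unfold Full CM MvI Mv
  have hdn : (∃ t : ℕ, t < M ∧ lks (dn n M F t) (-(M : ℤ) + t) p q) ↔
      ((lnk (per n F) p q ∧ -(M : ℤ) ≤ p.2 ∧ p.2 < 0) ∨
        (lnk (per n F) q p ∧ -(M : ℤ) ≤ q.2 ∧ q.2 < 0)) := by
    constructor
    · rintro ⟨t, ht, h⟩
      have e : -(M : ℤ) + t = (t : ℤ) - M := by ring
      rw [e] at h
      unfold lks dn at h
      rcases h with h | h
      · rw [lk_pst hn] at h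
        exact Or.inl ⟨h.2, by omega, by omega⟩
      · rw [lk_pst hn] at h
        exact Or.inr ⟨h.2, by omega, by omega⟩
    · rintro (⟨h, h1, h2⟩ | ⟨h, h1, h2⟩)
      · obtain ⟨t, ht⟩ := Int.eq_ofNat_of_zero_le (show 0 ≤ p.2 + M by omega)
        refine ⟨t, by omega, Or.inl ?_⟩
        have e : -(M : ℤ) + t = (t : ℤ) - M := by ring
        rw [e]
        unfold dn
        rw [lk_pst hn]
        exact ⟨by omega, h⟩
      · obtain ⟨t, ht⟩ := Int.eq_ofNat_of_zero_le (show 0 ≤ q.2 + M by omega)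
        refine ⟨t, by omega, Or.inr ?_⟩
        have e : -(M : ℤ) + t = (t : ℤ) - M := by ring
        rw [e]
        unfold dn
        rw [lk_pst hn]
        exact ⟨by omega, h⟩
  have hup : (∃ t : ℕ, t < M ∧ lks (up n M F t) (-(M : ℤ) + t) (mir p) (mir q)) ↔
      ((lnk (per n F) q p ∧ 0 ≤ q.2 ∧ q.2 < M) ∨
        (lnk (per n F) p q ∧ 0 ≤ p.2 ∧ p.2 < M)) := by
    constructor
    · rintro ⟨t, ht, h⟩
      unfold lks at h
      rcases h with h | h
      · rw [lk_up hn M F t _ ht rfl] at h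
        exact Or.inl ⟨h.2, by omega, by omega⟩
      · rw [lk_up hn M F t _ ht rfl] at h
        exact Or.inr ⟨h.2, by omega, by omega⟩
    · rintro (⟨h, h1, h2⟩ | ⟨h, h1, h2⟩)
      · obtain ⟨t, ht⟩ := Int.eq_ofNat_of_zero_le (show 0 ≤ (M : ℤ) - 1 - q.2 by omega)
        refine ⟨t, by omega, Or.inl ?_⟩
        rw [lk_up hn M F t _ (by omega) rfl]
        exact ⟨by omega, h⟩
      · obtain ⟨t, ht⟩ := Int.eq_ofNat_of_zero_le (show 0 ≤ (M : ℤ) - 1 - p.2 by omega)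
        refine ⟨t, by omega, Or.inr ?_⟩
        rw [lk_up hn M F t _ (by omega) rfl]
        exact ⟨by omega, h⟩
  rw [hdn, hup]
  constructor
  · rintro (h | h | h | h)
    · exact Or.inl h
    · refine Or.inr (Or.inr ?_)
      rcases h with ⟨h, h1, h2⟩ | ⟨h, h1, h2⟩
      · have := h.1
        exact ⟨Or.inl h, by omega, by omega⟩
      · have := h.1
        exact ⟨Or.inr h, by omega, by omega⟩
    · exact Or.inr (Or.inl h)
    · refine Or.inr (Or.inr ?_)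
      rcases h with ⟨h, h1, h2⟩ | ⟨h, h1, h2⟩
      · have := h.1
        exact ⟨Or.inr h, by omega, by omega⟩
      · have := h.1
        exact ⟨Or.inl h, by omega, by omega⟩
  · rintro (h | h | ⟨h, h1, h2⟩)
    · exact Or.inl h
    · exact Or.inr (Or.inr (Or.inl h))
    · rcases h with h | h
      · have h3 := h.1
        by_cases h4 : p.2 < 0
        · exact Or.inr (Or.inl (Or.inl ⟨h, by omega, h4⟩))
        · exact Or.inr (Or.inr (Or.inr (Or.inr ⟨h, by omega, by omega⟩)))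
      · have h3 := h.1
        by_cases h4 : q.2 < 0
        · exact Or.inr (Or.inl (Or.inr ⟨h, by omega, h4⟩))
        · exact Or.inr (Or.inr (Or.inr (Or.inl ⟨h, by omega, by omega⟩)))

theorem f_chain {f : List Bool → List Bool → ℕ} (hf : FSpec f) {n : ℕ} (hn : 0 < n) (M : ℕ)
    (F : Finset Edg) (σ τ : Wd (2 * n - 1 + 1)) (K : ℕ) :
    Ch (CM n M F σ.1 τ.1) (StI (-M) M) K (0, 0) (2 * n, 0) ↔
      2 * f (rows (2 * n - 1) (dn n M F) M σ).1 (rows (2 * n - 1) (up n M F) M τ).1 ≤ K := by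
  have h : CM n M F σ.1 τ.1 = Full (dn n M F) (up n M F) M M σ.1 τ.1 := by
    funext p q
    exact propext (full_CM hn M F σ.1 τ.1 p q).symm
  rw [h]
  exact Pool.Agent.H863R2.Nest.f_full hf hn (dn n M F) (up n M F) M M σ τ K

namespace FullLAux

theorem edz_shift {n : ℕ} (hn : 0 < n) (F : Finset Edg) (j d : ℤ) :
    edz (j + 2 * n) d ∈ per n F ↔ edz j d ∈ per n F := by
  show red n (edz (j + 2 * n) d) ∈ F ↔ red n (edz j d) ∈ F
  rw [red_edz, red_edz]
  have h : (j + 2 * n) / (2 * n) = j / (2 * n) + 1 := by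
    rw [show j + 2 * (n : ℤ) = j + 1 * (2 * n) by ring, Int.add_mul_ediv_right _ _ (by omega)]
  rw [h]
  have h2 : j + 2 * (n : ℤ) - 2 * n * (j / (2 * n) + 1) = j - 2 * n * (j / (2 * n)) := by ring
  rw [h2]

theorem lnk_shift {n : ℕ} (hn : 0 < n) (F : Finset Edg) (p q : ℤ × ℤ) :
    lnk (per n F) (p.1 + 2 * n, p.2) (q.1 + 2 * n, q.2) ↔ lnk (per n F) p q := by
  unfold lnk
  simp only
  rw [edz_shift hn, edz_shift hn]
  have h1 : (p.1 + 2 * (n : ℤ) + p.2) % 2 = (p.1 + p.2) % 2 := by omega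
  have h2 : (q.1 + 2 * (n : ℤ) + p.2) % 2 = (q.1 + p.2) % 2 := by omega
  have h3 : q.1 + 2 * (n : ℤ) = p.1 + 2 * n + 1 ↔ q.1 = p.1 + 1 := by omega
  have h4 : p.1 + 2 * (n : ℤ) = q.1 + 2 * n + 1 ↔ p.1 = q.1 + 1 := by omega
  rw [h1, h2, h3, h4]

end FullLAux

theorem Mv_shift {n : ℕ} (hn : 0 < n) (F : Finset Edg) (p q : ℤ × ℤ) :
    Mv (per n F) (p.1 + 2 * n, p.2) (q.1 + 2 * n, q.2) ↔ Mv (per n F) p q := by
  unfold Mv
  rw [FullLAux.lnk_shift hn F p q, FullLAux.lnk_shift hn F q p]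

end Pool.Agent.H863R2.NL
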