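import Pool.Agent.H863R2.NL.Defs

/-! # Last exit; closed edges cost two colour changes -/

namespace Pool.Agent.H863R2.NL
open H974 H906.Cyl Finset
open Pool.Agent.H863R2.Nest (Ch St StI nb)

theorem last_exit {G : Set Edg} {W : Vtx → Prop} {u v : Vtx} (h : Reach G u v) (hu : W u)
    (hv : ¬ W v) : ∃ e ∈ G, ∃ w w' : Vtx,
      ((src e = w ∧ tgt e = w') ∨ (src e = w' ∧ tgt e = w)) ∧ W w ∧ ¬ W w' ∧
      Reach (G ∩ {e | ¬ W (src e) ∧ ¬ W (tgt e)}) w' v := by
  have key : ∀ u, Reach G u v →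
      (∃ e ∈ G, ∃ w w' : Vtx,
        ((src e = w ∧ tgt e = w') ∨ (src e = w' ∧ tgt e = w)) ∧ W w ∧ ¬ W w' ∧
        Reach (G ∩ {e | ¬ W (src e) ∧ ¬ W (tgt e)}) w' v) ∨
      (¬ W u ∧ Reach (G ∩ {e | ¬ W (src e) ∧ ¬ W (tgt e)}) u v) := by
    intro u hu
    induction hu using Relation.ReflTransGen.head_induction_on with
    | refl => exact Or.inr ⟨hv, Reach.refl _ _⟩
    | @head a b hab _ ih =>
      rcases ih with h1 | ⟨h1, h2⟩
      · exact Or.inl h1
      · obtain ⟨e, he, hc⟩ := hab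
        by_cases ha : W a
        · exact Or.inl ⟨e, he, a, b, hc.imp id id, ha, h1, h2⟩
        · right
          refine ⟨ha, Reach.trans (Adj.reach ⟨e, ⟨he, ?_⟩, hc⟩) h2⟩
          rcases hc with ⟨h3, h4⟩ | ⟨h3, h4⟩
          · show ¬ W (src e) ∧ ¬ W (tgt e)
            rw [h3, h4]; exact ⟨ha, h1⟩
          · show ¬ W (src e) ∧ ¬ W (tgt e)
            rw [h3, h4]; exact ⟨h1, ha⟩
  rcases key u h with h1 | ⟨h1, -⟩
  · exact h1
  · exact absurd hu h1

namespace OpnAux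

theorem fc_src (e : Edg) : (dco e + (e.1 + e.2.1)) % 2 = 0 ∧ fc (src e) = (e.1 + e.2.1, dco e) ∧
      fc (tgt e) = (e.1 + e.2.1 + 1, dco e + 1) ∨
    (dco e + (e.1 + e.2.1)) % 2 = 1 ∧ fc (src e) = (e.1 + e.2.1, dco e + 1) ∧
      fc (tgt e) = (e.1 + e.2.1 + 1, dco e) := by
  obtain ⟨x, y, _ | _⟩ := e
  · right
    simp only [dco, fc, src_mk, tgt_false, Bool.false_eq_true, if_false, Prod.mk.injEq]
    refine ⟨by omega, ⟨trivial, by ring⟩, by ring, by ring⟩
  · left
    simp only [dco, fc, src_mk, tgt_true, if_true, Prod.mk.injEq]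
    refine ⟨by omega, trivial, by ring, by ring⟩

theorem free_of_mem {G : Set Edg} {s s' : ℤ} {e : Edg} (he : e ∈ G) (h1 : s ≤ dco e)
    (h2 : dco e < s') : MvI G s s' (fc (src e)) (fc (tgt e)) := by
  have hed := edz_of e
  rcases fc_src e with ⟨h3, h4, h5⟩ | ⟨h3, h4, h5⟩
  · rw [h4, h5]
    refine ⟨Or.inl ⟨rfl, Or.inl ⟨rfl, ?_⟩⟩, ⟨by simpa using h1, by simp only; omega⟩,
      by simp only; omega, by simp only; omega⟩
    simp only
    rw [if_pos (by omega), hed]
    exact he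
  · rw [h4, h5]
    refine ⟨Or.inr ⟨rfl, Or.inr ⟨rfl, ?_⟩⟩, ⟨by simp only; omega, by simp only; omega⟩,
      by simp only; omega, by simp only; omega⟩
    simp only
    rw [if_neg (by omega), hed]
    exact he

theorem MvI_symm {G : Set Edg} {s s' : ℤ} {p q : ℤ × ℤ} (h : MvI G s s' p q) : MvI G s s' q p :=
  ⟨h.1.symm, h.2.2, h.2.1⟩

theorem St_symm {p q : ℤ × ℤ} (h : St p q) : St q p := by
  rcases h with ⟨h1, h2⟩ | ⟨h1, h2⟩
  · exact Or.inl ⟨h1.symm, h2.symm⟩
  · exact Or.inr ⟨h1.symm, h2.symm⟩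

theorem StI_symm {s s' : ℤ} {p q : ℤ × ℤ} (h : StI s s' p q) : StI s s' q p :=
  ⟨h.2.1, h.1, St_symm h.2.2⟩

/-- crossing any edge costs two colour changes -/
theorem two_steps {G : Set Edg} {s s' : ℤ} (e : Edg) (h1 : s ≤ dco e) (h2 : dco e < s') :
    Ch (MvI G s s') (StI s s') 2 (fc (src e)) (fc (tgt e)) := by
  rcases fc_src e with ⟨h3, h4, h5⟩ | ⟨h3, h4, h5⟩
  · rw [h4, h5]
    refine Ch.step (b := (e.1 + e.2.1 + 1, dco e)) (Ch.of_step ?_) ?_
    · exact ⟨⟨by simpa using h1, by simp only; omega⟩, ⟨by simpa using h1, by simp only; omega⟩,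
        Or.inl ⟨rfl, Or.inl rfl⟩⟩
    · exact ⟨⟨by simpa using h1, by simp only; omega⟩, ⟨by simp only; omega, by simp only; omega⟩,
        Or.inr ⟨rfl, Or.inl rfl⟩⟩
  · rw [h4, h5]
    refine Ch.step (b := (e.1 + e.2.1, dco e)) (Ch.of_step ?_) ?_
    · exact ⟨⟨by simp only; omega, by simp only; omega⟩, ⟨by simpa using h1, by simp only; omega⟩,
        Or.inr ⟨rfl, Or.inr rfl⟩⟩
    · exact ⟨⟨by simpa using h1, by simp only; omega⟩, ⟨by simpa using h1, by simp only; omega⟩,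
        Or.inl ⟨rfl, Or.inl rfl⟩⟩

theorem free_reach {G : Set Edg} {s s' : ℤ} {u v : Vtx}
    (h : Reach (G ∩ {e | s ≤ dco e ∧ dco e < s'}) u v) :
    Ch (MvI G s s') (StI s s') 0 (fc u) (fc v) := by
  induction h with
  | refl => exact Ch.refl _ _
  | tail _ hs ih =>
    obtain ⟨e, ⟨he, h1, h2⟩, hc⟩ := hs
    rcases hc with ⟨h3, h4⟩ | ⟨h3, h4⟩
    · rw [← h3] at ih; rw [← h4]
      exact Ch.rel ih (free_of_mem he h1 h2)
    · rw [← h4] at ih; rw [← h3]
      exact Ch.rel ih (MvI_symm (free_of_mem he h1 h2))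

end OpnAux
open OpnAux

/-- each closed edge costs two colour changes -/
theorem reach_chain {G : Set Edg} {s s' : ℤ} (X : Finset Edg) {u v : Vtx}
    (h : Reach ((G ∪ ↑X) ∩ {e | s ≤ dco e ∧ dco e < s'}) u v) :
    Ch (MvI G s s') (StI s s') (2 * X.card) (fc u) (fc v) := by
  induction hn : X.card generalizing X u v with
  | zero =>
    have hX : X = ∅ := Finset.card_eq_zero.1 hn
    subst hX
    rw [Finset.coe_empty, Set.union_empty] at h
    exact free_reach h
  | succ n ih =>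
    set Q : Set Edg := {e | s ≤ dco e ∧ dco e < s'} with hQ
    by_cases hv : Reach (G ∩ Q) u v
    · exact (free_reach hv).mono (Nat.zero_le _)
    · obtain ⟨e, ⟨heU, heQ⟩, w, w', hc, hw, hw', hr⟩ :=
        last_exit (W := fun w => Reach (G ∩ Q) u w) h (Reach.refl _ _) hv
      have heG : e ∉ G := by
        intro he
        apply hw'
        rcases hc with ⟨h3, h4⟩ | ⟨h3, h4⟩
        · exact hw.trans (Adj.reach ⟨e, ⟨he, heQ⟩, Or.inl ⟨h3, h4⟩⟩)
        · exact hw.trans (Adj.reach ⟨e, ⟨he, heQ⟩, Or.inr ⟨h3, h4⟩⟩)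
      have heX : e ∈ X := by
        rcases heU with h1 | h1
        · exact absurd h1 heG
        · exact Finset.mem_coe.1 h1
      have hcard : (X.erase e).card = n := by
        rw [Finset.card_erase_of_mem heX, hn]; rfl
      have hr' : Reach ((G ∪ ↑(X.erase e)) ∩ Q) w' v := by
        apply hr.mono
        rintro e' ⟨⟨h1, h2⟩, h3, h4⟩
        refine ⟨?_, h2⟩
        rcases h1 with h1 | h1
        · exact Or.inl h1
        · right
          rw [Finset.coe_erase]
          refine ⟨h1, ?_⟩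
          rintro rfl
          rcases hc with ⟨h5, h6⟩ | ⟨h5, h6⟩
          · exact h3 (by rw [h5]; exact hw)
          · exact h4 (by rw [h6]; exact hw)
      have c1 := free_reach hw
      have c3 := ih (X.erase e) hr' hcard
      have c2 : Ch (MvI G s s') (StI s s') 2 (fc w) (fc w') := by
        rcases hc with ⟨h5, h6⟩ | ⟨h5, h6⟩
        · rw [← h5, ← h6]; exact two_steps e heQ.1 heQ.2
        · rw [← h5, ← h6]
          exact (two_steps e heQ.1 heQ.2).symm (fun _ _ => MvI_symm) (fun _ _ => StI_symm)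
      have c := (c1.trans c2).trans c3
      rwa [show 0 + 2 + 2 * n = 2 * (n + 1) by ring] at c

end Pool.Agent.H863R2.NL
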