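import Pool.Agent.H863R2.NL.Defs

/-!
# A chain to the outside of the circuit comes within one colour change of its cluster
-/

namespace Pool.Agent.H863R2.NL
open H974 H906.Cyl Finset
open Pool.Agent.H863R2.Nest (Ch St StI at_ mir Full nb)

namespace TouchAux

/-- `v` is a corner of the face `q` (or the vertex of the face `q`) -/
def Cor (q : ℤ × ℤ) (v : Vtx) : Prop :=
  (q.1 = v.1 + v.2 ∧ q.2 = v.1 - v.2) ∨
  ((q.1 = v.1 + v.2 + 1 ∨ q.1 = v.1 + v.2 - 1) ∧ q.2 = v.1 - v.2) ∨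
  (q.1 = v.1 + v.2 ∧ (q.2 = v.1 - v.2 + 1 ∨ q.2 = v.1 - v.2 - 1))

/-- the edges none of whose endpoints is in `V` -/
def HH (V : Vtx → Prop) : Set Edg := {e | ¬ V (src e) ∧ ¬ V (tgt e)}

theorem hadj {V : Vtx → Prop} {x y x' y' : ℤ} (h : ¬ V (x, y)) (h' : ¬ V (x', y'))
    (hn : (y = y' ∧ (x' = x ∨ x' = x + 1 ∨ x = x' + 1)) ∨
      (x = x' ∧ (y' = y ∨ y' = y + 1 ∨ y = y' + 1))) : Reach (HH V) (x, y) (x', y') := by
  rcases hn with ⟨rfl, rfl | rfl | rfl⟩ | ⟨rfl, rfl | rfl | rfl⟩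
  · exact Reach.refl _ _
  · exact Adj.reach ⟨(x, y, true), ⟨h, h'⟩, Or.inl ⟨rfl, rfl⟩⟩
  · exact Adj.reach ⟨(x', y, true), ⟨h', h⟩, Or.inr ⟨rfl, rfl⟩⟩
  · exact Reach.refl _ _
  · exact Adj.reach ⟨(x, y, false), ⟨h, h'⟩, Or.inl ⟨rfl, rfl⟩⟩
  · exact Adj.reach ⟨(x, y', false), ⟨h', h⟩, Or.inr ⟨rfl, rfl⟩⟩

/-- the corners of a face which is not touched are connected outside `V` -/
theorem hcor {V : Vtx → Prop} {q : ℤ × ℤ} (hq : ∀ v, Cor q v → ¬ V v) {v v' : Vtx}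
    (h : Cor q v) (h' : Cor q v') : Reach (HH V) v v' := by
  obtain ⟨x, y⟩ := v
  obtain ⟨x', y'⟩ := v'
  have h1 : Cor q (x', y) := by
    unfold Cor at h h' ⊢
    simp only at h h' ⊢
    omega
  refine (hadj (hq _ h) (hq _ h1) (Or.inl ⟨rfl, ?_⟩)).trans
    (hadj (hq _ h1) (hq _ h') (Or.inr ⟨rfl, ?_⟩))
  · unfold Cor at h h'
    simp only at h h'
    omega
  · unfold Cor at h h'
    simp only at h h'
    omega

/-- the face `q` is not touched and its corners are connected with the origin outside `V` -/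
def NT (V : Vtx → Prop) (q : ℤ × ℤ) : Prop :=
  ∀ v, Cor q v → ¬ V v ∧ Reach (HH V) (0, 0) v

theorem nt_cor {V : Vtx → Prop} {q q' : ℤ × ℤ} (h : NT V q) (hq : ∀ v, Cor q' v → ¬ V v)
    {v : Vtx} (h1 : Cor q v) (h2 : Cor q' v) : NT V q' := fun v' hv' =>
  ⟨hq v' hv', (h v h1).2.trans (hcor hq h2 hv')⟩

/-- neighbouring faces: steps and opposite faces of a plaquette -/
theorem nt_move {V : Vtx → Prop} {q q' : ℤ × ℤ} (h : NT V q) (hq : ∀ v, Cor q' v → ¬ V v)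
    (hm : St q q' ∨ (nb q.1 q'.1 ∧ nb q.2 q'.2)) : NT V q' := by
  obtain ⟨a, s⟩ := q
  obtain ⟨a', s'⟩ := q'
  have hdec : (∃ v, Cor (a, s) v ∧ Cor (a', s') v) ∨
      (∃ x y x' y', Cor (a, s) (x, y) ∧ Cor (a', s') (x', y') ∧
        ((y = y' ∧ (x' = x ∨ x' = x + 1 ∨ x = x' + 1)) ∨
          (x = x' ∧ (y' = y ∨ y' = y + 1 ∨ y = y' + 1)))) := by
    rcases hm with hm | ⟨h1, h2⟩
    · left
      unfold St nb at hm
      simp only at hm
      by_cases hp : (a + s) % 2 = 0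
      · refine ⟨((a + s) / 2, (a - s) / 2), ?_, ?_⟩ <;> unfold Cor <;> simp only <;> omega
      · refine ⟨((a' + s') / 2, (a' - s') / 2), ?_, ?_⟩ <;> unfold Cor <;> simp only <;> omega
    · unfold nb at h1 h2
      simp only at h1 h2
      by_cases hp : (a + s) % 2 = 0
      · right
        refine ⟨(a + s) / 2, (a - s) / 2, (a' + s') / 2, (a' - s') / 2, ?_, ?_, ?_⟩
        · unfold Cor; simp only; omega
        · unfold Cor; simp only; omega
        · omega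
      · left
        refine ⟨((a' + s) / 2, (a' - s) / 2), ?_, ?_⟩ <;> unfold Cor <;> simp only <;> omega
  rcases hdec with ⟨v, h1, h2⟩ | ⟨x, y, x', y', h1, h2, h3⟩
  · exact nt_cor h hq h1 h2
  · intro v hv
    refine ⟨hq v hv, ?_⟩
    exact ((h _ h1).2.trans (hadj (h _ h1).1 (hq _ h2) h3)).trans (hcor hq h2 hv)

theorem mv_nb {G : Set Edg} {p q : ℤ × ℤ} (h : Mv G p q) : nb p.1 q.1 ∧ nb p.2 q.2 := by
  unfold Mv lnk at h
  unfold nb
  rcases h with ⟨h1, h2⟩ | ⟨h1, h2⟩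
  · rcases h2 with ⟨h2, _⟩ | ⟨h2, _⟩
    · exact ⟨Or.inl h2, Or.inl h1⟩
    · exact ⟨Or.inr h2, Or.inl h1⟩
  · rcases h2 with ⟨h2, _⟩ | ⟨h2, _⟩
    · exact ⟨Or.inr h2, Or.inr h1⟩
    · exact ⟨Or.inl h2, Or.inr h1⟩

/-- the result of walking along the chain -/
theorem walk {V : Vtx → Prop} {G : Set Edg} {R : ℕ} (hR : 0 < R) (h0 : ¬ V (0, 0)) {K : ℕ}
    {a q : ℤ × ℤ} (ha : a = (0, 0)) (h : Ch (Mv G) St K a q) :
    (∃ w : Vtx, V w ∧ Ch (MvI G (-(2 * R + 2)) (2 * R + 2)) (StI (-(2 * R + 2)) (2 * R + 2)) (K + 1)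
        (0, 0) (fc w)) ∨
    (∃ q', 2 * (R : ℤ) ≤ nm q' ∧ NT V q') ∨
    (Ch (MvI G (-(2 * R + 2)) (2 * R + 2)) (StI (-(2 * R + 2)) (2 * R + 2)) K (0, 0) q ∧
      nm q < 2 * R ∧ NT V q) := by
  have key : ∀ {K K' : ℕ} {q q' : ℤ × ℤ},
      Ch (MvI G (-(2 * R + 2)) (2 * R + 2)) (StI (-(2 * R + 2)) (2 * R + 2)) K (0, 0) q →
      nm q < 2 * R → NT V q → (St q q' ∨ (nb q.1 q'.1 ∧ nb q.2 q'.2)) →
      (Ch (MvI G (-(2 * R + 2)) (2 * R + 2)) (StI (-(2 * R + 2)) (2 * R + 2)) K' (0, 0) q') →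
      (∃ w : Vtx, V w ∧ Ch (MvI G (-(2 * R + 2)) (2 * R + 2)) (StI (-(2 * R + 2)) (2 * R + 2))
        (K' + 1) (0, 0) (fc w)) ∨
      (∃ q', 2 * (R : ℤ) ≤ nm q' ∧ NT V q') ∨
      (Ch (MvI G (-(2 * R + 2)) (2 * R + 2)) (StI (-(2 * R + 2)) (2 * R + 2)) K' (0, 0) q' ∧
        nm q' < 2 * R ∧ NT V q') := by
    intro K K' q q' _ hn hnt hm hch
    by_cases ht : ∃ v, Cor q' v ∧ V v
    · obtain ⟨v, hv, hV⟩ := ht
      left
      refine ⟨v, hV, ?_⟩
      by_cases hfc : fc v = q'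
      · rw [hfc]; exact hch.mono (Nat.le_succ _)
      · refine Ch.step hch ?_
        have h1 := abs_nonneg q.1
        have h2 := abs_le.1 (le_refl |q.2|)
        unfold nm at hn
        unfold StI St nb
        unfold St nb at hm
        unfold Cor at hv
        unfold fc at hfc ⊢
        have h3 : ¬ (v.1 + v.2 = q'.1 ∧ v.1 - v.2 = q'.2) := by
          intro h; exact hfc (Prod.ext h.1 h.2)
        simp only
        omega
    · right
      have hq : ∀ v, Cor q' v → ¬ V v := fun v hv hV => ht ⟨v, hv, hV⟩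
      have hnt' := nt_move hnt hq hm
      by_cases hn' : 2 * (R : ℤ) ≤ nm q'
      · exact Or.inl ⟨q', hn', hnt'⟩
      · exact Or.inr ⟨hch, not_le.1 hn', hnt'⟩
  induction h with
  | refl k a =>
    subst ha
    right; right
    refine ⟨Ch.refl _ _, ?_, ?_⟩
    · unfold nm; simp; omega
    · intro v hv
      have : v = (0, 0) := by
        unfold Cor at hv
        simp only at hv
        obtain ⟨x, y⟩ := v
        simp only at hv
        simp only [Prod.mk.injEq]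
        omega
      rw [this]
      exact ⟨h0, Reach.refl _ _⟩
  | @rel k a b c _ hr ih =>
    rcases ih ha with ih | ih | ⟨h1, h2, h3⟩
    · exact Or.inl ih
    · exact Or.inr (Or.inl ih)
    · refine key h1 h2 h3 (Or.inr (mv_nb hr)) (Ch.rel h1 ⟨hr, ?_⟩)
      have h4 := mv_nb hr
      unfold nb at h4
      unfold nm at h2
      have h5 := abs_nonneg b.1
      have h6 := abs_le.1 (le_refl |b.2|)
      omega
  | @step k a b c _ hs ih =>
    rcases ih ha with ⟨w, hw, hch⟩ | ih | ⟨h1, h2, h3⟩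
    · exact Or.inl ⟨w, hw, hch.mono (Nat.le_succ _)⟩
    · exact Or.inr (Or.inl ih)
    · refine key h1 h2 h3 (Or.inl hs) (Ch.step h1 ?_)
      unfold StI
      unfold nm at h2
      have h5 := abs_nonneg b.1
      have h6 := abs_le.1 (le_refl |b.2|)
      refine ⟨by omega, ?_, hs⟩
      unfold St nb at hs
      omega

end TouchAux

/-- a chain to the outside of the circuit comes within one colour change of its cluster -/
theorem touch {R1 : ℤ} {R : ℕ} (hR1 : 0 ≤ R1) (hR : 0 < R) {E : Finset Edg} {z : Vtx}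
    (hz : Zp R1 R E z) {G : Set Edg} {K : ℕ} (hD : D G R K) : ∃ w : Vtx,
      Reach (↑E ∩ ↑(RE (-R) R (-R) R)) z w ∧
      Ch (MvI G (-(2 * R + 2)) (2 * R + 2)) (StI (-(2 * R + 2)) (2 * R + 2)) (K + 1)
        (0, 0) (fc w) := by
  classical
  obtain ⟨q, hq, hch⟩ := hD
  set S : Finset Edg := RE (-(R : ℤ)) R (-(R : ℤ)) R with hS
  set V : Vtx → Prop := fun w => Reach ((↑E : Set Edg) ∩ ↑S) z w with hV
  by_cases h0 : V (0, 0)
  · exact ⟨(0, 0), h0, Ch.refl _ _⟩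
  have main : ¬ ∃ q', 2 * (R : ℤ) ≤ nm q' ∧ TouchAux.NT V q' := by
    rintro ⟨q', hq', hnt⟩
    have hc : TouchAux.Cor q' ((q'.1 + q'.2) / 2, (q'.1 - q'.2) / 2) := by
      unfold TouchAux.Cor; simp only; omega
    have hr := (hnt _ hc).2
    obtain ⟨w', hw1, hw2, hw3⟩ := first_exit (a := -(R : ℤ)) (b := R) (c := -(R : ℤ)) (d := R)
      (u := (0, 0)) (by unfold inR; simp only; omega) hr (by
        unfold nm at hq'
        simp only
        rcases abs_cases q'.1 with ⟨h1, _⟩ | ⟨h1, _⟩ <;> rcases abs_cases q'.2 with ⟨h2, _⟩ | ⟨h2, _⟩ <;>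
          rw [h1, h2] at hq' <;> omega)
    set F : Finset Edg := E ∪ S.filter (fun e => e ∈ TouchAux.HH V) with hF
    have h1 : Reach ((↑F : Set Edg) ∩ ↑S) (0, 0) w' := by
      refine hw3.mono ?_
      rintro e ⟨he1, he2⟩
      refine ⟨?_, he2⟩
      rw [hF]
      simp only [coe_union, coe_filter, Set.mem_union, mem_coe, Set.mem_setOf_eq]
      exact Or.inr ⟨he2, he1⟩
    have h2 := hz F (subset_union_left) (0, 0) w' (by unfold inR; simp only; omega) hw2 h1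
    have h3 : ∀ v, Reach ((↑F : Set Edg) ∩ ↑S) (0, 0) v → ¬ V v := by
      intro v hv
      induction hv with
      | refl => exact h0
      | @tail w w' _ hs ih =>
        obtain ⟨e, ⟨heF, heS⟩, hcase⟩ := hs
        rw [hF] at heF
        simp only [coe_union, coe_filter, Set.mem_union, mem_coe, Set.mem_setOf_eq] at heF
        rcases heF with heE | ⟨_, heH⟩
        · intro hw'
          apply ih
          have : Adj ((↑E : Set Edg) ∩ ↑S) w' w := ⟨e, ⟨heE, heS⟩, hcase.symm⟩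
          exact Relation.ReflTransGen.tail hw' this
        · rcases hcase with ⟨_, h5⟩ | ⟨h5, _⟩
          · rw [← h5]; exact heH.2
          · rw [← h5]; exact heH.1
    exact h3 z h2 (Reach.refl _ _)
  rcases TouchAux.walk hR h0 rfl hch with ⟨w, hw, hc⟩ | h | ⟨_, h2, h3⟩
  · exact ⟨w, hw, hc⟩
  · exact absurd h main
  · exact absurd hq (not_le.2 h2)

end Pool.Agent.H863R2.NL
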