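import Pool.Agent.H863R2.NL.Loc
import Pool.Agent.H863R2.NL.Touch
import Pool.Agent.H863R2.NL.CircZ
import Pool.Agent.H863R2.NL.Opn
import Pool.Agent.H863R2.NL.Conn
import Pool.Agent.H863R2.NL.FullL

namespace Pool.Agent.H863R2.NL
open H974 H906.Cyl Finset
open Pool.Agent.H863R2.Cyl (Wd Tc rows FSpec push)
open Pool.Agent.H863R2.Nest (Ch St StI at_ mir Full nb nb_symm)

namespace FleAux

theorem Mv_symm {G : Set Edg} {p q : ℤ × ℤ} (h : Mv G p q) : Mv G q p := h.symm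

theorem MvI_symm {G : Set Edg} {s s' : ℤ} (p q : ℤ × ℤ) (h : MvI G s s' p q) : MvI G s s' q p :=
  ⟨h.1.symm, h.2.2, h.2.1⟩

theorem St_symm {p q : ℤ × ℤ} (h : St p q) : St q p := by
  rcases h with ⟨h1, h2⟩ | ⟨h1, h2⟩
  · exact Or.inl ⟨h1.symm, nb_symm h2⟩
  · exact Or.inr ⟨h1.symm, nb_symm h2⟩

theorem StI_symm {s s' : ℤ} (p q : ℤ × ℤ) (h : StI s s' p q) : StI s s' q p :=
  ⟨h.2.1, h.1, St_symm h.2.2⟩

theorem MvI_mono {G : Set Edg} {s s' t t' : ℤ} (h1 : t ≤ s) (h2 : s' ≤ t') {p q : ℤ × ℤ}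
    (h : MvI G s s' p q) : MvI G t t' p q := by
  obtain ⟨a, ⟨b1, b2⟩, c1, c2⟩ := h
  exact ⟨a, ⟨h1.trans b1, b2.trans h2⟩, h1.trans c1, c2.trans h2⟩

theorem StI_mono {s s' t t' : ℤ} (h1 : t ≤ s) (h2 : s' ≤ t') {p q : ℤ × ℤ}
    (h : StI s s' p q) : StI t t' p q := by
  obtain ⟨⟨b1, b2⟩, ⟨c1, c2⟩, a⟩ := h
  exact ⟨⟨h1.trans b1, b2.trans h2⟩, ⟨h1.trans c1, c2.trans h2⟩, a⟩

theorem Ch_mono {G : Set Edg} {s s' t t' : ℤ} (h1 : t ≤ s) (h2 : s' ≤ t') {K : ℕ} {p q : ℤ × ℤ}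
    (h : Ch (MvI G s s') (StI s s') K p q) : Ch (MvI G t t') (StI t t') K p q :=
  h.map id (fun _ _ h => Ch.of_rel (MvI_mono h1 h2 h)) (fun _ _ h => Ch.of_step (StI_mono h1 h2 h))

theorem Ch_shift {n : ℕ} (hn : 0 < n) {F : Finset Edg} {t t' : ℤ} {K : ℕ} {p q : ℤ × ℤ}
    (h : Ch (MvI (per n F) t t') (StI t t') K p q) :
    Ch (MvI (per n F) t t') (StI t t') K (p.1 + 2 * n, p.2) (q.1 + 2 * n, q.2) := by
  refine h.map (fun p : ℤ × ℤ => ((p.1 + 2 * n, p.2) : ℤ × ℤ)) (fun p q h => Ch.of_rel ?_) (fun p q h => Ch.of_step ?_)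
  · exact ⟨(Mv_shift hn F p q).2 h.1, h.2⟩
  · obtain ⟨b, c, hs⟩ := h
    refine ⟨b, c, ?_⟩
    rcases hs with ⟨h1, h2⟩ | ⟨h1, h2⟩
    · left
      refine ⟨h1, ?_⟩
      rcases h2 with h2 | h2
      · left; show q.1 + 2 * (n : ℤ) = p.1 + 2 * n + 1; omega
      · right; show p.1 + 2 * (n : ℤ) = q.1 + 2 * n + 1; omega
    · right
      exact ⟨by show p.1 + 2 * (n : ℤ) = q.1 + 2 * n; omega, h2⟩

/-- translation of a connection by `(n, n)` -/
theorem reach_shift {n : ℕ} {A B : Set Edg}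
    (hAB : ∀ e ∈ A, ((e.1 + n, e.2.1 + n, e.2.2) : Edg) ∈ B) {u v : Vtx} (h : Reach A u v) :
    Reach B (u.1 + n, u.2 + n) (v.1 + n, v.2 + n) := by
  have h1 := (trl n n).reach h
  rw [trl_ψ, trl_ψ] at h1
  refine h1.mono ?_
  rintro _ ⟨e, he, rfl⟩
  exact hAB e he

theorem dco_shift (n : ℕ) (e : Edg) : dco (e.1 + n, e.2.1 + n, e.2.2) = dco e := by
  obtain ⟨x, y, _ | _⟩ := e <;> simp only [dco, if_true, Bool.false_eq_true, if_false] <;> ring

theorem aux {f : List Bool → List Bool → ℕ} (hf : FSpec f) {a k M n b : ℕ} (ha : 0 < a)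
    (hn : n = 10 * a) (hb : b = 2 * a)
    (hM : 20 * a ≤ M) {F : Finset Edg} (hG : Good n b k F)
    (σ τ : Wd (2 * n - 1 + 1)) :
    f (rows (2 * n - 1) (dn n M F) M σ).1
      (rows (2 * n - 1) (up n M F) M τ).1 ≤
        TT (per n F) (4 * a) + 1 + 10 * k := by
  obtain ⟨⟨⟨Xa, hXa, ka, La⟩, ⟨Xb, hXb, kb, Lb⟩⟩, ⟨⟨Xc, hXc, kc, Lc⟩, ⟨Xd, hXd, kd, Ld⟩⟩,
    ⟨⟨X5, hX5, k5, L5⟩, ⟨X6, hX6, k6, L6⟩⟩⟩ := hG
  have hn0 : 0 < n := by omega
  have hb0 : 0 < b := by omega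
  have hbn : 4 * b < n := by omega
  set B1 : Finset Edg := RE (-(2 * (b : ℤ))) (2 * b) (-(2 * (b : ℤ))) (2 * b) with hB1
  set X1 : Finset Edg := Xa ∪ Xb ∪ Xc ∪ Xd with hX1def
  -- everything is inside `B1`
  have sa : LRE (-(2 * (b : ℤ))) (2 * b) b (2 * b) ⊆ B1 :=
    LRE_subset_RE.trans (RE_subset le_rfl le_rfl (by omega) le_rfl)
  have sb : LRE (-(2 * (b : ℤ))) (2 * b) (-(2 * (b : ℤ))) (-(b : ℤ)) ⊆ B1 :=
    LRE_subset_RE.trans (RE_subset le_rfl le_rfl le_rfl (by omega))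
  have sc : TBE (b : ℤ) (2 * b) (-(2 * (b : ℤ))) (2 * b) ⊆ B1 :=
    TBE_subset_RE.trans (RE_subset (by omega) le_rfl le_rfl le_rfl)
  have sd : TBE (-(2 * (b : ℤ))) (-(b : ℤ)) (-(2 * (b : ℤ))) (2 * b) ⊆ B1 :=
    TBE_subset_RE.trans (RE_subset le_rfl (by omega) le_rfl le_rfl)
  have hX1 : X1 ⊆ B1 :=
    Finset.union_subset (Finset.union_subset (Finset.union_subset (hXa.trans sa) (hXb.trans sb))
      (hXc.trans sc)) (hXd.trans sd)
  have ta : Xa ⊆ X1 := Finset.subset_union_left.trans (Finset.subset_union_left.trans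
    Finset.subset_union_left)
  have tb : Xb ⊆ X1 := Finset.subset_union_right.trans (Finset.subset_union_left.trans
    Finset.subset_union_left)
  have tc : Xc ⊆ X1 := Finset.subset_union_right.trans Finset.subset_union_left
  have td : Xd ⊆ X1 := Finset.subset_union_right
  set E : Finset Edg := pf n B1 F ∪ X1 with hE
  have hcirc : Circ b (2 * b) E :=
    ⟨⟨La.mono (Finset.union_subset_union (pf_mono_left sa) ta),
      Lb.mono (Finset.union_subset_union (pf_mono_left sb) tb)⟩,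
      ⟨Lc.mono (Finset.union_subset_union (pf_mono_left sc) tc),
      Ld.mono (Finset.union_subset_union (pf_mono_left sd) td)⟩⟩
  obtain ⟨z, hz⟩ := circ_z (by omega : (0 : ℤ) ≤ (b : ℤ)) (by omega : (b : ℤ) < 2 * b) hcirc
  have hconn := conn (n := n) (b := b) hb0 hbn (F := F) (X1 := X1) (X5 := X5) (X6 := X6) (z := z)
    hX1 hX5 hX6 hz L5 L6
  -- the chain from the origin to the circuit
  have hR : ((4 * a : ℕ) : ℤ) = 2 * (b : ℤ) := by rw [hb]; push_cast; ring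
  have hz' : Zp (b : ℤ) ((4 * a : ℕ) : ℤ) E z := by rw [hR]; exact hz
  obtain ⟨w, hw, hch⟩ := touch (R1 := (b : ℤ)) (R := 4 * a) (by omega) (by omega) hz'
    (TT_le_iff.1 (le_refl (TT (per n F) (4 * a))))
  set K : ℕ := TT (per n F) (4 * a) with hK
  rw [hR] at hw
  -- the extra edges
  set sh : Edg → Edg := fun e => (e.1 + n, e.2.1 + n, e.2.2) with hsh
  set X : Finset Edg := X1 ∪ X5 ∪ X6 ∪ X1.image sh with hX
  have hcard : X.card ≤ 10 * k := by
    have c1 : X1.card ≤ 4 * k := by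
      show (Xa ∪ Xb ∪ Xc ∪ Xd).card ≤ 4 * k
      have h1 := Finset.card_union_le (Xa ∪ Xb ∪ Xc) Xd
      have h2 := Finset.card_union_le (Xa ∪ Xb) Xc
      have h3 := Finset.card_union_le Xa Xb
      omega
    have c2 : (X1.image sh).card ≤ X1.card := Finset.card_image_le
    have h1 := Finset.card_union_le (X1 ∪ X5 ∪ X6) (X1.image sh)
    have h2 := Finset.card_union_le (X1 ∪ X5) X6
    have h3 := Finset.card_union_le X1 X5
    show (X1 ∪ X5 ∪ X6 ∪ X1.image sh).card ≤ 10 * k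
    omega
  set W : Set Edg := (per n F ∪ ↑X) ∩ {e | -((n : ℤ) + 3 * b) ≤ dco e ∧ dco e < n + 3 * b} with hW
  have hzw : Reach W z w := by
    refine hw.mono ?_
    rintro e ⟨h1, h2⟩
    have h3 := RE_dco (Finset.mem_coe.1 h2)
    refine ⟨?_, ?_⟩
    · rcases Finset.mem_union.1 (Finset.mem_coe.1 h1) with h4 | h4
      · exact Or.inl (pf_per (Finset.mem_coe.2 h4))
      · right
        rw [hX]
        exact Finset.mem_coe.2 (Finset.mem_union_left _ (Finset.mem_union_left _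
          (Finset.mem_union_left _ h4)))
    · show -((n : ℤ) + 3 * b) ≤ dco e ∧ dco e < n + 3 * b
      omega
  have hzw' : Reach W (z.1 + n, z.2 + n) (w.1 + n, w.2 + n) := by
    refine reach_shift (A := ↑E ∩ ↑(RE (-(2 * (b : ℤ))) (2 * b) (-(2 * (b : ℤ))) (2 * b))) ?_ hw
    rintro e ⟨h1, h2⟩
    have h3 := RE_dco (Finset.mem_coe.1 h2)
    refine ⟨?_, ?_⟩
    · rcases Finset.mem_union.1 (Finset.mem_coe.1 h1) with h4 | h4
      · left
        have h5 := red_shift hn0 e 1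
        simp only [mul_one] at h5
        show red n _ ∈ F
        rw [h5]
        exact pf_per (Finset.mem_coe.2 h4)
      · right
        rw [hX]
        exact Finset.mem_coe.2 (Finset.mem_union_right _ (Finset.mem_image_of_mem sh h4))
    · show -((n : ℤ) + 3 * b) ≤ dco (e.1 + n, e.2.1 + n, e.2.2) ∧
        dco (e.1 + n, e.2.1 + n, e.2.2) < n + 3 * b
      rw [dco_shift]
      omega
  have hww : Reach W w (w.1 + n, w.2 + n) := hzw.symm.trans (hconn.trans hzw')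
  -- the three chains
  have c2 := reach_chain (G := per n F) (s := -((n : ℤ) + 3 * b)) (s' := n + 3 * b) X hww
  have c2' : Ch (MvI (per n F) (-M) M) (StI (-M) M) (2 * X.card) (fc w) (fc (w.1 + n, w.2 + n)) :=
    Ch_mono (by omega) (by omega) c2
  have c1 : Ch (MvI (per n F) (-M) M) (StI (-M) M) (K + 1) (0, 0) (fc w) :=
    Ch_mono (by push_cast; omega) (by push_cast; omega) hch
  have c3 := Ch_shift hn0 c1
  have c3' := c3.symm (fun p q => MvI_symm p q) (fun p q => StI_symm p q)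
  have e1 : fc (w.1 + n, w.2 + n) = ((fc w).1 + 2 * n, (fc w).2) := by
    unfold fc
    simp only [Prod.mk.injEq]
    constructor <;> ring
  rw [e1] at c2'
  have c4 := (c1.trans c2').trans c3'
  have e2 : (((0 : ℤ) + 2 * (n : ℤ)), (0 : ℤ)) = (2 * (n : ℤ), 0) := by rw [zero_add]
  have c5 : Ch (CM n M F σ.1 τ.1) (StI (-M) M) (K + 1 + 2 * X.card + (K + 1)) (0, 0) (2 * n, 0) := by
    have := c4.map (RY := CM n M F σ.1 τ.1) (SY := StI (-M) M) id
      (fun _ _ h => Ch.of_rel (Or.inr (Or.inr h))) (fun _ _ h => Ch.of_step h)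
    simpa using this
  have h6 := (f_chain hf hn0 M F σ τ _).1 c5
  omega

end FleAux

theorem f_le {f : List Bool → List Bool → ℕ} (hf : FSpec f) {a k M : ℕ} (ha : 0 < a)
    (hM : 20 * a ≤ M) {F : Finset Edg} (hG : Good (10 * a) (2 * a) k F)
    (σ τ : Wd (2 * (10 * a) - 1 + 1)) :
    f (rows (2 * (10 * a) - 1) (dn (10 * a) M F) M σ).1
      (rows (2 * (10 * a) - 1) (up (10 * a) M F) M τ).1 ≤
        TT (per (10 * a) F) (4 * a) + 1 + 10 * k :=
  FleAux.aux hf ha rfl rfl hM hG σ τ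

end Pool.Agent.H863R2.NL
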