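import Pool.Agent.H863R2.NL.Exit
import Pool.Agent.H863R2.NL.Loc
import Pool.Agent.H863R2.NL.FullL

/-!
Module Low (helper913): the number of colour changes up to the distance `k` is at most the number
of loops on the cylinder.
-/

namespace Pool.Agent.H863R2.NL
open H974 H906.Cyl Finset
open Pool.Agent.H863R2.Cyl (Wd Tc rows FSpec push Rw_equiv)
open Pool.Agent.H863R2.Nest (Ch St StI at_ mir Full nb)

namespace LowAux

theorem nm_nonneg (p : ℤ × ℤ) : 0 ≤ nm p := add_nonneg (abs_nonneg _) (abs_nonneg _)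

theorem le_nm (p : ℤ × ℤ) : |p.2| ≤ nm p := by
  unfold nm
  have := abs_nonneg p.1
  omega

theorem at_big {w : Pool.Agent.H988R2.Perc.Word} {M : ℕ} {p q : ℤ × ℤ} (h : at_ w (-M) p q) :
    (M : ℤ) ≤ |p.2| := by
  have h1 := h.1
  rw [h1, abs_neg]
  exact le_abs_self _

theorem at_big' {w : Pool.Agent.H988R2.Perc.Word} {M : ℕ} {p q : ℤ × ℤ}
    (h : at_ w (-M) (mir p) (mir q)) : (M : ℤ) ≤ |p.2| := by
  have h1 : -p.2 = -(M : ℤ) := h.1
  have h2 : p.2 = M := by omega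
  rw [h2]
  exact le_abs_self _

/-- a move of the cylinder which starts away from the boundary levels is a free move -/
theorem cm_mv {n M : ℕ} {F : Finset Edg} {w w' : List Bool} {p q : ℤ × ℤ}
    (h : CM n M F w w' p q) (hp : |p.2| < M) : Mv (per n F) p q := by
  rcases h with h | h | h
  · exact absurd (at_big h) (by omega)
  · exact absurd (at_big' h) (by omega)
  · exact h.1

theorem cm_symm {n M : ℕ} {F : Finset Edg} {w w' : List Bool} (p q : ℤ × ℤ)
    (h : CM n M F w w' p q) : CM n M F w w' q p := by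
  rcases h with h | h | h
  · exact Or.inl ⟨h.2.1, h.1, (Rw_equiv _).symm h.2.2⟩
  · exact Or.inr (Or.inl ⟨h.2.1, h.1, (Rw_equiv _).symm h.2.2⟩)
  · exact Or.inr (Or.inr ⟨h.1.symm, h.2.2, h.2.1⟩)

theorem sti_symm {s s' : ℤ} (p q : ℤ × ℤ) (h : StI s s' p q) : StI s s' q p := by
  obtain ⟨h1, h2, h3⟩ := h
  refine ⟨h2, h1, ?_⟩
  rcases h3 with h3 | h3
  · exact Or.inl ⟨h3.1.symm, h3.2.symm⟩
  · exact Or.inr ⟨h3.1.symm, h3.2.symm⟩

theorem mv_near {G : Set Edg} {p q : ℤ × ℤ} (h : Mv G p q) :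
    |q.1 - p.1| ≤ 1 ∧ |q.2 - p.2| ≤ 1 := by
  rw [abs_le, abs_le]
  rcases h with ⟨h1, h2⟩ | ⟨h1, h2⟩ <;> rcases h2 with h2 | h2 <;>
    refine ⟨⟨?_, ?_⟩, ⟨?_, ?_⟩⟩ <;> omega

theorem st_near {p q : ℤ × ℤ} (h : St p q) : |q.1 - p.1| ≤ 1 ∧ |q.2 - p.2| ≤ 1 := by
  rw [abs_le, abs_le]
  unfold St nb at h
  refine ⟨⟨?_, ?_⟩, ⟨?_, ?_⟩⟩ <;> omega

theorem nm_near {p q : ℤ × ℤ} (h : |q.1 - p.1| ≤ 1 ∧ |q.2 - p.2| ≤ 1) : nm q ≤ nm p + 2 := by
  unfold nm
  have h1 : |q.1| ≤ |p.1| + |q.1 - p.1| := by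
    have := abs_add_le p.1 (q.1 - p.1)
    rwa [add_sub_cancel] at this
  have h2 : |q.2| ≤ |p.2| + |q.2 - p.2| := by
    have := abs_add_le p.2 (q.2 - p.2)
    rwa [add_sub_cancel] at this
  omega

end LowAux

open LowAux in
theorem TT_le_f {f : List Bool → List Bool → ℕ} (hf : FSpec f) {n k M : ℕ} (hk : 2 * k < n)
    (hM : 2 * k ≤ M) (F : Finset Edg) (σ τ : Wd (2 * n - 1 + 1)) : TT (per n F) k ≤
      f (rows (2 * n - 1) (dn n M F) M σ).1 (rows (2 * n - 1) (up n M F) M τ).1 := by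
  rcases Nat.eq_zero_or_pos k with hk0 | hk0
  · subst hk0
    rw [TT_le_iff]
    exact ⟨(0, 0), by simp [nm], Ch.refl _ _⟩
  have hn : 0 < n := by omega
  have hkr : (0 : ℤ) < k := by exact_mod_cast hk0
  have hkn : 2 * (k : ℤ) < n := by exact_mod_cast hk
  have hMk : 2 * (k : ℤ) ≤ M := by exact_mod_cast hM
  have h := (f_chain hf hn M F σ τ _).2 le_rfl
  set K := f (rows (2 * n - 1) (dn n M F) M σ).1 (rows (2 * n - 1) (up n M F) M τ).1 with hKdef
  -- first exit from the box around the origin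
  obtain ⟨c', c, K1, K2, hc', hc, hmove, hK, hch1, hch2⟩ :=
    Ch_exit (fun p : ℤ × ℤ => nm p < 2 * (k : ℤ)) h (by simp [nm]; omega)
      (by simp only [nm, not_lt]; rw [abs_of_nonneg (by omega)]; simp; omega)
  simp only [not_lt] at hc
  have lev : ∀ p : ℤ × ℤ, nm p < 2 * (k : ℤ) → |p.2| < M := fun p hp => by
    have := le_nm p
    omega
  have hD1 : D (per n F) k K1 := by
    refine ⟨c, hc, ?_⟩
    refine Ch.map (fun p => p) ?_ ?_ hch1
    · intro a b hab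
      exact Ch.of_rel (cm_mv hab.1 (lev a hab.2))
    · intro a b hab
      exact Ch.of_step (k := 0) hab.1.2.2
  have hcnm : nm c ≤ 2 * k + 1 := by
    have hnear : |c.1 - c'.1| ≤ 1 ∧ |c.2 - c'.2| ≤ 1 := by
      rcases hmove with hm | hm
      · exact mv_near (cm_mv hm (lev c' hc'))
      · exact st_near hm.2.2
    have := nm_near hnear
    omega
  -- second part, reversed
  have hrev := Ch.symm cm_symm sti_symm hch2
  obtain ⟨d', d, K3, K4, hd', hd, -, hK', hch3, -⟩ :=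
    Ch_exit (fun p : ℤ × ℤ => nm (p.1 - 2 * n, p.2) < 2 * (k : ℤ)) hrev
      (by simp [nm]; omega)
      (by
        intro hB
        have h1 : |c.1 - 2 * (n : ℤ)| + |c.2| < 2 * (k : ℤ) := hB
        have h2 : |c.1| + |c.2| ≤ 2 * (k : ℤ) + 1 := hcnm
        have h3 : (2 * (n : ℤ)) ≤ |c.1| + |c.1 - 2 * (n : ℤ)| := by
          have e1 := le_abs_self c.1
          have e2 := neg_abs_le (c.1 - 2 * (n : ℤ))
          omega
        have h4 := abs_nonneg c.2
        omega)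
  simp only [not_lt] at hd
  have hD2 : D (per n F) k K3 := by
    refine ⟨(d.1 - 2 * n, d.2), hd, ?_⟩
    have hg : ((0, 0) : ℤ × ℤ) = ((2 * (n : ℤ), (0 : ℤ)).1 - 2 * n, (2 * (n : ℤ), (0 : ℤ)).2) := by
      simp
    rw [hg]
    refine Ch.map (fun p : ℤ × ℤ => (p.1 - 2 * n, p.2)) ?_ ?_ hch3
    · intro a b hab
      have h1 : |a.2| < M := lev (a.1 - 2 * n, a.2) hab.2
      have h2 := cm_mv hab.1 h1
      refine Ch.of_rel ?_
      rw [← Mv_shift hn F]
      simpa using h2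
    · intro a b hab
      refine Ch.of_step (k := 0) ?_
      have h3 := hab.1.2.2
      unfold St nb at h3 ⊢
      simp only
      omega
  have e1 := TT_le_iff.2 hD1
  have e2 := TT_le_iff.2 hD2
  omega

end Pool.Agent.H863R2.NL
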