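import Pool.Agent.H863R2.NL.Avg
import Pool.Agent.H863R2.NL.Low
import Pool.Agent.H863R2.NL.Fle
import Pool.Agent.H863R2.NL.Bad

/-! # Comparison of the two laws -/

namespace Pool.Agent.H863R2.NL
open H974 H906.Cyl Finset
open Pool.Agent.H863R2.Cyl (Wd Tc rows FSpec push)

namespace CmpAux

theorem avg_le {n : ℕ} {φ : Wd (2 * n - 1 + 1) → Wd (2 * n - 1 + 1) → ℝ} {c : ℝ}
    (h : ∀ σ τ, φ σ τ ≤ c) : ∑ σ, ∑ τ, mu n σ * mu n τ * φ σ τ ≤ c := by
  calc ∑ σ, ∑ τ, mu n σ * mu n τ * φ σ τ ≤ ∑ σ, ∑ τ, mu n σ * mu n τ * c := by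
        apply Finset.sum_le_sum; intro σ _
        apply Finset.sum_le_sum; intro τ _
        exact mul_le_mul_of_nonneg_left (h σ τ) (mul_nonneg (mu_nonneg n σ) (mu_nonneg n τ))
    _ = c := by
        simp only [← Finset.sum_mul, ← Finset.mul_sum, mu_sum, mul_one, one_mul]

theorem avg_ge {n : ℕ} {φ : Wd (2 * n - 1 + 1) → Wd (2 * n - 1 + 1) → ℝ} {c : ℝ}
    (h : ∀ σ τ, c ≤ φ σ τ) : c ≤ ∑ σ, ∑ τ, mu n σ * mu n τ * φ σ τ := by
  calc c = ∑ σ, ∑ τ, mu n σ * mu n τ * c := by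
        simp only [← Finset.sum_mul, ← Finset.mul_sum, mu_sum, mul_one, one_mul]
    _ ≤ ∑ σ, ∑ τ, mu n σ * mu n τ * φ σ τ := by
        apply Finset.sum_le_sum; intro σ _
        apply Finset.sum_le_sum; intro τ _
        exact mul_le_mul_of_nonneg_left (h σ τ) (mul_nonneg (mu_nonneg n σ) (mu_nonneg n τ))

end CmpAux
open CmpAux

theorem EN_le {n k : ℕ} (hk : 2 * k < n) {g : ℕ → ℝ} (hg : Antitone g) : EN n g ≤ ET k g := by
  rw [EN_avg (by omega) (2 * k) g, ← Ex_per hk le_rfl g]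
  apply Ex_mono ok
  intro F _
  exact CmpAux.avg_le (fun σ τ => hg (TT_le_f fN_spec hk le_rfl F σ τ))

theorem ET_le {n k : ℕ} (hk : 2 * k < n) {g : ℕ → ℝ} (hg : Monotone g) : ET k g ≤ EN n g := by
  rw [EN_avg (by omega) (2 * k) g, ← Ex_per hk le_rfl g]
  apply Ex_mono ok
  intro F _
  exact CmpAux.avg_ge (fun σ τ => hg (TT_le_f fN_spec hk le_rfl F σ τ))

theorem EN_ge {a : ℕ} (k : ℕ) (ha : 0 < a) {g : ℕ → ℝ} (hg : Antitone g) (h0 : ∀ m, 0 ≤ g m) :
    ET (4 * a) (fun m => g (m + 1 + 10 * k)) ≤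
      EN (10 * a) g +
        6 * (1 - (1/2 : ℝ) ^ 47) ^ (k + 1) * ET (2 * a - 1) (fun m => g (m + 1 + 10 * k)) := by
  have e1 := EN_avg (n := 10 * a) (by omega) (20 * a) g
  have e2 := Ex_per (n := 10 * a) (k := 4 * a) (M := 20 * a) (by omega) (by omega)
    (fun m => g (m + 1 + 10 * k))
  have e3 := Ex_per (n := 10 * a) (k := 2 * a - 1) (M := 20 * a) (by omega) (by omega)
    (fun m => g (m + 1 + 10 * k))
  have e4 := bad_le (a := a) (M := 20 * a) k ha le_rfl
    (fun F => g (TT (per (10 * a) F) (2 * a - 1) + 1 + 10 * k)) (fun F => h0 _)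
    (fun F hF => by
      show g _ = g _
      rw [TT_per_local (k := 2 * a - 1) hF])
  rw [← e2, e1, ← e3]
  refine le_trans ?_ (add_le_add_right e4 _)
  rw [← Ex_add]
  apply Ex_mono ok
  intro F hF
  by_cases hG : Good (10 * a) (2 * a) k F
  · have h1 : ind (¬ Good (10 * a) (2 * a) k F) = 0 := by
      unfold ind
      rw [if_neg (not_not.2 hG)]
    simp only [h1, mul_zero, add_zero]
    exact CmpAux.avg_ge (fun σ τ => hg (f_le fN_spec ha le_rfl hG σ τ))
  · have h1 : ind (¬ Good (10 * a) (2 * a) k F) = 1 := by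
      unfold ind
      rw [if_pos hG]
    simp only [h1, mul_one]
    have h2 : (0 : ℝ) ≤ ∑ σ, ∑ τ, mu (10 * a) σ * mu (10 * a) τ *
        g (fN (rows (2 * (10 * a) - 1) (dn (10 * a) (20 * a) F) (20 * a) σ).1
          (rows (2 * (10 * a) - 1) (up (10 * a) (20 * a) F) (20 * a) τ).1) :=
      CmpAux.avg_ge (fun σ τ => h0 _)
    have h3 : g (TT (per (10 * a) F) (4 * a) + 1 + 10 * k) ≤
        g (TT (per (10 * a) F) (2 * a - 1) + 1 + 10 * k) := by
      apply hg
      have := TT_mono (G := per (10 * a) F) (k := 2 * a - 1) (k' := 4 * a) (by omega)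
      omega
    linarith

theorem EN_mean {a : ℕ} (ha : 0 < a) :
    EN (10 * a) (fun m => (m : ℝ)) ≤ ET (4 * a) (fun m => (m : ℝ)) + (1 + 60 * 2 ^ 47) := by
  set b : ℕ := 2 * a with hb
  set n : ℕ := 10 * a with hn
  set N : ℕ := (LRE (-(2 * b)) (2 * b) b (2 * b)).card +
      (LRE (-(2 * b)) (2 * b) (-(2 * b)) (-b)).card +
      (TBE b (2 * b) (-(2 * b)) (2 * b)).card + (TBE (-(2 * b)) (-b) (-(2 * b)) (2 * b)).card +
      (LRE b (n + 2 * b) (-b) b).card + (TBE (n - b) (n + b) (-(2 * b)) (n - b)).card with hN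
  have key : ∀ F, F ⊆ CE n (20 * a) →
      ∑ σ, ∑ τ, mu n σ * mu n τ * ((fN (rows (2 * n - 1) (dn n (20 * a) F) (20 * a) σ).1
        (rows (2 * n - 1) (up n (20 * a) F) (20 * a) τ).1 : ℕ) : ℝ) ≤
      ((TT (per n F) (4 * a) : ℕ) : ℝ) + 1 +
        10 * ∑ j ∈ Finset.range N, 1 * ind (¬ Good n b j F) := by
    intro F hF
    have hex : ∃ k, Good n b k F := ⟨N, good_top (by omega) (by omega) F le_rfl⟩
    classical
    set k0 := Nat.find hex with hk0
    have hk1 : Good n b k0 F := Nat.find_spec hex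
    have hk2 : k0 ≤ N := Nat.find_min' hex (good_top (by omega) (by omega) F le_rfl)
    have hs : ∑ j ∈ Finset.range N, 1 * ind (¬ Good n b j F) = k0 := by
      have e1 : ∑ j ∈ Finset.range N, 1 * ind (¬ Good n b j F) =
          ∑ j ∈ Finset.range N, (if j < k0 then (1 : ℝ) else 0) := by
        apply Finset.sum_congr rfl
        intro j _
        unfold ind
        by_cases hj : j < k0
        · rw [if_pos (Nat.find_min hex hj), if_pos hj, one_mul]
        · rw [if_neg (not_not.2 (good_mono (not_lt.1 hj) hk1)), if_neg hj, one_mul]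
      rw [e1, Finset.sum_ite]
      have : (Finset.range N).filter (fun j => j < k0) = Finset.range k0 := by
        ext j
        simp only [Finset.mem_filter, Finset.mem_range]
        omega
      rw [this]
      simp
    rw [hs]
    apply CmpAux.avg_le
    intro σ τ
    have h1 := f_le fN_spec ha (le_refl (20 * a)) hk1 σ τ
    have h2 : ((fN (rows (2 * n - 1) (dn n (20 * a) F) (20 * a) σ).1
        (rows (2 * n - 1) (up n (20 * a) F) (20 * a) τ).1 : ℕ) : ℝ) ≤
        ((TT (per (10 * a) F) (4 * a) + 1 + 10 * k0 : ℕ) : ℝ) := by exact_mod_cast h1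
    push_cast at h2
    linarith
  have e1 := EN_avg (n := n) (by omega) (20 * a) (fun m => (m : ℝ))
  have e2 := Ex_per (n := n) (k := 4 * a) (M := 20 * a) (by omega) (by omega)
    (fun m => (m : ℝ))
  have e3 : ∀ j, Ex (fun _ => (1/2 : ℝ)) (CE n (20 * a)) (fun F => 1 * ind (¬ Good n b j F)) ≤
      6 * (1 - (1/2 : ℝ) ^ 47) ^ (j + 1) := by
    intro j
    have := bad_le (a := a) (M := 20 * a) j ha le_rfl (fun _ => 1) (fun _ => zero_le_one)
      (fun _ _ => rfl)
    rw [Ex_const, mul_one] at this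
    exact this
  have e4 : ∑ j ∈ Finset.range N, (6 * (1 - (1/2 : ℝ) ^ 47) ^ (j + 1)) ≤ 6 * 2 ^ 47 := by
    set r : ℝ := 1 - (1/2 : ℝ) ^ 47 with hr
    have hr0 : 0 ≤ r := by rw [hr]; norm_num
    have hr1 : r < 1 := by rw [hr]; norm_num
    have h5 : ∑ j ∈ Finset.range N, r ^ j ≤ (1 - r)⁻¹ := by
      rw [← tsum_geometric_of_lt_one hr0 hr1]
      exact (summable_geometric_of_lt_one hr0 hr1).sum_le_tsum _ (fun i _ => pow_nonneg hr0 i)
    have h6 : (1 - r)⁻¹ = 2 ^ 47 := by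
      rw [hr]; norm_num
    calc ∑ j ∈ Finset.range N, (6 * r ^ (j + 1)) = 6 * r * ∑ j ∈ Finset.range N, r ^ j := by
          rw [Finset.mul_sum]
          apply Finset.sum_congr rfl
          intro j _
          ring
      _ ≤ 6 * r * (1 - r)⁻¹ := by
          apply mul_le_mul_of_nonneg_left h5
          positivity
      _ ≤ 6 * 1 * (1 - r)⁻¹ := by
          apply mul_le_mul_of_nonneg_right
          · linarith
          · rw [h6]; positivity
      _ = 6 * 2 ^ 47 := by rw [h6]; ring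
  rw [e1, ← e2]
  calc Ex (fun _ => (1/2 : ℝ)) (CE n (20 * a)) (fun F => ∑ σ, ∑ τ, mu n σ * mu n τ *
        ((fN (rows (2 * n - 1) (dn n (20 * a) F) (20 * a) σ).1
        (rows (2 * n - 1) (up n (20 * a) F) (20 * a) τ).1 : ℕ) : ℝ))
      ≤ Ex (fun _ => (1/2 : ℝ)) (CE n (20 * a)) (fun F => ((TT (per n F) (4 * a) : ℕ) : ℝ) + 1 +
        10 * ∑ j ∈ Finset.range N, 1 * ind (¬ Good n b j F)) := Ex_mono ok key
    _ = Ex (fun _ => (1/2 : ℝ)) (CE n (20 * a)) (fun F => ((TT (per n F) (4 * a) : ℕ) : ℝ)) + 1 +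
        10 * ∑ j ∈ Finset.range N, Ex (fun _ => (1/2 : ℝ)) (CE n (20 * a))
          (fun F => 1 * ind (¬ Good n b j F)) := by
        rw [Ex_add, Ex_add, Ex_const, Ex_mul_left, Ex_sum]
    _ ≤ Ex (fun _ => (1/2 : ℝ)) (CE n (20 * a)) (fun F => ((TT (per n F) (4 * a) : ℕ) : ℝ)) + 1 +
        10 * (6 * 2 ^ 47) := by
        have := (Finset.sum_le_sum (fun j (_ : j ∈ Finset.range N) => e3 j)).trans e4
        linarith
    _ = _ := by ring

end Pool.Agent.H863R2.NL
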