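import Pool.Agent.H160R2.OA.Int

/-!
# Module Int (helper415): three integrals
-/

namespace Pool.Agent.H863R2.NL
open scoped Real
open MeasureTheory Filter

namespace IntAux

theorem den_pos (x : ℝ) : 0 < 2 * Real.cosh x + 1 := by
  have := Real.cosh_pos x
  positivity

theorem p_cont : Continuous (fun x : ℝ => 1 / (2 * Real.cosh x + 1)) :=
  continuous_const.div (by fun_prop) (fun x => (den_pos x).ne')

theorem p_nonneg (x : ℝ) : 0 ≤ 1 / (2 * Real.cosh x + 1) := (div_pos one_pos (den_pos x)).le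

theorem p_le_one (x : ℝ) : 1 / (2 * Real.cosh x + 1) ≤ 1 := by
  rw [div_le_one (den_pos x)]
  have := Real.cosh_pos x
  linarith

theorem p_le (x : ℝ) : 1 / (2 * Real.cosh x + 1) ≤ 2 * (1 + x ^ 2)⁻¹ := by
  have h1 := Pool.Agent.H160R2.OA.I_cosh_ge x
  have h2 : 0 < 1 + x ^ 2 := by positivity
  rw [← div_eq_mul_inv, div_le_div_iff₀ (den_pos x) h2]
  linarith

theorem p_int : Integrable (fun x : ℝ => 1 / (2 * Real.cosh x + 1)) := by
  apply Integrable.mono (integrable_inv_one_add_sq.const_mul 2) p_cont.aestronglyMeasurable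
  filter_upwards with x
  rw [Real.norm_eq_abs, Real.norm_eq_abs, abs_of_nonneg (p_nonneg x), abs_of_nonneg (by positivity)]
  exact p_le x

theorem p2_int : Integrable (fun x : ℝ => (1 / (2 * Real.cosh x + 1)) ^ 2) := by
  apply Integrable.mono p_int (p_cont.pow 2).aestronglyMeasurable
  filter_upwards with x
  rw [Real.norm_eq_abs, Real.norm_eq_abs, abs_of_nonneg (sq_nonneg _), abs_of_nonneg (p_nonneg x), sq]
  exact mul_le_of_le_one_left (p_nonneg x) (p_le_one x)

theorem atan_deriv (x : ℝ) : HasDerivAt (fun x : ℝ => 2 / √3 * Real.arctan ((2 * Real.exp x + 1) / √3))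
    (1 / (2 * Real.cosh x + 1)) x := by
  have h3 : √3 ^ 2 = 3 := Real.sq_sqrt (by norm_num)
  have h30 : 0 < √3 := Real.sqrt_pos.2 (by norm_num)
  have h1 : HasDerivAt (fun x : ℝ => (2 * Real.exp x + 1) / √3) (2 * Real.exp x / √3) x :=
    (((Real.hasDerivAt_exp x).const_mul 2).add_const 1).div_const _
  have h2 := (h1.arctan).const_mul (2 / √3)
  refine h2.congr_deriv ?_
  have he := Real.exp_pos x
  have e1 : Real.cosh x = (Real.exp x + (Real.exp x)⁻¹) / 2 := by rw [Real.cosh_eq, Real.exp_neg]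
  rw [e1]
  have e2 : 1 + ((2 * Real.exp x + 1) / √3) ^ 2 = 4 / 3 * (Real.exp x ^ 2 + Real.exp x + 1) := by
    rw [div_pow, h3]
    ring
  rw [e2]
  have e3 : 2 / √3 * (1 / (4 / 3 * (Real.exp x ^ 2 + Real.exp x + 1)) * (2 * Real.exp x / √3)) =
      (4 / (√3 ^ 2)) * (Real.exp x / (4 / 3 * (Real.exp x ^ 2 + Real.exp x + 1))) := by
    field_simp
    ring
  rw [e3, h3]
  field_simp
  ring

theorem q_tendsto : Tendsto (fun x : ℝ => Real.sinh x / (2 * Real.cosh x + 1)) atTop (nhds (1 / 2)) := by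
  have h1 : Tendsto (fun y : ℝ => (1 - y ^ 2) / (2 * (1 + y ^ 2) / 2 * 2 + 2 * y)) (nhds 0)
      (nhds ((1 - (0:ℝ) ^ 2) / (2 * (1 + (0:ℝ) ^ 2) / 2 * 2 + 2 * 0))) := by
    apply ContinuousAt.tendsto
    apply ContinuousAt.div
    · fun_prop
    · fun_prop
    · norm_num
  have h2 : Tendsto (fun x : ℝ => Real.exp (-x)) atTop (nhds 0) := Real.tendsto_exp_neg_atTop_nhds_zero
  have h3 := h1.comp h2
  have e : ((1 - (0:ℝ) ^ 2) / (2 * (1 + (0:ℝ) ^ 2) / 2 * 2 + 2 * 0)) = 1 / 2 := by norm_num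
  rw [e] at h3
  refine h3.congr ?_
  intro x
  show (1 - Real.exp (-x) ^ 2) / (2 * (1 + Real.exp (-x) ^ 2) / 2 * 2 + 2 * Real.exp (-x)) = _
  rw [Real.sinh_eq, Real.cosh_eq]
  have he := Real.exp_pos x
  rw [Real.exp_neg]
  field_simp

theorem q_tendsto_bot : Tendsto (fun x : ℝ => Real.sinh x / (2 * Real.cosh x + 1)) atBot
    (nhds (-(1 / 2))) := by
  have h1 := (q_tendsto.comp tendsto_neg_atBot_atTop).neg
  refine h1.congr ?_
  intro x
  show -(Real.sinh (-x) / (2 * Real.cosh (-x) + 1)) = _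
  rw [Real.sinh_neg, Real.cosh_neg, neg_div, neg_neg]

theorem q_deriv (x : ℝ) : HasDerivAt (fun x : ℝ => Real.sinh x / (2 * Real.cosh x + 1))
    (1 / 2 * (1 / (2 * Real.cosh x + 1)) + 3 / 2 * (1 / (2 * Real.cosh x + 1)) ^ 2) x := by
  have h1 := (Real.hasDerivAt_sinh x).div (((Real.hasDerivAt_cosh x).const_mul 2).add_const 1)
    (den_pos x).ne'
  refine h1.congr_deriv ?_
  have h2 := Real.cosh_sq x
  have h3 := den_pos x
  field_simp
  nlinarith

end IntAux

open IntAux

theorem int_p : ∫ x : ℝ, 1 / (2 * Real.cosh x + 1) = 2 * π / (3 * √3) := by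
  have h3 : √3 ^ 2 = 3 := Real.sq_sqrt (by norm_num)
  have h30 : 0 < √3 := Real.sqrt_pos.2 (by norm_num)
  have ht : Tendsto (fun x : ℝ => 2 / √3 * Real.arctan ((2 * Real.exp x + 1) / √3)) atTop
      (nhds (2 / √3 * (π / 2))) := by
    apply Tendsto.const_mul
    have h1 : Tendsto (fun x : ℝ => (2 * Real.exp x + 1) / √3) atTop atTop := by
      apply Tendsto.atTop_div_const h30
      exact tendsto_atTop_add_const_right _ _ (Real.tendsto_exp_atTop.const_mul_atTop (by norm_num))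
    exact (Real.tendsto_arctan_atTop.mono_right nhdsWithin_le_nhds).comp h1
  have hb : Tendsto (fun x : ℝ => 2 / √3 * Real.arctan ((2 * Real.exp x + 1) / √3)) atBot
      (nhds (2 / √3 * (π / 6))) := by
    have e : π / 6 = Real.arctan ((2 * 0 + 1) / √3) := by
      rw [← Real.arctan_inv_sqrt_three]
      congr 1
      rw [mul_zero, zero_add, one_div]
    rw [e]
    apply Tendsto.const_mul
    apply (Real.continuous_arctan.tendsto _).comp
    apply Tendsto.div_const
    apply Tendsto.add_const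
    exact Real.tendsto_exp_atBot.const_mul 2
  rw [integral_of_hasDerivAt_of_tendsto atan_deriv p_int hb ht]
  field_simp
  ring

theorem int_p2 : ∫ x : ℝ, (1 / (2 * Real.cosh x + 1)) ^ 2 = 2 / 3 - 2 * π / (9 * √3) := by
  have h30 : 0 < √3 := Real.sqrt_pos.2 (by norm_num)
  have h1 := integral_of_hasDerivAt_of_tendsto q_deriv ((p_int.const_mul (1 / 2)).add
    (p2_int.const_mul (3 / 2))) q_tendsto_bot q_tendsto
  rw [integral_add (p_int.const_mul (1 / 2)) (p2_int.const_mul (3 / 2)), integral_const_mul,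
    integral_const_mul, int_p] at h1
  have h2 : ∫ x : ℝ, (1 / (2 * Real.cosh x + 1)) ^ 2 = 2 / 3 * (1 - 1 / 2 * (2 * π / (3 * √3))) := by
    linarith
  rw [h2]
  field_simp
  ring

theorem int_log {t : ℝ} (h0 : 0 < t) (h2 : t < 2) :
    ∫ x : ℝ, Real.log (1 + 1 / (2 * Real.cosh x + 1) * (t - 1)) =
      π ^ 2 / 9 - Real.arccos (t / 2) ^ 2 := by
  set φ := Real.arccos (t / 2) with hφ
  have hφ0 : 0 ≤ φ := Real.arccos_nonneg _
  have hφ1 : φ < π := by
    have : φ < π / 2 := by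
      rw [hφ, Real.arccos_lt_pi_div_two]
      linarith
    have := Real.pi_pos
    linarith
  have hc : 2 * Real.cos φ = t := by
    rw [hφ, Real.cos_arccos (by linarith) (by linarith)]
    ring
  have h := (Pool.Agent.H160R2.OA.integral_log φ hφ0 hφ1).2
  have e : ∀ x : ℝ, Real.log (1 + 1 / (2 * Real.cosh x + 1) * (t - 1)) =
      -Real.log ((2 * Real.cosh x + 1) / (2 * Real.cosh x + 2 * Real.cos φ)) := by
    intro x
    have h1 := den_pos x
    have h3 := Real.cosh_pos x
    rw [← Real.log_inv, inv_div, hc]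
    congr 1
    field_simp
    ring
  simp only [e]
  rw [integral_neg, h]
  ring

end Pool.Agent.H863R2.NL
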