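import Pool.Agent.H160R2.NE.Lin
import Pool.Agent.H160R2.SA.SumU
import Pool.Agent.H863R2.NL.Int

/-!
# Module Sum (helper415): sharp linear statistics
-/

namespace Pool.Agent.H863R2.NL
open Pool.Agent.H160R2.OA (J IsMu)
open scoped Real
open MeasureTheory Filter

namespace SumAux

open IntAux
open Pool.Agent.H160R2.NE (cal cal_eq cal_nonneg cal_cont cal_int cal_integral cal_sum)

/-- minus the derivative of `cal` -/
noncomputable def kc (x : ℝ) : ℝ := 6 * Real.sinh x / ((2 * Real.cosh x + 2) * (2 * Real.cosh x - 1))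

theorem pos1 (x : ℝ) : 0 < 2 * Real.cosh x + 2 := by have := Real.one_le_cosh x; linarith
theorem pos2 (x : ℝ) : 0 < 2 * Real.cosh x - 1 := by have := Real.one_le_cosh x; linarith

theorem cal_deriv (x : ℝ) : HasDerivAt cal (-kc x) x := by
  have h1 := pos1 x
  have h2 := pos2 x
  have e : cal = fun x => Real.log (2 * Real.cosh x + 2) - Real.log (2 * Real.cosh x - 1) := by
    funext y
    rw [cal_eq, Real.log_div (pos1 y).ne' (pos2 y).ne']
  rw [e]
  have d1 := (((Real.hasDerivAt_cosh x).const_mul 2).add_const 2).log h1.ne'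
  have d2 := (((Real.hasDerivAt_cosh x).const_mul 2).sub_const 1).log h2.ne'
  refine (d1.sub d2).congr_deriv ?_
  unfold kc
  field_simp
  ring

theorem kc_cont : Continuous kc := by
  unfold kc
  apply Continuous.div
  · exact continuous_const.mul Real.continuous_sinh
  · exact ((continuous_const.mul Real.continuous_cosh).add continuous_const).mul
      ((continuous_const.mul Real.continuous_cosh).sub continuous_const)
  · intro x
    exact (mul_pos (pos1 x) (pos2 x)).ne'

theorem kc_le {x : ℝ} (_hx : 0 ≤ x) : kc x ≤ 6 * Real.exp (-x) := by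
  unfold kc
  have h1 := pos1 x
  have h2 := pos2 x
  have he := Real.exp_pos x
  have he' := Real.exp_pos (-x)
  have hc := Real.one_le_cosh x
  rw [div_le_iff₀ (mul_pos h1 h2)]
  have hs : Real.sinh x ≤ Real.exp x / 2 := by rw [Real.sinh_eq]; linarith
  have a1 : Real.exp x ≤ 2 * Real.cosh x + 2 := by rw [Real.cosh_eq]; linarith
  have a2 : Real.exp x / 2 ≤ 2 * Real.cosh x - 1 := by
    have : Real.exp x / 2 ≤ Real.cosh x := by rw [Real.cosh_eq]; linarith
    linarith
  have a3 : Real.exp x * (Real.exp x / 2) ≤ (2 * Real.cosh x + 2) * (2 * Real.cosh x - 1) :=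
    mul_le_mul a1 a2 (by positivity) h1.le
  have a4 : Real.exp (-x) * Real.exp x = 1 := by rw [← Real.exp_add]; simp
  calc 6 * Real.sinh x ≤ 6 * (Real.exp x / 2) := by linarith
    _ = 6 * (Real.exp (-x) * Real.exp x) * (Real.exp x / 2) := by rw [a4]; ring
    _ = 6 * Real.exp (-x) * (Real.exp x * (Real.exp x / 2)) := by ring
    _ ≤ _ := mul_le_mul_of_nonneg_left a3 (by positivity)

theorem cal_even (x : ℝ) : cal (-x) = cal x := by
  rw [cal_eq, cal_eq, Real.cosh_neg]

theorem p_even (x : ℝ) : 1 / (2 * Real.cosh (-x) + 1) = 1 / (2 * Real.cosh x + 1) := by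
  rw [Real.cosh_neg]

theorem cosh_tendsto : Tendsto (fun x : ℝ => 2 * Real.cosh x + 1) atTop atTop := by
  have h1 : Tendsto (fun x : ℝ => Real.exp x) atTop atTop := Real.tendsto_exp_atTop
  apply tendsto_atTop_mono _ h1
  intro x
  rw [Real.cosh_eq]
  have := Real.exp_pos (-x)
  linarith

theorem p_tendsto : Tendsto (fun x : ℝ => 1 / (2 * Real.cosh x + 1)) atTop (nhds 0) := by
  have := cosh_tendsto.inv_tendsto_atTop
  refine this.congr ?_
  intro x
  simp

theorem cal_tendsto : Tendsto cal atTop (nhds 0) := by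
  have h1 : Tendsto (fun y : ℝ => Real.log ((1 + y) / (1 - 2 * y))) (nhds 0)
      (nhds (Real.log ((1 + 0) / (1 - 2 * 0)))) := by
    apply ContinuousAt.tendsto
    apply ContinuousAt.log
    · apply ContinuousAt.div
      · fun_prop
      · fun_prop
      · norm_num
    · norm_num
  have h2 := h1.comp p_tendsto
  have e : Real.log ((1 + 0) / (1 - 2 * 0)) = 0 := by norm_num
  rw [e] at h2
  refine h2.congr ?_
  intro x
  rw [cal_eq]
  show Real.log ((1 + 1 / (2 * Real.cosh x + 1)) / (1 - 2 * (1 / (2 * Real.cosh x + 1)))) = _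
  have h3 := den_pos x
  have h4 := pos2 x
  congr 1
  rw [div_eq_div_iff]
  · field_simp
    ring
  · have : 1 - 2 * (1 / (2 * Real.cosh x + 1)) = (2 * Real.cosh x - 1) / (2 * Real.cosh x + 1) := by
      field_simp
      ring
    rw [this]
    positivity
  · exact h4.ne'

theorem p_mem (x : ℝ) : 1 / (2 * Real.cosh x + 1) ∈ Set.Icc (0:ℝ) (1 / 3) := by
  refine ⟨p_nonneg x, ?_⟩
  have := Real.one_le_cosh x
  apply one_div_le_one_div_of_le (by norm_num)
  linarith

theorem p_deriv (x : ℝ) : HasDerivAt (fun x : ℝ => 1 / (2 * Real.cosh x + 1))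
    (-(2 * Real.sinh x / (2 * Real.cosh x + 1) ^ 2)) x := by
  have h := (((Real.hasDerivAt_cosh x).const_mul 2).add_const 1).inv (den_pos x).ne'
  simp only [one_div]
  refine h.congr_deriv ?_
  ring

end SumAux

open SumAux IntAux Pool.Agent.H160R2.NE in
theorem sum_two (H H' : ℝ → ℝ) (hH : ∀ p, 0 ≤ p → p ≤ 1 / 3 → HasDerivAt H (H' p) p)
    (hH' : ContinuousOn H' (Set.Icc 0 (1 / 3))) (h0 : H 0 = 0) : ∃ C : ℝ, ∀ L : ℕ, 1 ≤ L →
    ∀ (hJ : (J L).IsHermitian) (μ : Fin L → ℝ), IsMu L hJ μ →
      |∑ i, H (1 / (2 * Real.cosh (Real.log (μ i)) + 1)) -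
        3 / (2 * π ^ 2) * (∫ x, H (1 / (2 * Real.cosh x + 1))) * Real.log L| ≤ C := by
  have hπ := Real.pi_pos
  -- bound for the derivative
  obtain ⟨B, hB⟩ := isCompact_Icc.exists_bound_of_continuousOn hH'
  have hB0 : 0 ≤ B := (norm_nonneg _).trans (hB 0 (by constructor <;> norm_num))
  set P : ℝ → ℝ := fun x => 1 / (2 * Real.cosh x + 1) with hP
  set G : ℝ → ℝ := fun x => H (P x) with hG
  set h : ℝ → ℝ := fun x => H' (P x) * (2 * Real.sinh x / (2 * Real.cosh x + 1) ^ 2) with hh
  have hPmem : ∀ x, P x ∈ Set.Icc (0:ℝ) (1 / 3) := p_mem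
  have hGd : ∀ x, HasDerivAt G (-h x) x := by
    intro x
    have h1 := hH (P x) (hPmem x).1 (hPmem x).2
    have h2 := h1.comp x (p_deriv x)
    refine h2.congr_deriv ?_
    rw [hh]
    ring
  have hGc : Continuous G := continuous_iff_continuousAt.2 fun x => (hGd x).continuousAt
  have hPc : Continuous P := p_cont
  have hhc : Continuous h := by
    rw [hh]
    apply Continuous.mul
    · exact hH'.comp_continuous hPc hPmem
    · apply Continuous.div
      · exact continuous_const.mul Real.continuous_sinh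
      · exact ((continuous_const.mul Real.continuous_cosh).add continuous_const).pow 2
      · intro x
        have := den_pos x
        positivity
  have hhk : ∀ x, 0 ≤ x → |h x| ≤ B * kc x := by
    intro x hx
    have hs : 0 ≤ Real.sinh x := Real.sinh_nonneg_iff.2 hx
    have h1 := pos1 x
    have h2 := pos2 x
    have h3 := den_pos x
    rw [hh]
    simp only
    rw [abs_mul]
    have a1 : |H' (P x)| ≤ B := hB _ (hPmem x)
    have a2 : |2 * Real.sinh x / (2 * Real.cosh x + 1) ^ 2| ≤ kc x := by
      rw [abs_of_nonneg (by positivity)]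
      unfold kc
      apply div_le_div₀ (by positivity) (by linarith) (mul_pos h1 h2)
      have := Real.one_le_cosh x
      nlinarith
    exact mul_le_mul a1 a2 (abs_nonneg _) hB0
  have hHle : ∀ p ∈ Set.Icc (0:ℝ) (1 / 3), |H p| ≤ B * p := by
    intro p hp
    have h1 := (convex_Icc (0:ℝ) (1 / 3)).norm_image_sub_le_of_norm_hasDerivWithin_le
      (f := H) (f' := H') (C := B) (x := 0) (y := p)
      (fun y hy => (hH y hy.1 hy.2).hasDerivWithinAt) (fun y hy => hB y hy)
      (by constructor <;> norm_num) hp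
    rw [h0, sub_zero, sub_zero, Real.norm_eq_abs, Real.norm_eq_abs, abs_of_nonneg hp.1] at h1
    exact h1
  have hGi : Integrable G := by
    apply Integrable.mono (p_int.const_mul B) hGc.aestronglyMeasurable
    filter_upwards with x
    rw [Real.norm_eq_abs, Real.norm_eq_abs, abs_of_nonneg (mul_nonneg hB0 (p_nonneg x))]
    exact hHle _ (hPmem x)
  have hGeven : ∀ x, G (-x) = G x := by
    intro x
    rw [hG, hP]
    simp only [Real.cosh_neg]
  have hGlim : Tendsto G atTop (nhds 0) := by
    have h1 : Tendsto (fun x => B * P x) atTop (nhds (B * 0)) := p_tendsto.const_mul B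
    rw [mul_zero] at h1
    exact squeeze_zero_norm (fun x => hHle _ (hPmem x)) h1
  -- the two applications
  have hci : Integrable (fun x => B * cal x) := cal_int.const_mul B
  have hI : ∫ x, B * cal x = B * (4 * π ^ 2 / 9) := by rw [integral_const_mul, cal_integral]
  have hsgn : ∀ σ : ℝ, (σ = 1 ∨ σ = -1) → ∃ C : ℝ, ∀ L : ℕ, 1 ≤ L →
      ∀ (hJ : (J L).IsHermitian) (μ : Fin L → ℝ), IsMu L hJ μ →
      σ * (3 / (2 * π ^ 2) * (∫ x, G x) * Real.log L) - C ≤ σ * ∑ i, G (Real.log (μ i)) := by
    intro σ hσ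
    have hσ1 : |σ| = 1 := by rcases hσ with h | h <;> simp [h]
    obtain ⟨C, hC⟩ := Pool.Agent.H160R2.SA.sum_u (fun x => B * cal x + σ * G x)
      (fun x => B * kc x + σ * h x) (12 * B)
      ((kc_cont.const_mul B).add (hhc.const_mul σ))
      (by
        intro x hx
        have h1 := hhk x hx
        have h2 : |σ * h x| ≤ B * kc x := by rw [abs_mul, hσ1, one_mul]; exact h1
        have := (abs_le.1 h2).1
        linarith)
      (by
        intro x hx
        have h1 := hhk x hx
        have h2 : |σ * h x| ≤ B * kc x := by rw [abs_mul, hσ1, one_mul]; exact h1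
        have h3 := (abs_le.1 h2).2
        have h4 := mul_le_mul_of_nonneg_left (kc_le hx) hB0
        linarith)
      (by
        intro x
        refine (((cal_deriv x).const_mul B).add ((hGd x).const_mul σ)).congr_deriv ?_
        ring)
      (by
        intro x
        simp only [cal_even, hGeven])
      (by
        have h1 := (cal_tendsto.const_mul B).add (hGlim.const_mul σ)
        simpa using h1)
    refine ⟨C + B * (2 * Real.log 2), ?_⟩
    intro L hL hJ μ hμ
    have h1 := hC L hL hJ μ hμ
    have hcs := mul_le_mul_of_nonneg_left (cal_sum hL hμ) hB0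
    rw [integral_add hci (hGi.const_mul σ), hI, integral_const_mul, Finset.sum_add_distrib,
      ← Finset.mul_sum, ← Finset.mul_sum] at h1
    have e : 3 / (2 * π ^ 2) * (B * (4 * π ^ 2 / 9) + σ * ∫ x, G x) * Real.log L =
        2 / 3 * B * Real.log L + σ * (3 / (2 * π ^ 2) * (∫ x, G x) * Real.log L) := by
      field_simp
      ring
    rw [e] at h1
    linarith
  obtain ⟨C1, h1⟩ := hsgn 1 (Or.inl rfl)
  obtain ⟨C2, h2⟩ := hsgn (-1) (Or.inr rfl)
  refine ⟨max C1 C2, ?_⟩
  intro L hL hJ μ hμ
  have a1 := h1 L hL hJ μ hμ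
  have a2 := h2 L hL hJ μ hμ
  have b1 := le_max_left C1 C2
  have b2 := le_max_right C1 C2
  show |∑ i, G (Real.log (μ i)) - 3 / (2 * π ^ 2) * (∫ x, G x) * Real.log L| ≤ max C1 C2
  rw [abs_le]
  constructor <;> linarith

end Pool.Agent.H863R2.NL
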