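import Pool.Agent.H863R2.NL.Bern
import Pool.Agent.H863R2.NL.Sum
import Pool.Agent.H863R2.NL.Int

/-!
# Module PsSum (helper415): sums of the parameters
-/

namespace Pool.Agent.H863R2.NL
open H974 H906.Cyl Finset
open Pool.Agent.H863R2.Cyl (Wd Tc rows FSpec push)
open Pool.Agent.H160R2.OA (J IsMu)
open scoped Real
open MeasureTheory

/-- `s` is the multiset of the parameters of the cylinder of circumference `2n` -/
def IsPs (n : ℕ) (s : Multiset ℝ) : Prop := (∀ p ∈ s, 0 < p ∧ p ≤ 1 / 3) ∧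
    (∀ t : ℂ, (∑ σ : Wd (2 * n - 1 + 1), ∑ τ : Wd (2 * n - 1 + 1),
      (mu n σ : ℂ) * mu n τ * t ^ fN σ.1 τ.1) = (s.map (fun p : ℝ => 1 + (p : ℂ) * (t - 1))).prod)

namespace PsSumAux

open IntAux

/-- the sum of a smooth function of the parameters -/
theorem gen (ps : ℕ → Multiset ℝ)
    (hps : ∀ n, 1 ≤ n → ∃ (hJ : (J (2 * n)).IsHermitian) (ν : Fin (2 * n) → ℝ), IsMu (2 * n) hJ ν ∧
      ∀ g : ℝ → ℝ, 2 * ((ps n).map g).sum =
        ∑ i, g (1 / (2 * Real.cosh (Real.log (ν i)) + 1)))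
    (H H' : ℝ → ℝ) (hH : ∀ p, 0 ≤ p → p ≤ 1 / 3 → HasDerivAt H (H' p) p)
    (hH' : ContinuousOn H' (Set.Icc 0 (1 / 3))) (h0 : H 0 = 0) (κ : ℝ)
    (hκ : 3 / (4 * π ^ 2) * (∫ x, H (1 / (2 * Real.cosh x + 1))) = κ) : ∃ C : ℝ, ∀ n : ℕ, 1 ≤ n →
      |((ps n).map H).sum - κ * Real.log n| ≤ C := by
  obtain ⟨C, hC⟩ := sum_two H H' hH hH' h0
  refine ⟨C / 2 + |κ * Real.log 2|, ?_⟩
  intro n hn
  obtain ⟨hJ, ν, hν, hg⟩ := hps n hn
  have h1 := hC (2 * n) (by omega) hJ ν hν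
  rw [← hg H] at h1
  have hn0 : (0:ℝ) < n := by exact_mod_cast hn
  have h2 : Real.log ((2 * n : ℕ) : ℝ) = Real.log 2 + Real.log n := by
    push_cast
    rw [Real.log_mul (by norm_num) hn0.ne']
  have h3 : 3 / (2 * π ^ 2) * (∫ x, H (1 / (2 * Real.cosh x + 1))) = 2 * κ := by
    rw [← hκ]
    have := Real.pi_pos
    field_simp
    ring
  rw [h2, h3] at h1
  have e : ((ps n).map H).sum - κ * Real.log n =
      (2 * ((ps n).map H).sum - 2 * κ * (Real.log 2 + Real.log n)) / 2 + κ * Real.log 2 := by ring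
  rw [e]
  refine (abs_add_le _ _).trans ?_
  rw [abs_div, abs_two]
  linarith

theorem log_pos {t p : ℝ} (ht : 0 < t) (h0 : 0 ≤ p) (h1 : p ≤ 1 / 3) : 0 < 1 + p * (t - 1) := by
  nlinarith

theorem prod_deriv (s : Multiset ℝ) :
    HasDerivAt (fun t : ℝ => (s.map (fun p => 1 + p * (t - 1))).prod) s.sum 1 := by
  induction s using Multiset.induction_on with
  | empty =>
    simp only [Multiset.map_zero, Multiset.prod_zero, Multiset.sum_zero]
    exact hasDerivAt_const _ _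
  | cons a s ih =>
    simp only [Multiset.map_cons, Multiset.prod_cons, Multiset.sum_cons]
    have h1 : HasDerivAt (fun t : ℝ => 1 + a * (t - 1)) (a * 1) 1 :=
      (((hasDerivAt_id (1:ℝ)).sub_const 1).const_mul a).const_add 1
    have h2 := h1.mul ih
    refine h2.congr_deriv ?_
    have e : (s.map (fun p : ℝ => 1 + p * ((1:ℝ) - 1))).prod = 1 := by
      simp
    simp only [e]
    ring

/-- the real identity -/
theorem real_id {n : ℕ} {s : Multiset ℝ} (hs : IsPs n s) (t : ℝ) :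
    EN n (fun m => t ^ m) = (s.map (fun p => 1 + p * (t - 1))).prod := by
  have h := hs.2 (t : ℂ)
  have h1 : ((EN n (fun m => t ^ m) : ℝ) : ℂ) =
      (((s.map (fun p => 1 + p * (t - 1))).prod : ℝ) : ℂ) := by
    have e1 : (((s.map (fun p => 1 + p * (t - 1))).prod : ℝ) : ℂ) =
        Complex.ofRealHom (s.map (fun p => 1 + p * (t - 1))).prod := rfl
    rw [e1, map_multiset_prod, Multiset.map_map]
    unfold EN
    push_cast
    rw [h]
    congr 1
    apply Multiset.map_congr rfl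
    intro p _
    simp
  exact_mod_cast h1

theorem EN_deriv (n : ℕ) : HasDerivAt (fun t : ℝ => EN n (fun m => t ^ m)) (EN n (fun m => (m : ℝ))) 1 := by
  unfold EN
  have h : HasDerivAt (fun t : ℝ => ∑ σ : Wd (2 * n - 1 + 1), ∑ τ : Wd (2 * n - 1 + 1),
      mu n σ * mu n τ * t ^ fN σ.1 τ.1) (∑ σ : Wd (2 * n - 1 + 1), ∑ τ : Wd (2 * n - 1 + 1),
      mu n σ * mu n τ * ((fN σ.1 τ.1 : ℝ) * 1 ^ (fN σ.1 τ.1 - 1))) 1 := by
    apply HasDerivAt.fun_sum
    intro σ _
    apply HasDerivAt.fun_sum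
    intro τ _
    exact (hasDerivAt_pow (fN σ.1 τ.1) (1:ℝ)).const_mul _
  refine h.congr_deriv ?_
  simp

end PsSumAux

open PsSumAux IntAux in
/-- sharp sums of the parameters -/
theorem ps_exists : ∃ ps : ℕ → Multiset ℝ, (∀ n, 1 ≤ n → IsPs n (ps n)) ∧
    (∃ C, ∀ n : ℕ, 1 ≤ n → |(ps n).sum - cN * Real.log n| ≤ C) ∧
    (∃ C, ∀ n : ℕ, 1 ≤ n →
      |((ps n).map (fun p => p * (1 - p))).sum - vN * Real.log n| ≤ C) ∧
    (∀ t : ℝ, 0 < t → t < 2 → ∃ C, ∀ n : ℕ, 1 ≤ n →
      |((ps n).map (fun p => Real.log (1 + p * (t - 1)))).sum - psi t * Real.log n| ≤ C) := by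
  classical
  have hπ := Real.pi_pos
  have h30 : 0 < √3 := Real.sqrt_pos.2 (by norm_num)
  have hex : ∀ n : ℕ, ∃ s : Multiset ℝ, 1 ≤ n → IsPs n s ∧
      ∃ (hJ : (J (2 * n)).IsHermitian) (ν : Fin (2 * n) → ℝ), IsMu (2 * n) hJ ν ∧
      ∀ g : ℝ → ℝ, 2 * (s.map g).sum =
        ∑ i, g (1 / (2 * Real.cosh (Real.log (ν i)) + 1)) := by
    intro n
    by_cases hn : 1 ≤ n
    · obtain ⟨s, h1, h2, h3⟩ := bern hn
      exact ⟨s, fun _ => ⟨⟨h1, h2⟩, h3⟩⟩
    · exact ⟨0, fun h => absurd h hn⟩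
  choose ps hps using hex
  refine ⟨ps, fun n hn => (hps n hn).1, ?_, ?_, ?_⟩
  · obtain ⟨C, hC⟩ := gen ps (fun n hn => (hps n hn).2) (fun p => p) (fun _ => 1)
      (fun p _ _ => hasDerivAt_id p) continuousOn_const rfl cN (by
        rw [int_p]
        unfold cN
        field_simp
        ring)
    refine ⟨C, fun n hn => ?_⟩
    have := hC n hn
    rwa [Multiset.map_id'] at this
  · exact gen ps (fun n hn => (hps n hn).2) (fun p => p * (1 - p)) (fun p => 1 - 2 * p)
      (fun p _ _ => by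
        refine ((hasDerivAt_id p).mul ((hasDerivAt_id p).const_sub 1)).congr_deriv ?_
        simp only [id]
        ring) (by fun_prop) (by norm_num) vN (by
        have e : ∀ x : ℝ, 1 / (2 * Real.cosh x + 1) * (1 - 1 / (2 * Real.cosh x + 1)) =
            1 / (2 * Real.cosh x + 1) - (1 / (2 * Real.cosh x + 1)) ^ 2 := fun x => by ring
        simp only [e]
        rw [integral_sub p_int p2_int, int_p, int_p2]
        unfold vN
        field_simp
        ring)
  · intro t ht0 ht2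
    exact gen ps (fun n hn => (hps n hn).2) (fun p => Real.log (1 + p * (t - 1)))
      (fun p => (t - 1) / (1 + p * (t - 1)))
      (fun p h1 h2 => by
        have h3 := log_pos ht0 h1 h2
        have h4 : HasDerivAt (fun p : ℝ => 1 + p * (t - 1)) (1 * (t - 1)) p :=
          ((hasDerivAt_id p).mul_const (t - 1)).const_add 1
        refine (h4.log h3.ne').congr_deriv ?_
        ring)
      (by
        apply ContinuousOn.div
        · fun_prop
        · fun_prop
        · intro p hp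
          exact (log_pos ht0 hp.1 hp.2).ne')
      (by simp) (psi t) (by
        rw [int_log ht0 ht2]
        rfl)

open PsSumAux in
/-- consequences for `EN` -/
theorem EN_pow : ∀ t : ℝ, 0 < t → t < 2 → ∃ c C : ℝ, 0 < c ∧ 0 < C ∧ ∀ n : ℕ, 1 ≤ n →
    c * (n : ℝ) ^ psi t ≤ EN n (fun m => t ^ m) ∧ EN n (fun m => t ^ m) ≤ C * (n : ℝ) ^ psi t := by
  intro t ht0 ht2
  obtain ⟨ps, hps, -, -, hlog⟩ := ps_exists
  obtain ⟨C, hC⟩ := hlog t ht0 ht2
  refine ⟨Real.exp (-C), Real.exp C, Real.exp_pos _, Real.exp_pos _, ?_⟩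
  intro n hn
  have hn0 : (0:ℝ) < n := by exact_mod_cast hn
  have h1 := hC n hn
  have h2 : EN n (fun m => t ^ m) =
      Real.exp ((ps n).map (fun p => Real.log (1 + p * (t - 1)))).sum := by
    rw [real_id (hps n hn) t, Real.exp_multiset_sum, Multiset.map_map]
    congr 1
    apply Multiset.map_congr rfl
    intro p hp
    have h3 := (hps n hn).1 p hp
    exact (Real.exp_log (log_pos ht0 h3.1.le h3.2)).symm
  rw [h2, Real.rpow_def_of_pos hn0, ← Real.exp_add, ← Real.exp_add]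
  rw [abs_le] at h1
  constructor
  · apply Real.exp_le_exp.2
    linarith
  · apply Real.exp_le_exp.2
    linarith

open PsSumAux in
theorem EN_id : ∃ C : ℝ, ∀ n : ℕ, 1 ≤ n → |EN n (fun m => (m : ℝ)) - cN * Real.log n| ≤ C := by
  obtain ⟨ps, hps, ⟨C, hC⟩, -, -⟩ := ps_exists
  refine ⟨C, fun n hn => ?_⟩
  have h1 : EN n (fun m => (m : ℝ)) = (ps n).sum := by
    have h2 := EN_deriv n
    have h3 : (fun t : ℝ => EN n (fun m => t ^ m)) =
        fun t : ℝ => ((ps n).map (fun p => 1 + p * (t - 1))).prod := by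
      funext t
      exact real_id (hps n hn) t
    rw [h3] at h2
    exact h2.unique (prod_deriv (ps n))
  rw [h1]
  exact hC n hn

end Pool.Agent.H863R2.NL
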