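import Pool.Agent.H863R2.NL.Defs

/-! Module Psi: properties of the exponent `psi`. -/

namespace Pool.Agent.H863R2.NL

open Real Filter Topology

namespace PsiAux

theorem arccos_half : Real.arccos (1 / 2) = Real.pi / 3 := by
  rw [← Real.cos_pi_div_three, Real.arccos_cos (by positivity) (by linarith [Real.pi_pos])]

theorem hasDeriv_psi : HasDerivAt psi cN 1 := by
  have h1 : HasDerivAt Real.arccos (-(1 / √(1 - ((1 : ℝ) / 2) ^ 2))) (1 / 2) :=
    Real.hasDerivAt_arccos (by norm_num) (by norm_num)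
  have h2 : HasDerivAt (fun t : ℝ => t / 2) (1 / 2) 1 := (hasDerivAt_id (1 : ℝ)).div_const 2
  have h3 : HasDerivAt (fun t : ℝ => Real.arccos (t / 2))
      (-(1 / √(1 - ((1 : ℝ) / 2) ^ 2)) * (1 / 2)) 1 :=
    HasDerivAt.comp (h₂ := Real.arccos) (h := fun t : ℝ => t / 2) 1 h1 h2
  have h4 := ((h3.pow 2).const_sub (Real.pi ^ 2 / 9)).const_mul (3 / (4 * Real.pi ^ 2))
  have e : cN = 3 / (4 * Real.pi ^ 2) * -(((2 : ℕ) : ℝ) * Real.arccos (1 / 2) ^ (2 - 1) *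
      (-(1 / √(1 - ((1 : ℝ) / 2) ^ 2)) * (1 / 2))) := by
    rw [arccos_half]
    have hs : √(1 - ((1 : ℝ) / 2) ^ 2) = √3 / 2 := by
      rw [show (1 : ℝ) - (1 / 2) ^ 2 = 3 / 2 ^ 2 by norm_num, Real.sqrt_div (by norm_num),
        Real.sqrt_sq (by norm_num)]
    rw [hs]
    unfold cN
    have h3 : √(3 : ℝ) ≠ 0 := by positivity
    have hpi := Real.pi_ne_zero
    field_simp
    norm_num
    ring
  rw [e]
  exact h4

end PsiAux

open PsiAux

theorem psi_one : psi 1 = 0 := by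
  unfold psi
  rw [arccos_half]
  ring

theorem psi_ge {t : ℝ} (h0 : 0 ≤ t) : -(5 / 48 : ℝ) ≤ psi t := by
  unfold psi
  have h1 : Real.arccos (t / 2) ≤ Real.pi / 2 := by
    rw [Real.arccos_le_pi_div_two]
    linarith
  have h2 : Real.arccos (t / 2) ^ 2 ≤ (Real.pi / 2) ^ 2 :=
    pow_le_pow_left₀ (Real.arccos_nonneg _) h1 2
  have hpi := Real.pi_pos
  have e : -(5 / 48 : ℝ) = 3 / (4 * Real.pi ^ 2) * (Real.pi ^ 2 / 9 - (Real.pi / 2) ^ 2) := by
    field_simp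
    norm_num
  rw [e]
  exact mul_le_mul_of_nonneg_left (by linarith) (by positivity)

theorem psi_zero : psi 0 = -(5 / 48 : ℝ) := by
  unfold psi
  rw [zero_div, Real.arccos_zero]
  have hpi := Real.pi_ne_zero
  field_simp
  norm_num

theorem psi_le {t : ℝ} (h0 : 0 < t) (h1 : t ≤ 1) : psi t ≤ 0 := by
  unfold psi
  have h2 : Real.pi / 3 ≤ Real.arccos (t / 2) := by
    rw [← arccos_half]
    exact Real.antitone_arccos (by linarith)
  have hpi := Real.pi_pos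
  have h3 : (Real.pi / 3) ^ 2 ≤ Real.arccos (t / 2) ^ 2 :=
    pow_le_pow_left₀ (by positivity) h2 2
  refine mul_nonpos_of_nonneg_of_nonpos (by positivity) ?_
  nlinarith

/-- lower deviations: `psi t - (cN - ε) log t < 0` for some `t < 1` -/
theorem psi_low {ε : ℝ} (hε : 0 < ε) : ∃ t : ℝ, 0 < t ∧ t < 1 ∧
    psi t - (cN - ε) * Real.log t < 0 := by
  set D : ℝ → ℝ := fun t => psi t - (cN - ε) * Real.log t with hD
  have hd : HasDerivAt D ε 1 := by
    have h1 := hasDeriv_psi.sub ((Real.hasDerivAt_log one_ne_zero).const_mul (cN - ε))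
    have e : cN - (cN - ε) * (1 : ℝ)⁻¹ = ε := by norm_num
    rw [e] at h1
    exact h1
  have h0 : D 1 = 0 := by
    simp only [hD]
    rw [psi_one, Real.log_one]
    ring
  have h1 : ∀ᶠ t in 𝓝[≠] (1 : ℝ), 0 < slope D 1 t :=
    (hasDerivAt_iff_tendsto_slope.1 hd).eventually (lt_mem_nhds hε)
  have h2 : ∀ᶠ t in 𝓝[<] (1 : ℝ), 0 < slope D 1 t :=
    h1.filter_mono (nhdsWithin_mono _ (fun t ht => ne_of_lt ht))
  have h3 : ∀ᶠ t in 𝓝[<] (1 : ℝ), t ∈ Set.Ioo (1 / 2 : ℝ) 1 :=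
    Ioo_mem_nhdsLT (by norm_num)
  obtain ⟨t, ht1, ht2⟩ := (h2.and h3).exists
  refine ⟨t, by linarith [ht2.1], ht2.2, ?_⟩
  rw [slope_def_field, h0, sub_zero] at ht1
  have h4 : t - 1 < 0 := by linarith [ht2.2]
  have h5 : D t = D t / (t - 1) * (t - 1) := by
    rw [div_mul_cancel₀ _ (ne_of_lt h4)]
  show D t < 0
  rw [h5]
  exact mul_neg_of_pos_of_neg ht1 h4

/-- upper deviations -/
theorem psi_up {ε : ℝ} (hε : 0 < ε) : ∃ t : ℝ, 1 < t ∧ t < 2 ∧
    psi t - (cN + ε) * Real.log t < 0 := by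
  set D : ℝ → ℝ := fun t => psi t - (cN + ε) * Real.log t with hD
  have hd : HasDerivAt D (-ε) 1 := by
    have h1 := hasDeriv_psi.sub ((Real.hasDerivAt_log one_ne_zero).const_mul (cN + ε))
    have e : cN - (cN + ε) * (1 : ℝ)⁻¹ = -ε := by norm_num
    rw [e] at h1
    exact h1
  have h0 : D 1 = 0 := by
    simp only [hD]
    rw [psi_one, Real.log_one]
    ring
  have h1 : ∀ᶠ t in 𝓝[≠] (1 : ℝ), slope D 1 t < 0 :=
    (hasDerivAt_iff_tendsto_slope.1 hd).eventually (gt_mem_nhds (by linarith))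
  have h2 : ∀ᶠ t in 𝓝[>] (1 : ℝ), slope D 1 t < 0 :=
    h1.filter_mono (nhdsWithin_mono _ (fun t ht => ne_of_gt ht))
  have h3 : ∀ᶠ t in 𝓝[>] (1 : ℝ), t ∈ Set.Ioo (1 : ℝ) 2 :=
    Ioo_mem_nhdsGT (by norm_num)
  obtain ⟨t, ht1, ht2⟩ := (h2.and h3).exists
  refine ⟨t, ht2.1, ht2.2, ?_⟩
  rw [slope_def_field, h0, sub_zero] at ht1
  have h4 : 0 < t - 1 := by linarith [ht2.1]
  have h5 : D t = D t / (t - 1) * (t - 1) := by
    rw [div_mul_cancel₀ _ (ne_of_gt h4)]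
  show D t < 0
  rw [h5]
  exact mul_neg_of_neg_of_pos ht1 h4

end Pool.Agent.H863R2.NL
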