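import Pool.Agent.H863R2.NL.Defs
import Pool.Agent.H863R2.NL.Cmp

namespace Pool.Agent.H863R2.NL
open H974 H906.Cyl Finset
namespace RecAux

theorem rec_core {u : ℕ → ℝ} {κ C2 : ℝ} (hu1 : ∀ r, u r ≤ 1)
    (hanti : ∀ k k' : ℕ, k ≤ k' → u k' ≤ u k) (hκ : -(1/2) ≤ κ) (hκ0 : κ ≤ 0) (hC2 : 0 ≤ C2)
    (h : ∀ a : ℕ, 0 < a → u (4 * a) ≤ C2 * ((10 * a : ℕ) : ℝ) ^ κ + 1 / 4 * u (2 * a - 1)) :
    ∀ r : ℕ, 1 ≤ r → u r ≤ (20 + 2 * C2) * (r : ℝ) ^ κ := by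
  intro r
  induction r using Nat.strong_induction_on with
  | _ r ih =>
    intro hr
    have hr1 : (1 : ℝ) ≤ r := by exact_mod_cast hr
    have hpos : (0 : ℝ) < (r : ℝ) ^ κ := Real.rpow_pos_of_pos (by linarith) _
    rcases Nat.lt_or_ge r 20 with h20 | h20
    · have h1 : (r : ℝ) ^ (-1 : ℝ) ≤ (r : ℝ) ^ κ :=
        Real.rpow_le_rpow_of_exponent_le hr1 (by linarith)
      rw [Real.rpow_neg_one] at h1
      have h2 : (1 : ℝ) ≤ 20 * (r : ℝ)⁻¹ := by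
        rw [← div_eq_mul_inv, le_div_iff₀ (by linarith)]
        have : (r : ℝ) < 20 := by exact_mod_cast h20
        linarith
      calc u r ≤ 1 := hu1 r
        _ ≤ 20 * (r : ℝ)⁻¹ := h2
        _ ≤ 20 * (r : ℝ) ^ κ := by linarith
        _ ≤ (20 + 2 * C2) * (r : ℝ) ^ κ := by
          have : 0 ≤ 2 * C2 * (r : ℝ) ^ κ := by positivity
          nlinarith
    · obtain ⟨a, ha⟩ : ∃ a : ℕ, a = r / 4 := ⟨_, rfl⟩
      have e1 : 4 * a ≤ r := by omega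
      have e2 : r ≤ 4 * a + 3 := by omega
      have e3 : 0 < a := by omega
      have h1 := hanti (4 * a) r e1
      have h2 := h a e3
      have h3 := ih (2 * a - 1) (by omega) (by omega)
      have h4 : ((10 * a : ℕ) : ℝ) ^ κ ≤ (r : ℝ) ^ κ := by
        apply Real.rpow_le_rpow_of_nonpos (by linarith) _ hκ0
        have : r ≤ 10 * a := by omega
        exact_mod_cast this
      have h5 : ((2 * a - 1 : ℕ) : ℝ) ^ κ ≤ 2 * (r : ℝ) ^ κ := by
        have h6 : ((2 * a - 1 : ℕ) : ℝ) ^ κ ≤ ((r : ℝ) / 4) ^ κ := by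
          apply Real.rpow_le_rpow_of_nonpos (by linarith) _ hκ0
          have : r ≤ 4 * (2 * a - 1) := by omega
          have h7 : (r : ℝ) ≤ 4 * ((2 * a - 1 : ℕ) : ℝ) := by exact_mod_cast this
          linarith
        refine h6.trans ?_
        rw [Real.div_rpow (by linarith) (by norm_num)]
        have h8 : (1 / 2 : ℝ) ≤ (4 : ℝ) ^ κ := by
          have : (4 : ℝ) ^ (-(1/2) : ℝ) ≤ (4 : ℝ) ^ κ :=
            Real.rpow_le_rpow_of_exponent_le (by norm_num) hκ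
          refine le_trans (le_of_eq ?_) this
          rw [Real.rpow_neg (by norm_num), show (4 : ℝ) = 2 ^ (2 : ℝ) by norm_num,
            ← Real.rpow_mul (by norm_num)]
          norm_num
        rw [div_le_iff₀ (by linarith)]
        nlinarith
      have h9 : 1 / 4 * u (2 * a - 1) ≤ 1 / 4 * ((20 + 2 * C2) * (2 * (r : ℝ) ^ κ)) := by
        have : (20 + 2 * C2) * ((2 * a - 1 : ℕ) : ℝ) ^ κ ≤ (20 + 2 * C2) * (2 * (r : ℝ) ^ κ) :=
          mul_le_mul_of_nonneg_left h5 (by linarith)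
        linarith
      have h10 : C2 * ((10 * a : ℕ) : ℝ) ^ κ ≤ C2 * (r : ℝ) ^ κ :=
        mul_le_mul_of_nonneg_left h4 hC2
      nlinarith

theorem ET_nonneg (k : ℕ) {g : ℕ → ℝ} (h : ∀ m, 0 ≤ g m) : 0 ≤ ET k g := by
  have := ET_le_ET (k := k) (g := fun _ => 0) (g' := g) h
  rwa [ET_const] at this

theorem EN_nonneg (n : ℕ) {g : ℕ → ℝ} (h : ∀ m, 0 ≤ g m) : 0 ≤ EN n g := by
  have := EN_mono (n := n) (g := fun _ => 0) (g' := g) h
  rwa [EN_const] at this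

theorem exists_k : ∃ k : ℕ, 6 * (1 - (1/2 : ℝ) ^ 47) ^ (k + 1) ≤ 1 / 4 := by
  obtain ⟨k, hk⟩ := exists_pow_lt_of_lt_one (show (0 : ℝ) < 1 / 24 by norm_num)
    (show (1 - (1/2 : ℝ) ^ 47) < 1 by
      have : (0 : ℝ) < (1/2) ^ 47 := by positivity
      linarith)
  refine ⟨k, ?_⟩
  have h0 : 0 ≤ (1 - (1/2 : ℝ) ^ 47) := by
    have : (1/2 : ℝ) ^ 47 ≤ 1 := pow_le_one₀ (by norm_num) (by norm_num)
    linarith
  have h1 : (1 - (1/2 : ℝ) ^ 47) ≤ 1 := by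
    have : (0 : ℝ) < (1/2) ^ 47 := by positivity
    linarith
  have h2 : (1 - (1/2 : ℝ) ^ 47) ^ (k + 1) ≤ (1 - (1/2 : ℝ) ^ 47) ^ k :=
    pow_le_pow_of_le_one h0 h1 (Nat.le_succ k)
  linarith

end RecAux

theorem ET_pow_upper {t κ C1 : ℝ} (ht : 0 < t) (ht1 : t ≤ 1) (hκ : -(1 / 2) ≤ κ) (hκ0 : κ ≤ 0)
    (h : ∀ n : ℕ, 1 ≤ n → EN n (fun m => t ^ m) ≤ C1 * (n : ℝ) ^ κ) :
    ∃ C : ℝ, 0 < C ∧ ∀ r : ℕ, 1 ≤ r → ET r (fun m => t ^ m) ≤ C * (r : ℝ) ^ κ := by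
  obtain ⟨k, hk⟩ := RecAux.exists_k
  have hg : Antitone (fun m : ℕ => t ^ m) := fun a b hab => pow_le_pow_of_le_one ht.le ht1 hab
  have h0 : ∀ m : ℕ, 0 ≤ t ^ m := fun m => by positivity
  have hC1 : 0 ≤ C1 := by
    have h1 := h 1 le_rfl
    have h2 := RecAux.EN_nonneg 1 h0
    simp only [Nat.cast_one, Real.one_rpow, mul_one] at h1
    linarith
  have hs : (0 : ℝ) < t ^ (1 + 10 * k) := by positivity
  have hfun : (fun m : ℕ => t ^ (m + 1 + 10 * k)) = fun m => t ^ (1 + 10 * k) * t ^ m := by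
    funext m
    rw [← pow_add]
    congr 1
    omega
  refine ⟨20 + 2 * (C1 / t ^ (1 + 10 * k)), by positivity, ?_⟩
  refine RecAux.rec_core (u := fun r => ET r (fun m => t ^ m)) ?_ ?_ hκ hκ0 (by positivity) ?_
  · intro r
    have := ET_le_ET (k := r) (g := fun m => t ^ m) (g' := fun _ => 1)
      (fun m => pow_le_one₀ ht.le ht1)
    rwa [ET_const] at this
  · intro k k' hkk
    exact ET_anti hkk hg
  · intro a ha
    have h1 := EN_ge k ha hg h0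
    simp only [hfun, ET_mul] at h1
    have h2 := h (10 * a) (by omega)
    have h3 := RecAux.ET_nonneg (2 * a - 1) h0
    have h4 : 6 * (1 - (1/2 : ℝ) ^ 47) ^ (k + 1) *
        (t ^ (1 + 10 * k) * ET (2 * a - 1) fun m => t ^ m) ≤
        1 / 4 * (t ^ (1 + 10 * k) * ET (2 * a - 1) fun m => t ^ m) :=
      mul_le_mul_of_nonneg_right hk (by positivity)
    have h5 : t ^ (1 + 10 * k) * ET (4 * a) (fun m => t ^ m) ≤
        t ^ (1 + 10 * k) * (C1 / t ^ (1 + 10 * k) * ((10 * a : ℕ) : ℝ) ^ κ +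
          1 / 4 * ET (2 * a - 1) (fun m => t ^ m)) := by
      have h6 : t ^ (1 + 10 * k) * (C1 / t ^ (1 + 10 * k) * ((10 * a : ℕ) : ℝ) ^ κ) =
          C1 * ((10 * a : ℕ) : ℝ) ^ κ := by
        field_simp
      rw [mul_add, h6]
      linarith
    exact le_of_mul_le_mul_left h5 hs

end Pool.Agent.H863R2.NL
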