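import Pool.Agent.H863R2.NL.Defs
import Pool.Agent.H863R2.NL.Rec
import Pool.Agent.H863R2.NL.PsSum
import Pool.Agent.H863R2.NL.Psi
import Pool.Agent.H863R2.NL.Cmp
import Pool.Agent.H863R2.NL.Avg

/-!
# Nesting law: exponents and mean in the plane
-/

namespace Pool.Agent.H863R2.NL
open H974 H906.Cyl Finset
open scoped Real

namespace PowAux

theorem anti_pow {t : ℝ} (ht : 0 < t) (ht1 : t ≤ 1) : Antitone (fun m : ℕ => t ^ m) :=
  fun _ _ h => pow_le_pow_of_le_one ht.le ht1 h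

theorem mono_pow {t : ℝ} (ht : 1 < t) : Monotone (fun m : ℕ => t ^ m) :=
  fun _ _ h => pow_le_pow_right₀ ht.le h

theorem mono_id : Monotone (fun m : ℕ => (m : ℝ)) := fun _ _ h => Nat.cast_le.2 h

theorem cN_pos : 0 < cN := by
  unfold cN
  positivity

end PowAux

open PowAux

theorem ET_pow {t : ℝ} (ht : 0 < t) (ht1 : t ≤ 1) : ∃ c C : ℝ, 0 < c ∧ 0 < C ∧ ∀ r : ℕ, 1 ≤ r →
    c * (r : ℝ) ^ psi t ≤ ET r (fun m => t ^ m) ∧ ET r (fun m => t ^ m) ≤ C * (r : ℝ) ^ psi t := by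
  obtain ⟨c, C1, hc, hC1, hE⟩ := EN_pow t ht (by linarith)
  have hp0 : psi t ≤ 0 := psi_le ht ht1
  have hp1 : -(1 / 2 : ℝ) ≤ psi t := by
    have := psi_ge ht.le
    linarith
  obtain ⟨C, hC, hU⟩ := ET_pow_upper ht ht1 hp1 hp0 (fun n hn => (hE n hn).2)
  refine ⟨c * (3 : ℝ) ^ psi t, C, by positivity, hC, ?_⟩
  intro r hr
  refine ⟨?_, hU r hr⟩
  have hr' : (1 : ℝ) ≤ r := by exact_mod_cast hr
  have h1 : EN (2 * r + 1) (fun m => t ^ m) ≤ ET r (fun m => t ^ m) :=
    EN_le (by omega) (anti_pow ht ht1)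
  have h2 := (hE (2 * r + 1) (by omega)).1
  have h3 : (3 * (r : ℝ)) ^ psi t ≤ ((2 * r + 1 : ℕ) : ℝ) ^ psi t := by
    apply Real.rpow_le_rpow_of_nonpos
    · push_cast; positivity
    · push_cast; linarith
    · exact hp0
  rw [Real.mul_rpow (by norm_num) (by positivity)] at h3
  calc c * (3 : ℝ) ^ psi t * (r : ℝ) ^ psi t = c * ((3 : ℝ) ^ psi t * (r : ℝ) ^ psi t) := by ring
    _ ≤ c * ((2 * r + 1 : ℕ) : ℝ) ^ psi t := by gcongr
    _ ≤ EN (2 * r + 1) (fun m => t ^ m) := h2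
    _ ≤ _ := h1

theorem ET_pow_gt {t : ℝ} (ht : 1 < t) (ht1 : t < 2) : ∃ C : ℝ, 0 < C ∧ ∀ r : ℕ, 1 ≤ r →
    ET r (fun m => t ^ m) ≤ C * (r : ℝ) ^ psi t := by
  obtain ⟨c, C1, hc, hC1, hE⟩ := EN_pow t (by linarith) ht1
  refine ⟨C1 * max 1 ((3 : ℝ) ^ psi t), by positivity, ?_⟩
  intro r hr
  have hr' : (1 : ℝ) ≤ r := by exact_mod_cast hr
  have h1 : ET r (fun m => t ^ m) ≤ EN (2 * r + 1) (fun m => t ^ m) :=
    ET_le (by omega) (mono_pow ht)
  have h2 := (hE (2 * r + 1) (by omega)).2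
  have hrp : 0 ≤ (r : ℝ) ^ psi t := by positivity
  have h3 : ((2 * r + 1 : ℕ) : ℝ) ^ psi t ≤ max 1 ((3 : ℝ) ^ psi t) * (r : ℝ) ^ psi t := by
    rcases le_total 0 (psi t) with h | h
    · calc ((2 * r + 1 : ℕ) : ℝ) ^ psi t ≤ (3 * (r : ℝ)) ^ psi t := by
            apply Real.rpow_le_rpow _ _ h
            · push_cast; positivity
            · push_cast; linarith
        _ = (3 : ℝ) ^ psi t * (r : ℝ) ^ psi t := Real.mul_rpow (by norm_num) (by positivity)
        _ ≤ max 1 ((3 : ℝ) ^ psi t) * (r : ℝ) ^ psi t := by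
            gcongr
            exact le_max_right _ _
    · calc ((2 * r + 1 : ℕ) : ℝ) ^ psi t ≤ (r : ℝ) ^ psi t := by
            apply Real.rpow_le_rpow_of_nonpos _ _ h
            · positivity
            · push_cast; linarith
        _ = 1 * (r : ℝ) ^ psi t := by ring
        _ ≤ max 1 ((3 : ℝ) ^ psi t) * (r : ℝ) ^ psi t := by
            gcongr
            exact le_max_left _ _
  calc ET r (fun m => t ^ m) ≤ EN (2 * r + 1) (fun m => t ^ m) := h1
    _ ≤ C1 * ((2 * r + 1 : ℕ) : ℝ) ^ psi t := h2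
    _ ≤ C1 * (max 1 ((3 : ℝ) ^ psi t) * (r : ℝ) ^ psi t) := by gcongr
    _ = _ := by ring

theorem ET_mean : ∃ C : ℝ, ∀ r : ℕ, 1 ≤ r → |ET r (fun m => (m : ℝ)) - cN * Real.log r| ≤ C := by
  obtain ⟨C, hC⟩ := EN_id
  have hC0 : 0 ≤ C := (abs_nonneg _).trans (hC 1 le_rfl)
  have hcN := cN_pos
  refine ⟨C + cN * Real.log 4 + (1 + 60 * 2 ^ 47), ?_⟩
  intro r hr
  have hr' : (1 : ℝ) ≤ r := by exact_mod_cast hr
  have hlog3 : 0 ≤ Real.log 3 := Real.log_nonneg (by norm_num)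
  have hlog4 : 0 ≤ Real.log 4 := Real.log_nonneg (by norm_num)
  have hlog34 : Real.log 3 ≤ Real.log 4 := Real.log_le_log (by norm_num) (by norm_num)
  rw [abs_le]
  constructor
  · by_cases h4 : r < 4
    · have h0 : 0 ≤ ET r (fun m => (m : ℝ)) := by
        rw [← ET_const r 0]
        exact ET_le_ET (fun m => by positivity)
      have h1 : Real.log r ≤ Real.log 4 := by
        apply Real.log_le_log (by linarith)
        have : (r : ℝ) < 4 := by exact_mod_cast h4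
        linarith
      have h2 : cN * Real.log r ≤ cN * Real.log 4 := by gcongr
      have h3 : (0 : ℝ) ≤ 1 + 60 * 2 ^ 47 := by positivity
      linarith
    · push Not at h4
      obtain ⟨a, ha⟩ : ∃ a, a = r / 4 := ⟨_, rfl⟩
      have ha0 : 0 < a := by omega
      have h1 : ET (4 * a) (fun m => (m : ℝ)) ≤ ET r (fun m => (m : ℝ)) :=
        ET_mono (by omega) mono_id
      have h2 := EN_mean ha0
      have h3 := (abs_le.1 (hC (10 * a) (by omega))).1
      have h4 : cN * Real.log r ≤ cN * Real.log ((10 * a : ℕ) : ℝ) := by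
        have h5 : (r : ℝ) ≤ ((10 * a : ℕ) : ℝ) := by
          have : r ≤ 10 * a := by omega
          exact_mod_cast this
        have := Real.log_le_log (by linarith) h5
        gcongr
      have h5 : 0 ≤ cN * Real.log 4 := by positivity
      linarith
  · have h1 : ET r (fun m => (m : ℝ)) ≤ EN (2 * r + 1) (fun m => (m : ℝ)) :=
      ET_le (by omega) mono_id
    have h2 := (abs_le.1 (hC (2 * r + 1) (by omega))).2
    have h3 : Real.log ((2 * r + 1 : ℕ) : ℝ) ≤ Real.log 3 + Real.log r := by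
      rw [← Real.log_mul (by norm_num) (by linarith)]
      apply Real.log_le_log
      · push_cast; positivity
      · push_cast; linarith
    have h4 : cN * Real.log ((2 * r + 1 : ℕ) : ℝ) ≤ cN * (Real.log 3 + Real.log r) := by gcongr
    have h5 : cN * Real.log 3 ≤ cN * Real.log 4 := by gcongr
    have h6 : (0 : ℝ) ≤ 1 + 60 * 2 ^ 47 := by positivity
    rw [mul_add] at h4
    linarith

end Pool.Agent.H863R2.NL
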