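import Pool.Agent.H863R2.NL.Defs
import Pool.Agent.H863R2.NL.Avg
import Pool.Agent.H863R2.NL.Inf
import Pool.Agent.H863R2.NL.Pow
import Pool.Agent.H863R2.NL.Psi

/-! Module AS: almost sure convergence of the number of nested layers. -/

namespace Pool.Agent.H863R2.NL
open H974 H906.Cyl Finset
open MeasureTheory Filter
open scoped Topology

namespace ASAux

/-- lower tail -/
theorem low_tail {ε : ℝ} (hε : 0 < ε) : ∃ C δ : ℝ, 0 < C ∧ 0 < δ ∧ ∀ r : ℕ, 1 ≤ r →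
    ET r (fun m => ind ((m : ℝ) ≤ (cN - ε) * Real.log r)) ≤ C * (r : ℝ) ^ (-δ) := by
  obtain ⟨t, ht0, ht1, hpsi⟩ := psi_low hε
  obtain ⟨c, C, hc, hC, h⟩ := ET_pow ht0 ht1.le
  refine ⟨C, -(psi t - (cN - ε) * Real.log t), hC, by linarith, fun r hr => ?_⟩
  have hr0 : (0 : ℝ) < r := by exact_mod_cast hr
  have h1 : ∀ m : ℕ, ind ((m : ℝ) ≤ (cN - ε) * Real.log r) ≤
      t ^ (-((cN - ε) * Real.log r)) * t ^ m := by
    intro m
    rw [← Real.rpow_natCast t m, ← Real.rpow_add ht0]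
    by_cases hm : (m : ℝ) ≤ (cN - ε) * Real.log r
    · rw [ind_of hm]
      exact Real.one_le_rpow_of_pos_of_le_one_of_nonpos ht0 ht1.le (by linarith)
    · rw [ind_not_of hm]
      positivity
  have h2 : t ^ (-((cN - ε) * Real.log r)) * (C * (r : ℝ) ^ psi t) =
      C * (r : ℝ) ^ (-(-(psi t - (cN - ε) * Real.log t))) := by
    rw [Real.rpow_def_of_pos ht0, Real.rpow_def_of_pos hr0, Real.rpow_def_of_pos hr0,
      mul_left_comm, ← Real.exp_add]
    congr 2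
    ring
  calc ET r (fun m => ind ((m : ℝ) ≤ (cN - ε) * Real.log r))
      ≤ ET r (fun m => t ^ (-((cN - ε) * Real.log r)) * t ^ m) := ET_le_ET h1
    _ = t ^ (-((cN - ε) * Real.log r)) * ET r (fun m => t ^ m) := ET_mul _ _ _
    _ ≤ t ^ (-((cN - ε) * Real.log r)) * (C * (r : ℝ) ^ psi t) :=
        mul_le_mul_of_nonneg_left (h r hr).2 (Real.rpow_nonneg ht0.le _)
    _ = _ := h2

/-- upper tail -/
theorem up_tail {ε : ℝ} (hε : 0 < ε) : ∃ C δ : ℝ, 0 < C ∧ 0 < δ ∧ ∀ r : ℕ, 1 ≤ r →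
    ET r (fun m => ind ((cN + ε) * Real.log r ≤ (m : ℝ))) ≤ C * (r : ℝ) ^ (-δ) := by
  obtain ⟨t, ht1, ht2, hpsi⟩ := psi_up hε
  obtain ⟨C, hC, h⟩ := ET_pow_gt ht1 ht2
  have ht0 : 0 < t := by linarith
  refine ⟨C, -(psi t - (cN + ε) * Real.log t), hC, by linarith, fun r hr => ?_⟩
  have hr0 : (0 : ℝ) < r := by exact_mod_cast hr
  have h1 : ∀ m : ℕ, ind ((cN + ε) * Real.log r ≤ (m : ℝ)) ≤
      t ^ (-((cN + ε) * Real.log r)) * t ^ m := by
    intro m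
    rw [← Real.rpow_natCast t m, ← Real.rpow_add ht0]
    by_cases hm : (cN + ε) * Real.log r ≤ (m : ℝ)
    · rw [ind_of hm]
      exact Real.one_le_rpow ht1.le (by linarith)
    · rw [ind_not_of hm]
      positivity
  have h2 : t ^ (-((cN + ε) * Real.log r)) * (C * (r : ℝ) ^ psi t) =
      C * (r : ℝ) ^ (-(-(psi t - (cN + ε) * Real.log t))) := by
    rw [Real.rpow_def_of_pos ht0, Real.rpow_def_of_pos hr0, Real.rpow_def_of_pos hr0,
      mul_left_comm, ← Real.exp_add]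
    congr 2
    ring
  calc ET r (fun m => ind ((cN + ε) * Real.log r ≤ (m : ℝ)))
      ≤ ET r (fun m => t ^ (-((cN + ε) * Real.log r)) * t ^ m) := ET_le_ET h1
    _ = t ^ (-((cN + ε) * Real.log r)) * ET r (fun m => t ^ m) := ET_mul _ _ _
    _ ≤ t ^ (-((cN + ε) * Real.log r)) * (C * (r : ℝ) ^ psi t) :=
        mul_le_mul_of_nonneg_left (h r hr) (Real.rpow_nonneg ht0.le _)
    _ = _ := h2

/-- Borel-Cantelli along the powers of two -/
theorem bc {P : ℕ → ℕ → Prop} {C δ : ℝ} (hδ : 0 < δ)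
    (h : ∀ r : ℕ, 1 ≤ r → ET r (fun m => ind (P r m)) ≤ C * (r : ℝ) ^ (-δ)) :
    ∀ᵐ ω ∂(bondLaw hlf), ∀ᶠ j : ℕ in atTop, ¬ P (2 ^ j) (changes (2 ^ j) ω) := by
  have hs : ∑' j : ℕ, (bondLaw hlf) {ω | P (2 ^ j) (changes (2 ^ j) ω)} ≠ ⊤ := by
    have hr : (2 : ℝ) ^ (-δ) < 1 :=
      Real.rpow_lt_one_of_one_lt_of_neg (by norm_num) (by linarith)
    have hsum : Summable (fun j : ℕ => C * ((2 : ℝ) ^ (-δ)) ^ j) :=
      (summable_geometric_of_lt_one (by positivity) hr).mul_left C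
    refine ne_top_of_le_ne_top hsum.tsum_ofReal_ne_top (ENNReal.tsum_le_tsum fun j => ?_)
    rw [← ofReal_measureReal, prob_changes (2 ^ j) (P (2 ^ j))]
    refine ENNReal.ofReal_le_ofReal ((h (2 ^ j) Nat.one_le_two_pow).trans (le_of_eq ?_))
    congr 1
    push_cast
    rw [← Real.rpow_natCast, ← Real.rpow_natCast, ← Real.rpow_mul (by norm_num),
      ← Real.rpow_mul (by norm_num), mul_comm]
  exact ae_eventually_notMem hs

/-- from the powers of two to all radii -/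
theorem sqz {a : ℕ → ℕ} (ha : ∀ n m, n ≤ m → a n ≤ a m) {c : ℝ}
    (h : Tendsto (fun j : ℕ => (a (2 ^ j) : ℝ) / Real.log ((2 ^ j : ℕ) : ℝ)) atTop (𝓝 c)) :
    Tendsto (fun n : ℕ => (a n : ℝ) / Real.log n) atTop (𝓝 c) := by
  have hl2 : 0 < Real.log 2 := Real.log_pos (by norm_num)
  have hlog : ∀ j : ℕ, Real.log ((2 ^ j : ℕ) : ℝ) = j * Real.log 2 := by
    intro j
    push_cast
    rw [Real.log_pow]
  have hq : Tendsto (fun j : ℕ => (j : ℝ) / ((j : ℝ) + 1)) atTop (𝓝 1) :=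
    tendsto_natCast_div_add_atTop (1 : ℝ)
  have hq' : Tendsto (fun j : ℕ => ((j : ℝ) / ((j : ℝ) + 1))⁻¹) atTop (𝓝 1) := by
    have := hq.inv₀ one_ne_zero
    rwa [inv_one] at this
  have hJ : Tendsto (fun n : ℕ => Nat.log 2 n) atTop atTop := by
    refine tendsto_atTop.2 fun b => ?_
    filter_upwards [eventually_ge_atTop (2 ^ b)] with n hn
    exact Nat.le_log_of_pow_le (by norm_num) hn
  have hL : Tendsto (fun j : ℕ => (a (2 ^ j) : ℝ) / Real.log ((2 ^ j : ℕ) : ℝ) *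
      ((j : ℝ) / ((j : ℝ) + 1))) atTop (𝓝 c) := by
    have := h.mul hq
    rwa [mul_one] at this
  have hU : Tendsto (fun j : ℕ => (a (2 ^ (j + 1)) : ℝ) / Real.log ((2 ^ (j + 1) : ℕ) : ℝ) *
      ((j : ℝ) / ((j : ℝ) + 1))⁻¹) atTop (𝓝 c) := by
    have := (h.comp (tendsto_add_atTop_nat 1)).mul hq'
    rwa [mul_one] at this
  refine tendsto_of_tendsto_of_tendsto_of_le_of_le' (hL.comp hJ) (hU.comp hJ) ?_ ?_
  · filter_upwards [eventually_ge_atTop 2] with n hn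
    have hj : 1 ≤ Nat.log 2 n := Nat.le_log_of_pow_le (by norm_num) (by simpa using hn)
    have hj0 : (0 : ℝ) < (Nat.log 2 n : ℕ) := by exact_mod_cast hj
    have h1 : 2 ^ Nat.log 2 n ≤ n := Nat.pow_log_le_self 2 (by omega)
    have h2 : n < 2 ^ (Nat.log 2 n + 1) := Nat.lt_pow_succ_log_self (by norm_num) n
    have hln : 0 < Real.log n := Real.log_pos (by exact_mod_cast (by omega : 1 < n))
    have h3 : Real.log n ≤ ((Nat.log 2 n : ℕ) + 1 : ℝ) * Real.log 2 := by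
      have := Real.log_le_log (by exact_mod_cast (by omega : 0 < n))
        (show (n : ℝ) ≤ ((2 ^ (Nat.log 2 n + 1) : ℕ) : ℝ) by exact_mod_cast h2.le)
      rw [hlog] at this
      push_cast at this
      exact this
    simp only [Function.comp_apply]
    rw [hlog]
    have e : (a (2 ^ Nat.log 2 n) : ℝ) / ((Nat.log 2 n : ℕ) * Real.log 2) *
        (((Nat.log 2 n : ℕ) : ℝ) / (((Nat.log 2 n : ℕ) : ℝ) + 1)) =
        (a (2 ^ Nat.log 2 n) : ℝ) / ((((Nat.log 2 n : ℕ) : ℝ) + 1) * Real.log 2) := by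
      field_simp
    rw [e]
    have h4 : (a (2 ^ Nat.log 2 n) : ℝ) ≤ a n := by exact_mod_cast ha _ _ h1
    exact div_le_div₀ (Nat.cast_nonneg _) h4 hln h3
  · filter_upwards [eventually_ge_atTop 2] with n hn
    have hj : 1 ≤ Nat.log 2 n := Nat.le_log_of_pow_le (by norm_num) (by simpa using hn)
    have hj0 : (0 : ℝ) < (Nat.log 2 n : ℕ) := by exact_mod_cast hj
    have h1 : 2 ^ Nat.log 2 n ≤ n := Nat.pow_log_le_self 2 (by omega)
    have h2 : n < 2 ^ (Nat.log 2 n + 1) := Nat.lt_pow_succ_log_self (by norm_num) n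
    have h3 : ((Nat.log 2 n : ℕ) : ℝ) * Real.log 2 ≤ Real.log n := by
      have := Real.log_le_log (show (0 : ℝ) < ((2 ^ Nat.log 2 n : ℕ) : ℝ) by positivity)
        (show ((2 ^ Nat.log 2 n : ℕ) : ℝ) ≤ n by exact_mod_cast h1)
      rw [hlog] at this
      exact this
    simp only [Function.comp_apply]
    rw [hlog]
    have e : (a (2 ^ (Nat.log 2 n + 1)) : ℝ) / (((Nat.log 2 n + 1 : ℕ) : ℝ) * Real.log 2) *
        (((Nat.log 2 n : ℕ) : ℝ) / (((Nat.log 2 n : ℕ) : ℝ) + 1))⁻¹ =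
        (a (2 ^ (Nat.log 2 n + 1)) : ℝ) / (((Nat.log 2 n : ℕ) : ℝ) * Real.log 2) := by
      push_cast
      field_simp
    rw [e]
    have h4 : (a n : ℝ) ≤ a (2 ^ (Nat.log 2 n + 1)) := by exact_mod_cast ha _ _ h2.le
    exact div_le_div₀ (Nat.cast_nonneg _) h4 (by positivity) h3

end ASAux

open ASAux

theorem lln : ∀ᵐ ω ∂(bondLaw hlf), Filter.Tendsto
    (fun n : ℕ => (changes n ω : ℝ) / Real.log n) Filter.atTop (nhds cN) := by
  have hlow : ∀ᵐ ω ∂(bondLaw hlf), ∀ k : ℕ, ∀ᶠ j : ℕ in atTop,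
      ¬ ((changes (2 ^ j) ω : ℝ) ≤ (cN - 1 / ((k : ℝ) + 1)) * Real.log ((2 ^ j : ℕ) : ℝ)) := by
    refine ae_all_iff.2 fun k => ?_
    obtain ⟨C, δ, -, hδ, h⟩ := low_tail (ε := 1 / ((k : ℝ) + 1)) (by positivity)
    exact bc (P := fun r m => (m : ℝ) ≤ (cN - 1 / ((k : ℝ) + 1)) * Real.log r) hδ h
  have hup : ∀ᵐ ω ∂(bondLaw hlf), ∀ k : ℕ, ∀ᶠ j : ℕ in atTop,
      ¬ ((cN + 1 / ((k : ℝ) + 1)) * Real.log ((2 ^ j : ℕ) : ℝ) ≤ (changes (2 ^ j) ω : ℝ)) := by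
    refine ae_all_iff.2 fun k => ?_
    obtain ⟨C, δ, -, hδ, h⟩ := up_tail (ε := 1 / ((k : ℝ) + 1)) (by positivity)
    exact bc (P := fun r m => (cN + 1 / ((k : ℝ) + 1)) * Real.log r ≤ (m : ℝ)) hδ h
  filter_upwards [hlow, hup] with ω hl hu
  refine sqz (a := fun n => changes n ω) (fun n m hnm => changes_mono hnm ω) ?_
  rw [Metric.tendsto_atTop]
  intro ε hε
  obtain ⟨k, hk⟩ := exists_nat_one_div_lt hε
  have h := ((hl k).and (hu k)).and (eventually_ge_atTop 1)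
  obtain ⟨N, hN⟩ := eventually_atTop.1 h
  refine ⟨N, fun j hj => ?_⟩
  obtain ⟨⟨h1, h2⟩, h3⟩ := hN j hj
  have hlj : 0 < Real.log ((2 ^ j : ℕ) : ℝ) := by
    refine Real.log_pos ?_
    have : 1 < 2 ^ j := Nat.one_lt_two_pow (by omega)
    exact_mod_cast this
  push Not at h1 h2
  rw [Real.dist_eq, abs_lt]
  constructor
  · have : cN - 1 / ((k : ℝ) + 1) < (changes (2 ^ j) ω : ℝ) / Real.log ((2 ^ j : ℕ) : ℝ) := by
      rw [lt_div_iff₀ hlj]
      exact h1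
    linarith
  · have : (changes (2 ^ j) ω : ℝ) / Real.log ((2 ^ j : ℕ) : ℝ) < cN + 1 / ((k : ℝ) + 1) := by
      rw [div_lt_iff₀ hlj]
      exact h2
    linarith

end Pool.Agent.H863R2.NL
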