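import Pool.Agent.H863R2.NL.Defs

/-!
# Module Bern (helper415): the law on the cylinder is Poisson-binomial
-/

namespace Pool.Agent.H863R2.NL
open H974 H906.Cyl Finset
open Pool.Agent.H863R2.Cyl (Wd Tc rows FSpec push)
open Pool.Agent.H160R2.OA (J IsMu)
open Pool.Agent.H160R2.NE (gf gf_sq)
open scoped Real

namespace BernAux

open Polynomial in
/-- a real polynomial whose square is a multiple of a product of linear factors -/
theorem poly_split {N : ℕ} (A : Fin N → ℝ) (hA : ∀ i, 2 ≤ A i) (P : ℝ[X]) (hP1 : P.eval 1 = 1)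
    (h : C (∏ i, (A i + 1)) * P ^ 2 = ∏ i, (X + C (A i))) : ∃ s : Multiset ℝ,
    (∀ p ∈ s, 0 < p ∧ p ≤ 1 / 3) ∧
    (∀ t : ℂ, aeval t P = (s.map (fun p : ℝ => 1 + (p : ℂ) * (t - 1))).prod) ∧
    ∀ g : ℝ → ℝ, 2 * (s.map g).sum = ∑ i, g (1 / (A i + 1)) := by
  have hc : (∏ i, (A i + 1)) ≠ 0 := Finset.prod_ne_zero_iff.2 fun i _ => by
    have := hA i
    linarith
  set M : Multiset ℝ := Finset.univ.val.map (fun i => -A i) with hM
  have hQ : ∏ i, (X + C (A i)) = (M.map (fun a => X - C a)).prod := by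
    rw [hM, Multiset.map_map]
    show _ = ∏ i, (X - C (-A i))
    apply Finset.prod_congr rfl
    intro i _
    rw [C_neg, sub_neg_eq_add]
  have hroots : 2 • P.roots = M := by
    have h1 := congrArg Polynomial.roots h
    rw [Polynomial.roots_C_mul _ hc, Polynomial.roots_pow, hQ,
      Polynomial.roots_multiset_prod_X_sub_C] at h1
    exact h1
  have hmem : ∀ ρ ∈ P.roots, ∃ i, ρ = -A i := by
    intro ρ hρ
    have h1 : ρ ∈ M := by
      rw [← hroots, Multiset.mem_nsmul]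
      exact ⟨two_ne_zero, hρ⟩
    rw [hM, Multiset.mem_map] at h1
    obtain ⟨i, _, hi⟩ := h1
    exact ⟨i, hi.symm⟩
  have hneg : ∀ ρ ∈ P.roots, 3 ≤ 1 - ρ := by
    intro ρ hρ
    obtain ⟨i, rfl⟩ := hmem ρ hρ
    have := hA i
    linarith
  have hcard : Multiset.card P.roots = P.natDegree := by
    have h1 : Multiset.card (2 • P.roots) = Multiset.card M := by rw [hroots]
    rw [Multiset.card_nsmul, hM, Multiset.card_map] at h1
    have h2 := congrArg Polynomial.natDegree h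
    rw [Polynomial.natDegree_C_mul hc, Polynomial.natDegree_pow, hQ,
      Polynomial.natDegree_multiset_prod_X_sub_C_eq_card, hM, Multiset.card_map] at h2
    omega
  have hfac := Polynomial.C_leadingCoeff_mul_prod_multiset_X_sub_C hcard
  have hev : ∀ t : ℂ, aeval t P = (P.leadingCoeff : ℂ) *
      (P.roots.map (fun ρ : ℝ => t - (ρ : ℂ))).prod := by
    intro t
    conv_lhs => rw [← hfac]
    rw [map_mul, aeval_C, map_multiset_prod, Multiset.map_map]
    congr 2
    apply Multiset.map_congr rfl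
    intro ρ _
    simp
  have h1c : (1 : ℂ) = (P.leadingCoeff : ℂ) * (P.roots.map (fun ρ : ℝ => (1 : ℂ) - (ρ : ℂ))).prod := by
    rw [← hev 1]
    have := Polynomial.aeval_algebraMap_apply ℂ (1 : ℝ) P
    rw [Polynomial.coe_aeval_eq_eval, hP1] at this
    simpa using this.symm
  refine ⟨P.roots.map (fun ρ => 1 / (1 - ρ)), ?_, ?_, ?_⟩
  · intro p hp
    rw [Multiset.mem_map] at hp
    obtain ⟨ρ, hρ, rfl⟩ := hp
    have := hneg ρ hρ
    refine ⟨by positivity, ?_⟩
    exact one_div_le_one_div_of_le (by norm_num) this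
  · intro t
    rw [hev t, Multiset.map_map]
    have e : P.roots.map (fun ρ : ℝ => t - (ρ : ℂ)) = P.roots.map (fun ρ : ℝ => ((1 : ℂ) - (ρ : ℂ)) *
        (1 + ((1 / (1 - ρ) : ℝ) : ℂ) * (t - 1))) := by
      apply Multiset.map_congr rfl
      intro ρ hρ
      have h3 := hneg ρ hρ
      have h4 : (1 : ℂ) - (ρ : ℂ) ≠ 0 := by
        have : ((1 - ρ : ℝ) : ℂ) ≠ 0 := by
          rw [Complex.ofReal_ne_zero]
          linarith
        simpa using this
      push_cast
      field_simp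
      ring
    rw [e, Multiset.prod_map_mul, ← mul_assoc, ← h1c, one_mul]
    rfl
  · intro g
    have e1 : 2 * ((P.roots.map (fun ρ => 1 / (1 - ρ))).map g).sum =
        ((2 • P.roots).map (fun ρ => g (1 / (1 - ρ)))).sum := by
      rw [Multiset.map_nsmul, Multiset.sum_nsmul, Multiset.map_map, nsmul_eq_mul]
      rfl
    rw [e1, hroots, hM, Multiset.map_map]
    show ∑ i, g (1 / (1 - -A i)) = _
    apply Finset.sum_congr rfl
    intro i _
    rw [sub_neg_eq_add, add_comm]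

end BernAux

open BernAux in
theorem bern {n : ℕ} (hn : 1 ≤ n) : ∃ s : Multiset ℝ, (∀ p ∈ s, 0 < p ∧ p ≤ 1 / 3) ∧
    (∀ t : ℂ, (∑ σ : Wd (2 * n - 1 + 1), ∑ τ : Wd (2 * n - 1 + 1),
      (mu n σ : ℂ) * mu n τ * t ^ fN σ.1 τ.1) = (s.map (fun p : ℝ => 1 + (p : ℂ) * (t - 1))).prod) ∧
    ∃ (hJ : (J (2 * n)).IsHermitian) (ν : Fin (2 * n) → ℝ), IsMu (2 * n) hJ ν ∧
      ∀ g : ℝ → ℝ, 2 * (s.map g).sum =
        ∑ i, g (1 / (2 * Real.cosh (Real.log (ν i)) + 1)) := by
  classical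
  have hm1 : 2 * n - 1 + 1 = 2 * n := by omega
  have hJ : (J (2 * n)).IsHermitian := Pool.Agent.H160R2.OA.Z_herm (2 * n)
  obtain ⟨ν, hν⟩ := Pool.Agent.H160R2.OA.det_wB (2 * n) (by omega) hJ
  set A : Fin (2 * n) → ℝ := fun i => 2 * Real.cosh (Real.log (ν i)) with hA
  have hA2 : ∀ i, 2 ≤ A i := by
    intro i
    have := Real.one_le_cosh (Real.log (ν i))
    rw [hA]
    simp only
    linarith
  set P : Polynomial ℝ := ∑ σ : Wd (2 * n - 1 + 1), ∑ τ : Wd (2 * n - 1 + 1),
    Polynomial.C (mu n σ * mu n τ) * Polynomial.X ^ fN σ.1 τ.1 with hP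
  have hPt : ∀ t : ℂ, Polynomial.aeval t P = gf fN (mu n) t := by
    intro t
    rw [hP, map_sum]
    unfold gf
    apply Finset.sum_congr rfl
    intro σ _
    rw [map_sum]
    apply Finset.sum_congr rfl
    intro τ _
    rw [map_mul, Polynomial.aeval_C, map_pow, Polynomial.aeval_X]
    simp
  have hPr : ∀ t : ℝ, ((P.eval t : ℝ) : ℂ) = gf fN (mu n) (t : ℂ) := by
    intro t
    rw [← hPt]
    have := Polynomial.aeval_algebraMap_apply ℂ t P
    rw [Polynomial.coe_aeval_eq_eval] at this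
    exact this.symm
  have hP1 : P.eval 1 = 1 := by
    have h1 := hPr 1
    rw [Complex.ofReal_one, Pool.Agent.H160R2.NE.gf_one fN (mu n) (mu_sum n)] at h1
    exact_mod_cast h1
  have hid : Polynomial.C (∏ i, (A i + 1)) * P ^ 2 = ∏ i, (Polynomial.X + Polynomial.C (A i)) := by
    apply Polynomial.eq_of_infinite_eval_eq
    apply (Set.Ici_infinite (0 : ℝ)).mono
    intro t ht
    have ht0 : (0:ℝ) ≤ t := ht
    show Polynomial.eval t _ = Polynomial.eval t _
    rw [Polynomial.eval_mul, Polynomial.eval_C, Polynomial.eval_pow, Polynomial.eval_prod]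
    simp only [Polynomial.eval_add, Polynomial.eval_X, Polynomial.eval_C]
    have h1 := gf_sq hm1 fN_spec (mu n) (mu_sum n) (mu_stat n) hν (t := (t : ℂ)) (by
      intro h
      have : t = -2 := by
        have h2 := congrArg Complex.re h
        simpa using h2
      linarith)
    rw [← hPr t] at h1
    have h3 : (((∏ i, (A i + 1)) * P.eval t ^ 2 : ℝ) : ℂ) = ((∏ i, (t + A i) : ℝ) : ℂ) := by
      push_cast
      rw [mul_comm]
      have e1 : ∏ i, ((A i : ℂ) + 1) = ∏ i, ((2 * Real.cosh (Real.log (ν i)) : ℝ) + 1 : ℂ) := rfl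
      have e2 : ∏ i, ((t : ℂ) + (A i : ℂ)) = ∏ i, ((2 * Real.cosh (Real.log (ν i)) : ℝ) + (t : ℂ)) := by
        apply Finset.prod_congr rfl
        intro i _
        rw [add_comm]
      rw [e1, e2]
      exact h1
    exact_mod_cast h3
  obtain ⟨s, hs1, hs2, hs3⟩ := poly_split A hA2 P hP1 hid
  refine ⟨s, hs1, ?_, hJ, ν, hν, hs3⟩
  intro t
  rw [← hs2 t, hPt t]
  rfl

end Pool.Agent.H863R2.NL
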