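import Pool.Agent.H863R2.NL.PsSum

/-!
# Module CLT (helper415): central limit theorem for the number of nested loops on the cylinder
-/

namespace Pool.Agent.H863R2.NL
open H974 H906.Cyl Finset
open Pool.Agent.H863R2.Cyl (Wd Tc rows FSpec push)
open scoped Real

namespace CLTAux

open MeasureTheory ProbabilityTheory Filter Topology

theorem cdf_tendsto (μ : ℕ → Measure ℝ) [∀ n, IsProbabilityMeasure (μ n)] (v : NNReal)
    (hv : v ≠ 0)
    (h : ∀ θ : ℝ, Tendsto (fun n => charFun (μ n) θ) atTop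
      (𝓝 (Complex.exp (-((v : ℝ) * θ ^ 2 / 2 : ℝ))))) (x : ℝ) :
    Tendsto (fun n => (μ n).real (Set.Iic x)) atTop (𝓝 ((gaussianReal 0 v).real (Set.Iic x))) := by
  set P : ℕ → ProbabilityMeasure ℝ := fun n => ⟨μ n, inferInstance⟩ with hP
  set G : ProbabilityMeasure ℝ := ⟨gaussianReal 0 v, inferInstance⟩ with hG
  have hlim : Tendsto P atTop (𝓝 G) := by
    rw [ProbabilityMeasure.tendsto_iff_tendsto_charFun]
    intro t
    have e1 : charFun (G : Measure ℝ) t = Complex.exp (-((v : ℝ) * t ^ 2 / 2 : ℝ)) := by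
      change charFun (gaussianReal 0 v) t = _
      rw [charFun_gaussianReal]
      congr 1
      push_cast
      ring
    rw [e1]
    exact h t
  have hnull : (G : Measure ℝ) (frontier (Set.Iic x)) = 0 := by
    rw [frontier_Iic]
    change gaussianReal 0 v {x} = 0
    haveI := noAtoms_gaussianReal (μ := 0) hv
    exact measure_singleton x
  have h1 := ProbabilityMeasure.tendsto_measure_of_null_frontier_of_tendsto' hlim hnull
  exact (ENNReal.tendsto_toReal (measure_ne_top (G : Measure ℝ) (Set.Iic x))).comp h1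

theorem weighted_cdf {α : ℕ → Type} [∀ n, Fintype (α n)] (w : ∀ n, α n → ℝ)
    (hw : ∀ n a, 0 ≤ w n a) (hsum : ∀ n, ∑ a, w n a = 1) (X : ∀ n, α n → ℝ) (v : NNReal)
    (hv : v ≠ 0)
    (h : ∀ θ : ℝ, Tendsto (fun n => ∑ a, (w n a : ℂ) * Complex.exp (θ * X n a * Complex.I)) atTop
      (𝓝 (Complex.exp (-((v : ℝ) * θ ^ 2 / 2 : ℝ))))) (x : ℝ) :
    Tendsto (fun n => ∑ a, w n a * ind (X n a ≤ x)) atTop
      (𝓝 ((gaussianReal 0 v).real (Set.Iic x))) := by
  classical
  set μ : ℕ → Measure ℝ := fun n => ∑ a, ENNReal.ofReal (w n a) • Measure.dirac (X n a) with hμ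
  haveI hprob : ∀ n, IsProbabilityMeasure (μ n) := by
    intro n
    constructor
    rw [hμ, Measure.finsetSum_apply]
    simp only [Measure.smul_apply, measure_univ, smul_eq_mul, mul_one]
    rw [← ENNReal.ofReal_sum_of_nonneg (fun a _ => hw n a), hsum, ENNReal.ofReal_one]
  have hchar : ∀ n (θ : ℝ), charFun (μ n) θ =
      ∑ a, (w n a : ℂ) * Complex.exp (θ * X n a * Complex.I) := by
    intro n θ
    rw [charFun_apply_real, hμ, integral_finsetSum_measure]
    · apply Finset.sum_congr rfl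
      intro a _
      rw [integral_smul_measure, integral_dirac, ENNReal.toReal_ofReal (hw n a), Complex.real_smul]
    · intro a _
      exact (integrable_dirac (by simp)).smul_measure ENNReal.ofReal_ne_top
  have hreal : ∀ n, (μ n).real (Set.Iic x) = ∑ a, w n a * ind (X n a ≤ x) := by
    intro n
    rw [measureReal_def, hμ, Measure.finsetSum_apply]
    rw [ENNReal.toReal_sum]
    · apply Finset.sum_congr rfl
      intro a _
      rw [Measure.smul_apply, smul_eq_mul, ENNReal.toReal_mul, ENNReal.toReal_ofReal (hw n a),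
        Measure.dirac_apply' _ measurableSet_Iic]
      by_cases hx : X n a ≤ x
      · rw [Set.indicator_of_mem (Set.mem_Iic.mpr hx), ind_of hx]; simp
      · rw [Set.indicator_of_notMem (fun h' => hx (Set.mem_Iic.mp h')), ind_not_of hx]; simp
    · intro a _
      rw [Measure.smul_apply, smul_eq_mul]
      exact ENNReal.mul_ne_top ENNReal.ofReal_ne_top (measure_ne_top _ _)
  have hmain := cdf_tendsto μ v hv (fun θ => by simp only [hchar]; exact h θ) x
  simp only [hreal] at hmain
  exact hmain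

/-- Taylor expansion -/
theorem taylor {z : ℂ} (hz : ‖z‖ ≤ 1) : ‖Complex.exp z - (1 + z + z ^ 2 / 2)‖ ≤ ‖z‖ ^ 3 := by
  have h := Complex.exp_bound hz (n := 3) (by norm_num)
  have e : ∑ m ∈ range 3, z ^ m / (m.factorial : ℂ) = 1 + z + z ^ 2 / 2 := by
    rw [Finset.sum_range_succ, Finset.sum_range_succ, Finset.sum_range_succ, Finset.sum_range_zero]
    norm_num [Nat.factorial]
  rw [e] at h
  refine h.trans ?_
  have h3 : 0 ≤ ‖z‖ ^ 3 := by positivity
  have : (((Nat.succ 3 : ℕ) : ℝ) * (((3 : ℕ).factorial * (3:ℕ) : ℝ))⁻¹) ≤ 1 := by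
    norm_num [Nat.factorial]
  calc _ ≤ ‖z‖ ^ 3 * 1 := mul_le_mul_of_nonneg_left this h3
    _ = _ := mul_one _

/-- one factor -/
theorem factor {p w : ℝ} (hp0 : 0 ≤ p) (hp1 : p ≤ 1 / 3) (hw : |w| ≤ 1) :
    ‖(1 + (p : ℂ) * (Complex.exp (w * Complex.I) - 1)) -
      Complex.exp ((p * w : ℝ) * Complex.I - (p * (1 - p) * w ^ 2 / 2 : ℝ))‖ ≤ 3 * p * |w| ^ 3 := by
  set z : ℂ := (p * w : ℝ) * Complex.I - (p * (1 - p) * w ^ 2 / 2 : ℝ) with hz
  have hw0 := abs_nonneg w
  have hwn : ‖(w : ℂ) * Complex.I‖ = |w| := by simp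
  have hw2 : w ^ 2 = |w| ^ 2 := (sq_abs w).symm
  have hzn : ‖z‖ ≤ 3 / 2 * p * |w| := by
    rw [hz]
    refine (norm_sub_le _ _).trans ?_
    rw [norm_mul, Complex.norm_I, mul_one, Complex.norm_real, Complex.norm_real, Real.norm_eq_abs,
      Real.norm_eq_abs, abs_mul, abs_of_nonneg hp0]
    have h1 : |p * (1 - p) * w ^ 2 / 2| ≤ p * |w| / 2 := by
      have h2 : 0 ≤ p * (1 - p) * w ^ 2 / 2 := by
        have : 0 ≤ 1 - p := by linarith
        positivity
      rw [abs_of_nonneg h2, hw2]
      have h3 : (1 - p) * |w| ^ 2 ≤ |w| := by nlinarith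
      have := mul_le_mul_of_nonneg_left h3 hp0
      linarith
    linarith
  have hz1 : ‖z‖ ≤ 1 := by nlinarith
  have t1 := taylor (z := (w : ℂ) * Complex.I) (by rw [hwn]; exact hw)
  have t2 := taylor hz1
  rw [hwn] at t1
  have hzz : z ^ 2 / 2 + (p ^ 2 * w ^ 2 / 2 : ℝ) =
      (-(p ^ 2 * (1 - p) * w ^ 3 / 2) : ℝ) * Complex.I + (p ^ 2 * (1 - p) ^ 2 * w ^ 4 / 8 : ℝ) := by
    rw [hz]
    push_cast
    ring_nf
    simp only [Complex.I_sq]
    ring
  have hid : (1 + (p : ℂ) * (Complex.exp (w * Complex.I) - 1)) - Complex.exp z =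
      (p : ℂ) * (Complex.exp (w * Complex.I) - (1 + w * Complex.I + (w * Complex.I) ^ 2 / 2)) -
      (z ^ 2 / 2 + (p ^ 2 * w ^ 2 / 2 : ℝ)) - (Complex.exp z - (1 + z + z ^ 2 / 2)) := by
    rw [hz]
    push_cast
    ring_nf
    simp only [Complex.I_sq]
    ring
  rw [hid]
  refine (norm_sub_le _ _).trans ?_
  have b1 : ‖(p : ℂ) * (Complex.exp (w * Complex.I) - (1 + w * Complex.I + (w * Complex.I) ^ 2 / 2))‖ ≤
      p * |w| ^ 3 := by
    rw [norm_mul, Complex.norm_real, Real.norm_eq_abs, abs_of_nonneg hp0]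
    exact mul_le_mul_of_nonneg_left t1 hp0
  have b2 : ‖z ^ 2 / 2 + (p ^ 2 * w ^ 2 / 2 : ℝ)‖ ≤ p * |w| ^ 3 := by
    rw [hzz]
    refine (norm_add_le _ _).trans ?_
    rw [norm_mul, Complex.norm_I, mul_one, Complex.norm_real, Complex.norm_real, Real.norm_eq_abs,
      Real.norm_eq_abs, abs_neg]
    have hp3 : 0 ≤ 1 - p := by linarith
    have c1 : |p ^ 2 * (1 - p) * w ^ 3 / 2| ≤ p * |w| ^ 3 / 2 := by
      rw [abs_div, abs_mul, abs_pow, abs_of_nonneg (by positivity : 0 ≤ p ^ 2 * (1 - p)), abs_two]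
      have : p ^ 2 * (1 - p) ≤ p := by nlinarith
      have := mul_le_mul_of_nonneg_right this (by positivity : 0 ≤ |w| ^ 3)
      linarith
    have c2 : |p ^ 2 * (1 - p) ^ 2 * w ^ 4 / 8| ≤ p * |w| ^ 3 / 8 := by
      rw [abs_div, abs_mul, abs_pow, abs_of_nonneg (by positivity : 0 ≤ p ^ 2 * (1 - p) ^ 2)]
      have h5 : p ^ 2 * (1 - p) ^ 2 ≤ p := by nlinarith [sq_nonneg (1 - p), mul_nonneg hp0 hp3]
      have h6 : |w| ^ 4 ≤ |w| ^ 3 := pow_le_pow_of_le_one hw0 hw (by norm_num)
      have h7 : p ^ 2 * (1 - p) ^ 2 * |w| ^ 4 ≤ p * |w| ^ 3 :=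
        mul_le_mul h5 h6 (by positivity) hp0
      rw [abs_of_nonneg (by norm_num : (0:ℝ) ≤ 8)]
      linarith
    have : 0 ≤ p * |w| ^ 3 := by positivity
    linarith
  have b3 : ‖Complex.exp z - (1 + z + z ^ 2 / 2)‖ ≤ p * |w| ^ 3 := by
    refine t2.trans ?_
    have h1 : ‖z‖ ^ 3 ≤ (3 / 2 * p * |w|) ^ 3 := pow_le_pow_left₀ (norm_nonneg _) hzn 3
    have h2 : (3 / 2 * p * |w|) ^ 3 = (27 / 8 * p ^ 2) * (p * |w| ^ 3) := by ring
    rw [h2] at h1
    have h3 : 27 / 8 * p ^ 2 ≤ 1 := by nlinarith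
    have h4 : 0 ≤ p * |w| ^ 3 := by positivity
    have := mul_le_mul_of_nonneg_right h3 h4
    linarith
  have b4 := norm_sub_le ((p : ℂ) * (Complex.exp (w * Complex.I) -
    (1 + w * Complex.I + (w * Complex.I) ^ 2 / 2))) (z ^ 2 / 2 + (p ^ 2 * w ^ 2 / 2 : ℝ))
  linarith

/-- difference of products -/
theorem prod_diff (s : Multiset ℝ) (q r : ℝ → ℂ) (δ : ℝ → ℝ) (hq : ∀ p ∈ s, ‖q p‖ ≤ 1)
    (hr : ∀ p ∈ s, ‖r p‖ ≤ 1) (hd : ∀ p ∈ s, ‖q p - r p‖ ≤ δ p) :
    ‖(s.map q).prod‖ ≤ 1 ∧ ‖(s.map r).prod‖ ≤ 1 ∧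
      ‖(s.map q).prod - (s.map r).prod‖ ≤ (s.map δ).sum := by
  induction s using Multiset.induction_on with
  | empty => simp
  | cons a s ih =>
    have ih' := ih (fun p hp => hq p (Multiset.mem_cons_of_mem hp))
      (fun p hp => hr p (Multiset.mem_cons_of_mem hp))
      (fun p hp => hd p (Multiset.mem_cons_of_mem hp))
    obtain ⟨i1, i2, i3⟩ := ih'
    have a1 := hq a (Multiset.mem_cons_self a s)
    have a2 := hr a (Multiset.mem_cons_self a s)
    have a3 := hd a (Multiset.mem_cons_self a s)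
    simp only [Multiset.map_cons, Multiset.prod_cons, Multiset.sum_cons]
    refine ⟨?_, ?_, ?_⟩
    · rw [norm_mul]
      exact mul_le_one₀ a1 (norm_nonneg _) i1
    · rw [norm_mul]
      exact mul_le_one₀ a2 (norm_nonneg _) i2
    · have e : q a * (s.map q).prod - r a * (s.map r).prod =
          (q a - r a) * (s.map q).prod + r a * ((s.map q).prod - (s.map r).prod) := by ring
      rw [e]
      refine (norm_add_le _ _).trans ?_
      rw [norm_mul, norm_mul]
      have b1 : ‖q a - r a‖ * ‖(s.map q).prod‖ ≤ δ a := by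
        calc _ ≤ ‖q a - r a‖ * 1 := mul_le_mul_of_nonneg_left i1 (norm_nonneg _)
          _ ≤ δ a := by rw [mul_one]; exact a3
      have b2 : ‖r a‖ * ‖(s.map q).prod - (s.map r).prod‖ ≤ (s.map δ).sum := by
        calc _ ≤ 1 * ‖(s.map q).prod - (s.map r).prod‖ := mul_le_mul_of_nonneg_right a2 (norm_nonneg _)
          _ ≤ _ := by rw [one_mul]; exact i3
      linarith

theorem norm_q {p w : ℝ} (hp0 : 0 ≤ p) (hp1 : p ≤ 1 / 3) :
    ‖1 + (p : ℂ) * (Complex.exp (w * Complex.I) - 1)‖ ≤ 1 := by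
  have e : 1 + (p : ℂ) * (Complex.exp (w * Complex.I) - 1) =
      ((1 - p : ℝ) : ℂ) + (p : ℂ) * Complex.exp (w * Complex.I) := by
    push_cast
    ring
  rw [e]
  refine (norm_add_le _ _).trans ?_
  rw [norm_mul, Complex.norm_exp_ofReal_mul_I, mul_one, Complex.norm_real, Complex.norm_real,
    Real.norm_eq_abs, Real.norm_eq_abs, abs_of_nonneg hp0, abs_of_nonneg (by linarith)]
  linarith

theorem norm_r {a b : ℝ} (hb : 0 ≤ b) : ‖Complex.exp ((a : ℝ) * Complex.I - (b : ℝ))‖ ≤ 1 := by
  rw [Complex.norm_exp]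
  simp only [Complex.sub_re, Complex.mul_re, Complex.ofReal_re, Complex.I_re, mul_zero,
    Complex.ofReal_im, Complex.I_im, mul_one, sub_self, zero_sub]
  rw [Real.exp_le_one_iff]
  linarith

/-- the characteristic function of a Poisson-binomial law -/
theorem char_approx (s : Multiset ℝ) (hs : ∀ p ∈ s, 0 < p ∧ p ≤ 1 / 3) {w : ℝ} (hw : |w| ≤ 1) :
    ‖(s.map (fun p : ℝ => 1 + (p : ℂ) * (Complex.exp (w * Complex.I) - 1))).prod -
      Complex.exp ((w * s.sum : ℝ) * Complex.I -
        (w ^ 2 * (s.map (fun p => p * (1 - p))).sum / 2 : ℝ))‖ ≤ 3 * |w| ^ 3 * s.sum := by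
  have h := (prod_diff s (fun p : ℝ => 1 + (p : ℂ) * (Complex.exp (w * Complex.I) - 1))
    (fun p : ℝ => Complex.exp ((p * w : ℝ) * Complex.I - (p * (1 - p) * w ^ 2 / 2 : ℝ)))
    (fun p => 3 * p * |w| ^ 3)
    (fun p hp => norm_q (hs p hp).1.le (hs p hp).2)
    (fun p hp => norm_r (by
      have h1 := hs p hp
      have : 0 ≤ 1 - p := by linarith [h1.2]
      have := h1.1
      positivity))
    (fun p hp => factor (hs p hp).1.le (hs p hp).2 hw)).2.2
  have e1 : ∀ s : Multiset ℝ, (s.map (fun p : ℝ =>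
      Complex.exp ((p * w : ℝ) * Complex.I - (p * (1 - p) * w ^ 2 / 2 : ℝ)))).prod =
      Complex.exp ((w * s.sum : ℝ) * Complex.I -
        (w ^ 2 * (s.map (fun p => p * (1 - p))).sum / 2 : ℝ)) := by
    intro s
    induction s using Multiset.induction_on with
    | empty => simp
    | cons a s ih =>
      simp only [Multiset.map_cons, Multiset.prod_cons, Multiset.sum_cons]
      rw [ih, ← Complex.exp_add]
      congr 1
      push_cast
      ring
  have e2 : ∀ s : Multiset ℝ, (s.map (fun p : ℝ => 3 * p * |w| ^ 3)).sum = 3 * |w| ^ 3 * s.sum := by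
    intro s
    induction s using Multiset.induction_on with
    | empty => simp
    | cons a s ih =>
      simp only [Multiset.map_cons, Multiset.sum_cons]
      rw [ih]
      ring
  rw [e1, e2] at h
  exact h

theorem vN_pos : 0 < vN := by
  unfold vN
  have h1 := Real.pi_gt_three
  have h2 : √3 < 2 := by
    rw [Real.sqrt_lt' (by norm_num)]
    norm_num
  have h3 : 0 < √3 := Real.sqrt_pos.2 (by norm_num)
  rw [sub_pos, div_lt_div_iff₀ (by positivity) (by positivity)]
  nlinarith

end CLTAux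

open CLTAux MeasureTheory ProbabilityTheory Filter Topology in
/-- the central limit theorem for the number of nested loops on the cylinder -/
theorem clt_EN (y : ℕ → ℝ) (x : ℝ) (hy : Filter.Tendsto
      (fun n : ℕ => (y n - cN * Real.log n) / √(Real.log n)) Filter.atTop (nhds x)) :
    Filter.Tendsto (fun n : ℕ => EN n (fun m => ind ((m : ℝ) ≤ y n))) Filter.atTop
      (nhds ((ProbabilityTheory.gaussianReal 0 (Real.toNNReal vN)).real (Set.Iic x))) := by
  classical
  obtain ⟨ps, hps, ⟨C1, hC1⟩, ⟨C2, hC2⟩, -⟩ := ps_exists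
  have hlog : Tendsto (fun n : ℕ => Real.log n) atTop atTop :=
    Real.tendsto_log_atTop.comp tendsto_natCast_atTop_atTop
  have hsq : Tendsto (fun n : ℕ => √(Real.log n)) atTop atTop :=
    (Real.tendsto_sqrt_atTop).comp hlog
  have hv : Real.toNNReal vN ≠ 0 := (Real.toNNReal_pos.2 vN_pos).ne'
  have hvc : ((Real.toNNReal vN : NNReal) : ℝ) = vN := Real.coe_toNNReal _ vN_pos.le
  -- the laws
  set X : ∀ n : ℕ, (Wd (2 * n - 1 + 1) × Wd (2 * n - 1 + 1)) → ℝ := fun n a =>
    x + ((fN a.1.1 a.2.1 : ℝ) - y n) / √(Real.log n) with hX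
  have key := weighted_cdf (α := fun n => Wd (2 * n - 1 + 1) × Wd (2 * n - 1 + 1))
    (fun n a => mu n a.1 * mu n a.2) (fun n a => mul_nonneg (mu_nonneg n _) (mu_nonneg n _))
    (fun n => by
      rw [Fintype.sum_prod_type]
      simp only [← Finset.mul_sum, mu_sum, mul_one]) X (Real.toNNReal vN) hv ?_ x
  · refine key.congr' ?_
    filter_upwards [hsq.eventually_gt_atTop 0] with n hn
    unfold EN
    rw [Fintype.sum_prod_type]
    apply Finset.sum_congr rfl
    intro σ _
    apply Finset.sum_congr rfl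
    intro τ _
    congr 1
    apply ind_congr
    rw [hX]
    simp only
    constructor
    · intro h
      have : ((fN σ.1 τ.1 : ℝ) - y n) / √(Real.log n) ≤ 0 := by linarith
      rw [div_le_iff₀ hn] at this
      linarith
    · intro h
      have : ((fN σ.1 τ.1 : ℝ) - y n) / √(Real.log n) ≤ 0 := by
        rw [div_le_iff₀ hn]
        linarith
      linarith
  · intro θ
    -- the main term
    set A : ℕ → ℝ := fun n => x - y n / √(Real.log n) + (ps n).sum / √(Real.log n) with hA
    set B : ℕ → ℝ := fun n => ((ps n).map (fun p => p * (1 - p))).sum / Real.log n with hB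
    have hA0 : Tendsto A atTop (𝓝 0) := by
      have l1 : Tendsto (fun n : ℕ => ((ps n).sum - cN * Real.log n) / √(Real.log n)) atTop (𝓝 0) := by
        apply squeeze_zero_norm' (a := fun n : ℕ => C1 / √(Real.log n))
        · filter_upwards [eventually_ge_atTop 1] with n hn
          rw [Real.norm_eq_abs, abs_div, abs_of_nonneg (Real.sqrt_nonneg _)]
          exact div_le_div_of_nonneg_right (hC1 n hn) (Real.sqrt_nonneg _)
        · exact hsq.const_div_atTop C1
      have l2 := (hy.const_sub x).add l1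
      rw [sub_self, add_zero] at l2
      refine l2.congr ?_
      intro n
      rw [hA]
      ring
    have hB0 : Tendsto B atTop (𝓝 vN) := by
      have l1 : Tendsto (fun n : ℕ => (((ps n).map (fun p => p * (1 - p))).sum - vN * Real.log n) /
          Real.log n) atTop (𝓝 0) := by
        apply squeeze_zero_norm' (a := fun n : ℕ => C2 / Real.log n)
        · filter_upwards [eventually_ge_atTop 1] with n hn
          have h0 : 0 ≤ Real.log n := Real.log_natCast_nonneg n
          rw [Real.norm_eq_abs, abs_div, abs_of_nonneg h0]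
          exact div_le_div_of_nonneg_right (hC2 n hn) h0
        · exact hlog.const_div_atTop C2
      have l2 := l1.add_const vN
      rw [zero_add] at l2
      refine l2.congr' ?_
      filter_upwards [hlog.eventually_gt_atTop 0] with n hn
      rw [hB]
      field_simp
      ring
    have hmain : Tendsto (fun n => Complex.exp ((θ * A n : ℝ) * Complex.I - (θ ^ 2 * B n / 2 : ℝ)))
        atTop (𝓝 (Complex.exp (-(((Real.toNNReal vN : NNReal) : ℝ) * θ ^ 2 / 2 : ℝ)))) := by
      have l1 : Tendsto (fun n => Complex.exp ((θ * A n : ℝ) * Complex.I - (θ ^ 2 * B n / 2 : ℝ)))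
          atTop (𝓝 (Complex.exp ((θ * 0 : ℝ) * Complex.I - (θ ^ 2 * vN / 2 : ℝ)))) := by
        apply (Complex.continuous_exp.tendsto _).comp
        apply Tendsto.sub
        · apply Tendsto.mul_const
          exact (Complex.continuous_ofReal.tendsto _).comp (hA0.const_mul θ)
        · exact (Complex.continuous_ofReal.tendsto _).comp ((hB0.const_mul (θ ^ 2)).div_const 2)
      have e : (θ * 0 : ℝ) * Complex.I - (θ ^ 2 * vN / 2 : ℝ) =
          ((-(((Real.toNNReal vN : NNReal) : ℝ) * θ ^ 2 / 2) : ℝ) : ℂ) := by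
        rw [hvc]
        push_cast
        ring
      rw [e] at l1
      have e2 : ((-(((Real.toNNReal vN : NNReal) : ℝ) * θ ^ 2 / 2) : ℝ) : ℂ) =
          -((((Real.toNNReal vN : NNReal) : ℝ) * θ ^ 2 / 2 : ℝ) : ℂ) := by push_cast; ring
      rw [e2] at l1
      exact l1
    -- the error term
    have herr : Tendsto (fun n : ℕ => 3 * |θ| ^ 3 * ((cN * Real.log n + C1) / √(Real.log n) ^ 3)) atTop
        (𝓝 0) := by
      have l1 : Tendsto (fun n : ℕ => cN / √(Real.log n) + C1 / √(Real.log n) ^ 3) atTop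
          (𝓝 (0 + 0)) := by
        apply Tendsto.add
        · exact hsq.const_div_atTop cN
        · apply Tendsto.const_div_atTop
          exact (tendsto_pow_atTop (by norm_num)).comp hsq
      have l2 := l1.const_mul (3 * |θ| ^ 3)
      rw [add_zero, mul_zero] at l2
      refine l2.congr' ?_
      filter_upwards [hlog.eventually_gt_atTop 0] with n hn
      have h1 : √(Real.log n) ^ 2 = Real.log n := Real.sq_sqrt hn.le
      have h2 : 0 < √(Real.log n) := Real.sqrt_pos.2 hn
      congr 1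
      rw [add_div]
      congr 1
      rw [div_eq_div_iff h2.ne' (by positivity)]
      calc cN * √(Real.log n) ^ 3 = cN * (√(Real.log n) ^ 2) * √(Real.log n) := by ring
        _ = _ := by rw [h1]
    apply tendsto_of_tendsto_of_dist hmain
    apply squeeze_zero' (Eventually.of_forall fun n => dist_nonneg) ?_ herr
    filter_upwards [hsq.eventually_ge_atTop (|θ| + 1), eventually_ge_atTop 1] with n hn hn1
    have hs0 : 0 < √(Real.log n) := by
      have := abs_nonneg θ
      linarith
    have hL0 : 0 < Real.log n := Real.sqrt_pos.1 hs0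
    set w : ℝ := θ / √(Real.log n) with hw
    have hw1 : |w| ≤ 1 := by
      rw [hw, abs_div, abs_of_pos hs0, div_le_one hs0]
      linarith
    have happ := char_approx (ps n) (hps n hn1).1 hw1
    have hsum := (hps n hn1).2 (Complex.exp (w * Complex.I))
    -- rewrite the sum
    have hS : ∑ a : Wd (2 * n - 1 + 1) × Wd (2 * n - 1 + 1), ((mu n a.1 * mu n a.2 : ℝ) : ℂ) *
        Complex.exp (θ * X n a * Complex.I) =
        Complex.exp ((θ * (x - y n / √(Real.log n)) : ℝ) * Complex.I) *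
        ((ps n).map (fun p : ℝ => 1 + (p : ℂ) * (Complex.exp (w * Complex.I) - 1))).prod := by
      rw [← hsum, Fintype.sum_prod_type, Finset.mul_sum]
      apply Finset.sum_congr rfl
      intro σ _
      rw [Finset.mul_sum]
      apply Finset.sum_congr rfl
      intro τ _
      have e1 : Complex.exp (w * Complex.I) ^ fN σ.1 τ.1 =
          Complex.exp ((w * fN σ.1 τ.1 : ℝ) * Complex.I) := by
        rw [← Complex.exp_nat_mul]
        congr 1
        push_cast
        ring
      have e2 : Complex.exp (θ * X n (σ, τ) * Complex.I) =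
          Complex.exp ((θ * (x - y n / √(Real.log n)) : ℝ) * Complex.I) *
          Complex.exp ((w * fN σ.1 τ.1 : ℝ) * Complex.I) := by
        rw [← Complex.exp_add]
        congr 1
        rw [hX, hw]
        push_cast
        field_simp
        ring
      rw [e1, e2]
      push_cast
      ring
    have hM : Complex.exp ((θ * A n : ℝ) * Complex.I - (θ ^ 2 * B n / 2 : ℝ)) =
        Complex.exp ((θ * (x - y n / √(Real.log n)) : ℝ) * Complex.I) *
        Complex.exp ((w * (ps n).sum : ℝ) * Complex.I -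
        (w ^ 2 * ((ps n).map (fun p => p * (1 - p))).sum / 2 : ℝ)) := by
      rw [← Complex.exp_add]
      congr 1
      have h1 : θ * A n = θ * (x - y n / √(Real.log n)) + w * (ps n).sum := by
        rw [hA, hw]
        ring
      have h2 : θ ^ 2 * B n / 2 = w ^ 2 * ((ps n).map (fun p => p * (1 - p))).sum / 2 := by
        rw [hB, hw, div_pow, Real.sq_sqrt hL0.le]
        ring
      rw [h1, h2]
      push_cast
      ring
    rw [dist_comm, dist_eq_norm, hS, hM, ← mul_sub, norm_mul, Complex.norm_exp_ofReal_mul_I, one_mul]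
    refine happ.trans ?_
    have hw3 : |w| ^ 3 = |θ| ^ 3 / √(Real.log n) ^ 3 := by
      rw [hw, abs_div, abs_of_pos hs0, div_pow]
    rw [hw3]
    have h5 : (ps n).sum ≤ cN * Real.log n + C1 := by
      have := (abs_le.1 (hC1 n hn1)).2
      linarith
    have h6 : 3 * (|θ| ^ 3 / √(Real.log n) ^ 3) * (ps n).sum ≤
        3 * (|θ| ^ 3 / √(Real.log n) ^ 3) * (cN * Real.log n + C1) :=
      mul_le_mul_of_nonneg_left h5 (by positivity)
    refine h6.trans (le_of_eq ?_)
    ring

end Pool.Agent.H863R2.NL
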