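import Pool.Agent.H863R2.NL.CLTTCore
import Pool.Agent.H863R2.NL.CLT
import Pool.Agent.H863R2.NL.Cmp
import Pool.Agent.H863R2.NL.Avg

/-!
# Nesting law: the central limit theorem in the plane (module CLTT)
-/

namespace Pool.Agent.H863R2.NL
open H974 Finset
open scoped Real

/-- the central limit theorem in the plane -/
theorem clt_ET (x : ℝ) : Filter.Tendsto
    (fun r : ℕ => ET r (fun m => ind ((m : ℝ) ≤ cN * Real.log r + x * √(Real.log r))))
    Filter.atTop
      (nhds ((ProbabilityTheory.gaussianReal 0 (Real.toNNReal vN)).real (Set.Iic x))) :=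
  clt_ET_of (fun h _ hg => EN_le h hg) (fun k ha _ hg h0 => EN_ge k ha hg h0)
    (fun h _ hg => ET_anti h hg) (fun h => ET_le_ET h) ET_const clt_EN x

end Pool.Agent.H863R2.NL
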