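import Pool.Agent.H863R2.NL.Defs

/-!
# Nesting law: the central limit theorem in the plane, core (task L-CLTT)

The facts on `EN` and `ET` enter as hypotheses.
-/

namespace Pool.Agent.H863R2.NL
open H974 Finset
open scoped Real Topology

namespace CLTTAux

/-- comparison of logarithms -/
theorem log_close {ρ : ℕ → ℕ} {c1 c2 : ℝ} (h1 : 0 < c1) (h2 : 0 < c2)
    (h : ∀ᶠ n : ℕ in Filter.atTop, c1 * n ≤ ρ n ∧ (ρ n : ℝ) ≤ c2 * n) :
    Filter.Tendsto (fun n : ℕ => (Real.log (ρ n) - Real.log n) / √(Real.log n)) Filter.atTop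
      (𝓝 0) := by
  have hlog : Filter.Tendsto (fun n : ℕ => √(Real.log n)) Filter.atTop Filter.atTop :=
    Real.tendsto_sqrt_atTop.comp (Real.tendsto_log_atTop.comp tendsto_natCast_atTop_atTop)
  have hB : Filter.Tendsto (fun n : ℕ => (|Real.log c1| + |Real.log c2|) / √(Real.log n))
      Filter.atTop (𝓝 0) := hlog.const_div_atTop _
  apply squeeze_zero_norm' _ hB
  filter_upwards [h, Filter.eventually_gt_atTop 0] with n hn hn0
  have hn' : (0 : ℝ) < n := by exact_mod_cast hn0
  have hρ : (0 : ℝ) < ρ n := lt_of_lt_of_le (by positivity) hn.1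
  rw [Real.norm_eq_abs, abs_div, abs_of_nonneg (Real.sqrt_nonneg _)]
  refine div_le_div_of_nonneg_right ?_ (Real.sqrt_nonneg _)
  have e1 : Real.log c1 + Real.log n ≤ Real.log (ρ n) := by
    rw [← Real.log_mul h1.ne' hn'.ne']
    exact Real.log_le_log (by positivity) hn.1
  have e2 : Real.log (ρ n) ≤ Real.log c2 + Real.log n := by
    rw [← Real.log_mul h2.ne' hn'.ne']
    exact Real.log_le_log hρ hn.2
  rw [abs_le]
  have a1 := neg_abs_le (Real.log c1)
  have a2 := le_abs_self (Real.log c2)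
  have a3 := abs_nonneg (Real.log c1)
  have a4 := abs_nonneg (Real.log c2)
  constructor <;> linarith

/-- the asymptotic condition -/
theorem asym {ρ : ℕ → ℕ} {c1 c2 : ℝ} (h1 : 0 < c1) (h2 : 0 < c2)
    (h : ∀ᶠ n : ℕ in Filter.atTop, c1 * n ≤ ρ n ∧ (ρ n : ℝ) ≤ c2 * n) (x C : ℝ) :
    Filter.Tendsto (fun n : ℕ => ((cN * Real.log (ρ n) + x * √(Real.log (ρ n)) + C) -
      cN * Real.log n) / √(Real.log n)) Filter.atTop (𝓝 x) := by
  have hl := log_close h1 h2 h
  have hlogt : Filter.Tendsto (fun n : ℕ => Real.log n) Filter.atTop Filter.atTop :=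
    Real.tendsto_log_atTop.comp tendsto_natCast_atTop_atTop
  have hlog : Filter.Tendsto (fun n : ℕ => √(Real.log n)) Filter.atTop Filter.atTop :=
    Real.tendsto_sqrt_atTop.comp hlogt
  have hC : Filter.Tendsto (fun n : ℕ => C / √(Real.log n)) Filter.atTop (𝓝 0) :=
    hlog.const_div_atTop _
  have hinv : Filter.Tendsto (fun n : ℕ => 1 / √(Real.log n)) Filter.atTop (𝓝 0) :=
    hlog.const_div_atTop _
  have hrat : Filter.Tendsto (fun n : ℕ => Real.log (ρ n) / Real.log n) Filter.atTop (𝓝 1) := by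
    have e := (hl.mul hinv).add_const 1
    rw [zero_mul, zero_add] at e
    refine e.congr' ?_
    filter_upwards [hlogt.eventually_gt_atTop 0] with n hn
    have hs : √(Real.log n) * √(Real.log n) = Real.log n := Real.mul_self_sqrt hn.le
    have hs0 : √(Real.log n) ≠ 0 := (Real.sqrt_pos.2 hn).ne'
    rw [div_mul_div_comm, hs, mul_one, sub_div, div_self hn.ne']
    ring
  have hsq : Filter.Tendsto (fun n : ℕ => √(Real.log (ρ n)) / √(Real.log n)) Filter.atTop
      (𝓝 1) := by
    have e := (Real.continuous_sqrt.tendsto 1).comp hrat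
    rw [Real.sqrt_one] at e
    refine e.congr' ?_
    filter_upwards [hlogt.eventually_gt_atTop 0] with n hn
    show √(Real.log (ρ n) / Real.log n) = _
    rw [Real.sqrt_div' _ hn.le]
  have key := ((hl.const_mul cN).add (hsq.const_mul x)).add hC
  rw [mul_zero, zero_add, mul_one, add_zero] at key
  refine key.congr ?_
  intro n
  ring

end CLTTAux

open CLTTAux in
/-- the central limit theorem in the plane, from the facts on the two laws -/
theorem clt_ET_of
    (hEN_le : ∀ {n k : ℕ}, 2 * k < n → ∀ {g : ℕ → ℝ}, Antitone g → EN n g ≤ ET k g)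
    (hEN_ge : ∀ {a : ℕ} (k : ℕ), 0 < a → ∀ {g : ℕ → ℝ}, Antitone g → (∀ m, 0 ≤ g m) →
      ET (4 * a) (fun m => g (m + 1 + 10 * k)) ≤ EN (10 * a) g +
        6 * (1 - (1/2 : ℝ) ^ 47) ^ (k + 1) * ET (2 * a - 1) (fun m => g (m + 1 + 10 * k)))
    (hET_anti : ∀ {k k' : ℕ}, k ≤ k' → ∀ {g : ℕ → ℝ}, Antitone g → ET k' g ≤ ET k g)
    (hET_le : ∀ {k : ℕ} {g g' : ℕ → ℝ}, (∀ m, g m ≤ g' m) → ET k g ≤ ET k g')
    (hET_const : ∀ (k : ℕ) (c : ℝ), ET k (fun _ => c) = c)
    (hclt : ∀ (y : ℕ → ℝ) (x : ℝ), Filter.Tendsto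
      (fun n : ℕ => (y n - cN * Real.log n) / √(Real.log n)) Filter.atTop (nhds x) →
      Filter.Tendsto (fun n : ℕ => EN n (fun m => ind ((m : ℝ) ≤ y n))) Filter.atTop
      (nhds ((ProbabilityTheory.gaussianReal 0 (Real.toNNReal vN)).real (Set.Iic x))))
    (x : ℝ) : Filter.Tendsto
    (fun r : ℕ => ET r (fun m => ind ((m : ℝ) ≤ cN * Real.log r + x * √(Real.log r))))
    Filter.atTop
      (nhds ((ProbabilityTheory.gaussianReal 0 (Real.toNNReal vN)).real (Set.Iic x))) := by
  set L := (ProbabilityTheory.gaussianReal 0 (Real.toNNReal vN)).real (Set.Iic x) with hL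
  set y : ℕ → ℝ := fun r => cN * Real.log r + x * √(Real.log r) with hy
  have hanti : ∀ z : ℝ, Antitone (fun m : ℕ => ind ((m : ℝ) ≤ z)) := by
    intro z m m' hm
    apply ind_mono
    intro h
    have : (m : ℝ) ≤ m' := by exact_mod_cast hm
    linarith
  -- lower bound
  have hlow : Filter.Tendsto (fun r : ℕ => EN (2 * r + 1) (fun m => ind ((m : ℝ) ≤ y r)))
      Filter.atTop (𝓝 L) := by
    have h1 := hclt (fun n => y ((n - 1) / 2)) x (by
      have := asym (ρ := fun n => (n - 1) / 2) (c1 := 1 / 4) (c2 := 1) (by norm_num)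
        (by norm_num) (by
          filter_upwards [Filter.eventually_ge_atTop 10] with n hn
          constructor
          · have : n ≤ 4 * ((n - 1) / 2) := by omega
            have : (n : ℝ) ≤ 4 * (((n - 1) / 2 : ℕ) : ℝ) := by exact_mod_cast this
            linarith
          · have : (n - 1) / 2 ≤ n := by omega
            rw [one_mul]
            exact_mod_cast this) x 0
      simpa [hy] using this)
    have h2 : Filter.Tendsto (fun r : ℕ => 2 * r + 1) Filter.atTop Filter.atTop := by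
      apply Filter.tendsto_atTop_mono (fun r => (by omega : r ≤ 2 * r + 1))
      exact Filter.tendsto_id
    have h3 := h1.comp h2
    refine h3.congr ?_
    intro r
    have e : (2 * r + 1 - 1) / 2 = r := by omega
    simp only [Function.comp, e]
  -- upper bound
  have hup : ∀ k : ℕ, ∀ j : ℕ, j < 4 → Filter.Tendsto (fun a : ℕ => EN (10 * a)
      (fun m => ind ((m : ℝ) ≤ y (4 * a + j) + (1 + 10 * k)))) Filter.atTop (𝓝 L) := by
    intro k j hj
    have h1 := hclt (fun n => y (4 * (n / 10) + j) + (1 + 10 * k)) x (by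
      have := asym (ρ := fun n => 4 * (n / 10) + j) (c1 := 1 / 25) (c2 := 1) (by norm_num)
        (by norm_num) (by
          filter_upwards [Filter.eventually_ge_atTop 10] with n hn
          constructor
          · have : n ≤ 25 * (4 * (n / 10) + j) := by omega
            have : (n : ℝ) ≤ 25 * ((4 * (n / 10) + j : ℕ) : ℝ) := by exact_mod_cast this
            linarith
          · have : 4 * (n / 10) + j ≤ n := by omega
            rw [one_mul]
            exact_mod_cast this) x (1 + 10 * k)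
      simpa [hy] using this)
    have h2 : Filter.Tendsto (fun a : ℕ => 10 * a) Filter.atTop Filter.atTop := by
      apply Filter.tendsto_atTop_mono (fun r => (by omega : r ≤ 10 * r))
      exact Filter.tendsto_id
    have h3 := h1.comp h2
    refine h3.congr ?_
    intro a
    have e : 10 * a / 10 = a := by omega
    simp only [Function.comp, e]
  rw [Metric.tendsto_atTop]
  intro ε hε
  -- choice of `k`
  obtain ⟨k, hk⟩ : ∃ k : ℕ, 6 * (1 - (1/2 : ℝ) ^ 47) ^ (k + 1) < ε / 2 := by
    have h1 : Filter.Tendsto (fun k : ℕ => (1 - (1/2 : ℝ) ^ 47) ^ k) Filter.atTop (𝓝 0) :=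
      tendsto_pow_atTop_nhds_zero_of_lt_one (by norm_num) (by norm_num)
    have h2 := (h1.comp (Filter.tendsto_add_atTop_nat 1)).const_mul 6
    rw [mul_zero] at h2
    have h3 := h2.eventually (gt_mem_nhds (half_pos hε))
    obtain ⟨k, hk⟩ := h3.exists
    exact ⟨k, hk⟩
  obtain ⟨N1, hN1⟩ := (Metric.tendsto_atTop.1 hlow) ε hε
  obtain ⟨A0, hA0⟩ := (Metric.tendsto_atTop.1 (hup k 0 (by norm_num))) (ε / 2) (half_pos hε)
  obtain ⟨A1, hA1⟩ := (Metric.tendsto_atTop.1 (hup k 1 (by norm_num))) (ε / 2) (half_pos hε)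
  obtain ⟨A2, hA2⟩ := (Metric.tendsto_atTop.1 (hup k 2 (by norm_num))) (ε / 2) (half_pos hε)
  obtain ⟨A3, hA3⟩ := (Metric.tendsto_atTop.1 (hup k 3 (by norm_num))) (ε / 2) (half_pos hε)
  refine ⟨N1 + 4 * (A0 + A1 + A2 + A3 + 1), ?_⟩
  intro r hr
  have hr1 : N1 ≤ r := by omega
  set a := r / 4 with ha
  have hapos : 0 < a := by omega
  have hra : r = 4 * a + r % 4 := by omega
  have hlt : r % 4 < 4 := Nat.mod_lt _ (by norm_num)
  have hEN : |EN (10 * a) (fun m => ind ((m : ℝ) ≤ y r + (1 + 10 * k))) - L| < ε / 2 := by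
    have hcase : r % 4 = 0 ∨ r % 4 = 1 ∨ r % 4 = 2 ∨ r % 4 = 3 := by omega
    rcases hcase with h | h | h | h
    · have := hA0 a (by omega)
      rw [Real.dist_eq] at this
      rw [hra, h]
      exact this
    · have := hA1 a (by omega)
      rw [Real.dist_eq] at this
      rw [hra, h]
      exact this
    · have := hA2 a (by omega)
      rw [Real.dist_eq] at this
      rw [hra, h]
      exact this
    · have := hA3 a (by omega)
      rw [Real.dist_eq] at this
      rw [hra, h]
      exact this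
  have hl := hN1 r hr1
  rw [Real.dist_eq, abs_lt] at hl
  rw [abs_lt] at hEN
  have hlow' := hEN_le (n := 2 * r + 1) (k := r) (by omega) (hanti (y r))
  have hup1 : ET r (fun m => ind ((m : ℝ) ≤ y r)) ≤ ET (4 * a) (fun m => ind ((m : ℝ) ≤ y r)) :=
    hET_anti (by omega) (hanti (y r))
  have hshift : ∀ m : ℕ, ind (((m + 1 + 10 * k : ℕ) : ℝ) ≤ y r + (1 + 10 * k)) =
      ind ((m : ℝ) ≤ y r) := by
    intro m
    apply ind_congr
    push_cast
    constructor <;> intro h <;> linarith
  have hup2 := hEN_ge (a := a) k hapos (hanti (y r + (1 + 10 * k))) (fun m => ind_nonneg _)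
  simp only [hshift] at hup2
  have hone : ET (2 * a - 1) (fun m => ind ((m : ℝ) ≤ y r)) ≤ 1 := by
    have h1 := hET_le (k := 2 * a - 1) (g := fun m : ℕ => ind ((m : ℝ) ≤ y r))
      (g' := fun _ => (1 : ℝ)) (fun m => ind_le_one _)
    rw [hET_const] at h1
    exact h1
  have hc : (0 : ℝ) ≤ 6 * (1 - (1/2 : ℝ) ^ 47) ^ (k + 1) := by
    have : (0 : ℝ) ≤ 1 - (1/2 : ℝ) ^ 47 := by norm_num
    positivity
  have hprod : 6 * (1 - (1/2 : ℝ) ^ 47) ^ (k + 1) *
      ET (2 * a - 1) (fun m => ind ((m : ℝ) ≤ y r)) ≤ ε / 2 := by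
    have h1 := mul_le_mul_of_nonneg_left hone hc
    linarith
  rw [Real.dist_eq, abs_lt]
  have goal_eq : (fun m : ℕ => ind ((m : ℝ) ≤ cN * Real.log r + x * √(Real.log r))) =
      fun m : ℕ => ind ((m : ℝ) ≤ y r) := rfl
  rw [goal_eq]
  constructor
  · linarith
  · linarith

end Pool.Agent.H863R2.NL
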