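import Pool.Agent.H863R2.Nest.Rows
import Pool.Agent.H906R2.Arm.Final
import Pool.Agent.H160R2.NE.Pgf
import Pool.Agent.H974R2.BK

/-!
# Nesting law of critical bond percolation on `ℤ²`: definitions
-/

namespace Pool.Agent.H863R2.NL
open H974 H906.Cyl Finset
open Pool.Agent.H863R2.Cyl (Wd Tc rows FSpec push)
open Pool.Agent.H863R2.Nest (Ch St StI at_ mir Full nb)

/-! ## Faces: `(a, s)` is the point `((a + s) / 2, (a - s) / 2)`: a vertex of `ℤ²` if `a + s` is
even and a dual vertex if `a + s` is odd.  The edge `edz j d` is the plaquette with the four faces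
`(j, d)`, `(j + 1, d)`, `(j, d + 1)`, `(j + 1, d + 1)`. -/

/-- a free move between the lower face `p` and the upper face `q`: along an edge of `G` or across
an edge which is not in `G` -/
def lnk (G : Set Edg) (p q : ℤ × ℤ) : Prop :=
  q.2 = p.2 + 1 ∧
  ((q.1 = p.1 + 1 ∧ (if (p.1 + p.2) % 2 = 0 then edz p.1 p.2 ∈ G else edz p.1 p.2 ∉ G)) ∨
   (p.1 = q.1 + 1 ∧ (if (q.1 + p.2) % 2 = 0 then edz q.1 p.2 ∉ G else edz q.1 p.2 ∈ G)))

/-- free moves (symmetric) -/
def Mv (G : Set Edg) (p q : ℤ × ℤ) : Prop := lnk G p q ∨ lnk G q p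

/-- free moves between the levels `s` and `s'` -/
def MvI (G : Set Edg) (s s' : ℤ) (p q : ℤ × ℤ) : Prop :=
  Mv G p q ∧ (s ≤ p.2 ∧ p.2 ≤ s') ∧ (s ≤ q.2 ∧ q.2 ≤ s')

/-- the face of a vertex -/
def fc (v : Vtx) : ℤ × ℤ := (v.1 + v.2, v.1 - v.2)

/-- twice the sup norm of a face -/
def nm (p : ℤ × ℤ) : ℤ := |p.1| + |p.2|

/-- the distance `k` can be reached with at most `K` colour changes -/
def D (G : Set Edg) (k K : ℕ) : Prop := ∃ q : ℤ × ℤ, 2 * (k : ℤ) ≤ nm q ∧ Ch (Mv G) St K (0, 0) q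

/-- the minimal number of colour changes up to the distance `k` -/
noncomputable def TT (G : Set Edg) (k : ℕ) : ℕ := sInf {K | D G k K}

/-- free moves on the cylinder (periodic lift) with boundary words `w`, `w'` -/
def CM (n M : ℕ) (F : Finset Edg) (w w' : List Bool) (p q : ℤ × ℤ) : Prop :=
  at_ w (-M) p q ∨ at_ w' (-M) (mir p) (mir q) ∨ MvI (per n F) (-M) M p q

/-! ## Crossings with few closed edges -/

/-- connection of `A` with `B` in `F ∩ S` -/
def Crs (S : Finset Edg) (A B : Vtx → Prop) (F : Finset Edg) : Prop :=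
  ∃ u v, A u ∧ B v ∧ Reach (↑F ∩ ↑S) u v

/-- the event `C` occurs after opening at most `k` edges of `S` -/
def Opn (k : ℕ) (S : Finset Edg) (C : Finset Edg → Prop) (F : Finset Edg) : Prop :=
  ∃ X, X ⊆ S ∧ X.card ≤ k ∧ C (F ∪ X)

/-- the six rectangles: an annulus around the origin and a connection with its translate by
`(n, n)`; each crossing has at most `k` closed edges -/
def Good (n b k : ℕ) (F : Finset Edg) : Prop :=
  (Opn k (LRE (-(2 * b)) (2 * b) b (2 * b)) (LRc (-(2 * b)) (2 * b) b (2 * b))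
      (pf n (LRE (-(2 * b)) (2 * b) b (2 * b)) F) ∧
    Opn k (LRE (-(2 * b)) (2 * b) (-(2 * b)) (-b)) (LRc (-(2 * b)) (2 * b) (-(2 * b)) (-b))
      (pf n (LRE (-(2 * b)) (2 * b) (-(2 * b)) (-b)) F)) ∧
  (Opn k (TBE b (2 * b) (-(2 * b)) (2 * b)) (TBc b (2 * b) (-(2 * b)) (2 * b))
      (pf n (TBE b (2 * b) (-(2 * b)) (2 * b)) F) ∧
    Opn k (TBE (-(2 * b)) (-b) (-(2 * b)) (2 * b)) (TBc (-(2 * b)) (-b) (-(2 * b)) (2 * b))
      (pf n (TBE (-(2 * b)) (-b) (-(2 * b)) (2 * b)) F)) ∧
  (Opn k (LRE b (n + 2 * b) (-b) b) (LRc b (n + 2 * b) (-b) b)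
      (pf n (LRE b (n + 2 * b) (-b) b) F) ∧
    Opn k (TBE (n - b) (n + b) (-(2 * b)) (n - b)) (TBc (n - b) (n + b) (-(2 * b)) (n - b))
      (pf n (TBE (n - b) (n + b) (-(2 * b)) (n - b)) F))

/-- paths from the inner square `[-R1, R1]²` to the boundary of `[-R2, R2]²` are connected with
`z` as soon as the edges of `E` are present -/
def Zp (R1 R2 : ℤ) (E : Finset Edg) (z : Vtx) : Prop :=
  ∀ F : Finset Edg, E ⊆ F → ∀ u v : Vtx, inR (-R1) R1 (-R1) R1 u →
    (v.1 = -R2 ∨ v.1 = R2 ∨ v.2 = -R2 ∨ v.2 = R2) →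
    Reach (↑F ∩ ↑(RE (-R2) R2 (-R2) R2)) u v → Reach (↑F ∩ ↑(RE (-R2) R2 (-R2) R2)) u z

/-! ## The law of the number of nested loops on the cylinder of circumference `2n` -/

/-- a function computing the number of loops -/
noncomputable def fN : List Bool → List Bool → ℕ :=
  Classical.choose Pool.Agent.H863R2.Cyl.exists_F

theorem fN_spec : FSpec fN := Classical.choose_spec Pool.Agent.H863R2.Cyl.exists_F

/-- the stationary law -/
noncomputable def mu (n : ℕ) : Wd (2 * n - 1 + 1) → ℝ :=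
  Classical.choose (Pool.Agent.H863R2.Cyl.markov_exists (2 * n - 1))

theorem mu_nonneg (n : ℕ) : ∀ σ, 0 ≤ mu n σ :=
  (Classical.choose_spec (Pool.Agent.H863R2.Cyl.markov_exists (2 * n - 1))).1

theorem mu_sum (n : ℕ) : ∑ σ, mu n σ = 1 :=
  (Classical.choose_spec (Pool.Agent.H863R2.Cyl.markov_exists (2 * n - 1))).2.1

theorem mu_stat (n : ℕ) : ∀ σ, ∑ c : Fin (2 * n - 1 + 1) → Bool, push (Tc (2 * n - 1) c) (mu n) σ
    = 2 ^ (2 * n - 1 + 1) * mu n σ :=
  (Classical.choose_spec (Pool.Agent.H863R2.Cyl.markov_exists (2 * n - 1))).2.2.1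

/-- expectation of a function of the number of nested loops -/
noncomputable def EN (n : ℕ) (g : ℕ → ℝ) : ℝ :=
  ∑ σ : Wd (2 * n - 1 + 1), ∑ τ : Wd (2 * n - 1 + 1), mu n σ * mu n τ * g (fN σ.1 τ.1)

/-- expectation of a function of the number of colour changes up to the distance `k`
(critical bond percolation in the box of radius `k`) -/
noncomputable def ET (k : ℕ) (g : ℕ → ℝ) : ℝ :=
  Ex (fun _ => (1/2 : ℝ)) (boxE k) (fun F => g (TT (↑F) k))

/-! ## Constants -/

/-- density of nested loops: `1/(2√3π)` -/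
noncomputable def cN : ℝ := 1 / (2 * Real.sqrt 3 * Real.pi)

/-- variance constant `2/(3√3π) - 1/(2π²)` -/
noncomputable def vN : ℝ := 2 / (3 * Real.sqrt 3 * Real.pi) - 1 / (2 * Real.pi ^ 2)

/-- the exponent of `E t^N` -/
noncomputable def psi (t : ℝ) : ℝ :=
  3 / (4 * Real.pi ^ 2) * (Real.pi ^ 2 / 9 - Real.arccos (t / 2) ^ 2)

/-! ## The final model -/

/-- The points: `((x, y), true)` is the vertex `(x, y)` of `ℤ²` and `((x, y), false)` is the
vertex `(x + 1/2, y + 1/2)` of the dual lattice. -/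
abbrev Pt := (ℤ × ℤ) × Bool

/-- The vertex `v` of `ℤ²` is one of the four corners of the square of the dual vertex `w`. -/
def Corner (v w : ℤ × ℤ) : Prop := (v.1 = w.1 ∨ v.1 = w.1 + 1) ∧ (v.2 = w.2 ∨ v.2 = w.2 + 1)

/-- Moves without change of colour: along an open edge, or from a dual vertex to a neighbouring
dual vertex across a closed edge. -/
inductive Free (ω : sqLattice.edgeSet → Bool) : Pt → Pt → Prop
  | primal {u v : ℤ × ℤ} (h : (openGraph ω).Adj u v) : Free ω (u, true) (v, true)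
  | dual {u v x y : ℤ × ℤ} (huv : u ≠ v) (hxy : sqLattice.Adj x y)
      (hclosed : ¬ (openGraph ω).Adj x y) (h1 : Corner x u) (h2 : Corner y u) (h3 : Corner x v)
      (h4 : Corner y v) : Free ω (u, false) (v, false)

/-- Change of colour: between a vertex and a dual vertex at distance `1/2` (sup norm). -/
inductive Change : Pt → Pt → Prop
  | out {v w : ℤ × ℤ} (h : Corner v w) : Change (v, true) (w, false)
  | back {v w : ℤ × ℤ} (h : Corner v w) : Change (w, false) (v, true)

/-- `p` can be reached from the origin with at most `k` changes of colour. -/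
inductive ReachIn (ω : sqLattice.edgeSet → Bool) : ℕ → Pt → Prop
  | start (k : ℕ) : ReachIn ω k ((0, 0), true)
  | free {k : ℕ} {p q : Pt} : ReachIn ω k p → Free ω p q → ReachIn ω k q
  | change {k : ℕ} {p q : Pt} : ReachIn ω k p → Change p q → ReachIn ω (k + 1) q

/-- Twice the sup norm of a point. -/
def norm2 (p : Pt) : ℤ :=
  max |2 * p.1.1 + (if p.2 then 0 else 1)| |2 * p.1.2 + (if p.2 then 0 else 1)|

/-- The minimal number of colour changes of a path from the origin to the distance `n`: the number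
of nested layers around the origin inside the box of radius `n`. -/
noncomputable def changes (n : ℕ) (ω : sqLattice.edgeSet → Bool) : ℕ :=
  sInf {k | ∃ p : Pt, 2 * (n : ℤ) ≤ norm2 p ∧ ReachIn ω k p}

end Pool.Agent.H863R2.NL
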