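import Pool.Agent.H863R2.NL.Defs

/-! # First exit of a chain -/

namespace Pool.Agent.H863R2.NL
open Pool.Agent.H863R2.Nest (Ch)

/-- first exit of a chain from the set `A` -/
theorem Ch_exit {X : Type*} {R S : X → X → Prop} (A : X → Prop) {K : ℕ} {a b : X}
    (h : Ch R S K a b) (ha : A a) (hb : ¬ A b) : ∃ (c' c : X) (K1 K2 : ℕ), A c' ∧ ¬ A c ∧
      (R c' c ∨ S c' c) ∧ K1 + K2 = K ∧
      Ch (fun p q => R p q ∧ A p) (fun p q => S p q ∧ A p) K1 a c ∧ Ch R S K2 c b := by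
  have key : ∀ {K : ℕ} {a b : X}, Ch R S K a b → A a →
      (A b ∧ Ch (fun p q => R p q ∧ A p) (fun p q => S p q ∧ A p) K a b) ∨
      ∃ (c' c : X) (K1 K2 : ℕ), A c' ∧ ¬ A c ∧ (R c' c ∨ S c' c) ∧ K1 + K2 = K ∧
        Ch (fun p q => R p q ∧ A p) (fun p q => S p q ∧ A p) K1 a c ∧ Ch R S K2 c b := by
    intro K a b h ha
    induction h with
    | refl k a => exact Or.inl ⟨ha, Ch.refl _ _⟩
    | @rel k a b' b hab hr ih =>
      rcases ih ha with ⟨h1, h2⟩ | ⟨c', c, K1, K2, h1, h2, h3, h4, h5, h6⟩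
      · by_cases hb : A b
        · exact Or.inl ⟨hb, Ch.rel h2 ⟨hr, h1⟩⟩
        · exact Or.inr ⟨b', b, k, 0, h1, hb, Or.inl hr, rfl, Ch.rel h2 ⟨hr, h1⟩, Ch.refl _ _⟩
      · exact Or.inr ⟨c', c, K1, K2, h1, h2, h3, h4, h5, Ch.rel h6 hr⟩
    | @step k a b' b hab hs ih =>
      rcases ih ha with ⟨h1, h2⟩ | ⟨c', c, K1, K2, h1, h2, h3, h4, h5, h6⟩
      · by_cases hb : A b
        · exact Or.inl ⟨hb, Ch.step h2 ⟨hs, h1⟩⟩
        · exact Or.inr ⟨b', b, k + 1, 0, h1, hb, Or.inr hs, rfl, Ch.step h2 ⟨hs, h1⟩,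
            Ch.refl _ _⟩
      · exact Or.inr ⟨c', c, K1, K2 + 1, h1, h2, h3, by omega, h5, Ch.step h6 hs⟩
  rcases key h ha with ⟨h1, -⟩ | h1
  · exact absurd h1 hb
  · exact h1

end Pool.Agent.H863R2.NL
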