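import Pool.Agent.H863R2.NL.Defs

/-!
# Module LDP: large deviations (few layers)
-/

namespace Pool.Agent.H863R2.NL
open H974 H906.Cyl Finset
open scoped Real

/-- the rate function -/
noncomputable def rate (x : ℝ) : ℝ := ⨆ t : Set.Ioc (0 : ℝ) 1, (x * Real.log t.1 - psi t.1)

namespace LDPAux

/-- the derivative of `θ ↦ psi (exp θ)` as a function of `t = exp θ` -/
noncomputable def w (t : ℝ) : ℝ :=
  3 / (4 * π ^ 2) * (t * Real.arccos (t / 2) / √(1 - (t / 2) ^ 2))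

theorem w_zero : w 0 = 0 := by
  unfold w
  simp

theorem w_one : w 1 = cN := by
  unfold w cN
  have h1 : Real.arccos (1 / 2) = π / 3 := by
    rw [← Real.cos_pi_div_three, Real.arccos_cos (by positivity) (by linarith [Real.pi_pos])]
  have h2 : √(1 - ((1:ℝ) / 2) ^ 2) = √3 / 2 := by
    have : (1 - ((1:ℝ) / 2) ^ 2) = 3 / 2 ^ 2 := by norm_num
    rw [this, Real.sqrt_div (by norm_num), Real.sqrt_sq (by norm_num)]
  rw [h1, h2]
  have h3 : (√3 : ℝ) ≠ 0 := by positivity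
  have h4 := Real.pi_pos.ne'
  field_simp
  norm_num

theorem w_cont : ContinuousOn w (Set.Icc 0 1) := by
  unfold w
  refine ContinuousOn.mul continuousOn_const (ContinuousOn.div ?_ ?_ ?_)
  · exact (continuous_id.mul (Real.continuous_arccos.comp (continuous_id.div_const 2))).continuousOn
  · exact (Real.continuous_sqrt.comp (continuous_const.sub
      ((continuous_id.div_const 2).pow 2))).continuousOn
  · intro t ht
    have h1 : 0 < 1 - (t / 2) ^ 2 := by nlinarith [ht.1, ht.2]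
    exact (Real.sqrt_pos.2 h1).ne'

theorem deriv_psi {θ : ℝ} (h : Real.exp θ < 2) :
    HasDerivAt (fun θ => psi (Real.exp θ)) (w (Real.exp θ)) θ := by
  have hp := Real.exp_pos θ
  have h1 : HasDerivAt (fun θ => Real.exp θ / 2) (Real.exp θ / 2) θ :=
    (Real.hasDerivAt_exp θ).div_const 2
  have h2 := (Real.hasDerivAt_arccos (x := Real.exp θ / 2) (by linarith) (by linarith)).comp θ h1
  have h3 := ((h2.pow 2).const_sub (π ^ 2 / 9)).const_mul (3 / (4 * π ^ 2))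
  have h4 : 3 / (4 * π ^ 2) * -((2:ℕ) * (Real.arccos ∘ fun θ => Real.exp θ / 2) θ ^ (2 - 1) *
      (-(1 / √(1 - (Real.exp θ / 2) ^ 2)) * (Real.exp θ / 2))) = w (Real.exp θ) := by
    unfold w
    simp only [Function.comp_apply]
    push_cast
    ring
  rw [← h4]
  exact h3

/-- two nearby points -/
theorem two_points {f : ℝ → ℝ} {θ x δ η : ℝ} (hf : HasDerivAt f x θ) (hδ : 0 < δ) (hη : 0 < η) :
    (∃ θ1, θ < θ1 ∧ θ1 < θ + η ∧ f θ1 < f θ + (x + δ) * (θ1 - θ)) ∧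
      ∃ θ2, θ2 < θ ∧ f θ2 < f θ - (x - δ) * (θ - θ2) := by
  have h1 := (hasDerivAt_iff_isLittleO.1 hf).def (half_pos hδ)
  obtain ⟨ρ, hρ, h2⟩ := Metric.eventually_nhds_iff.1 h1
  obtain ⟨r, hr⟩ : ∃ r, r = min (ρ / 2) (η / 2) := ⟨_, rfl⟩
  have hr0 : 0 < r := by rw [hr]; exact lt_min (half_pos hρ) (half_pos hη)
  have hr1 : r < ρ := by rw [hr]; exact lt_of_le_of_lt (min_le_left _ _) (half_lt_self hρ)
  have hr2 : r < η := by rw [hr]; exact lt_of_le_of_lt (min_le_right _ _) (half_lt_self hη)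
  constructor
  · refine ⟨θ + r, by linarith, by linarith, ?_⟩
    have h3 := h2 (y := θ + r) (by rw [Real.dist_eq, add_sub_cancel_left, abs_of_pos hr0]; exact hr1)
    rw [add_sub_cancel_left, smul_eq_mul, Real.norm_eq_abs, Real.norm_eq_abs, abs_of_pos hr0] at h3
    rw [add_sub_cancel_left]
    have h4 := (abs_le.1 h3).2
    nlinarith
  · refine ⟨θ - r, by linarith, ?_⟩
    have e1 : θ - r - θ = -r := by ring
    have h3 := h2 (y := θ - r) (by rw [Real.dist_eq, e1, abs_neg, abs_of_pos hr0]; exact hr1)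
    rw [e1, smul_eq_mul, Real.norm_eq_abs, Real.norm_eq_abs, abs_neg, abs_of_pos hr0] at h3
    have h4 := (abs_le.1 h3).2
    have e2 : θ - (θ - r) = r := by ring
    rw [e2]
    nlinarith

theorem ev_exp (K : ℝ) {a : ℝ} (ha : 0 < a) :
    ∀ᶠ r : ℕ in Filter.atTop, K ≤ Real.exp (a * Real.log r) := by
  have h1 : Filter.Tendsto (fun r : ℕ => Real.log (r : ℝ)) Filter.atTop Filter.atTop :=
    Real.tendsto_log_atTop.comp tendsto_natCast_atTop_atTop
  have h2 : Filter.Tendsto (fun r : ℕ => Real.exp (a * Real.log (r : ℝ))) Filter.atTop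
      Filter.atTop := Real.tendsto_exp_atTop.comp (h1.const_mul_atTop ha)
  exact h2.eventually_ge_atTop K

theorem rate_bdd (hge : ∀ {t : ℝ}, 0 ≤ t → -(5 / 48 : ℝ) ≤ psi t) {x : ℝ} (hx : 0 < x) :
    BddAbove (Set.range (fun t : Set.Ioc (0 : ℝ) 1 => (x * Real.log t.1 - psi t.1))) := by
  refine ⟨5 / 48, ?_⟩
  rintro _ ⟨⟨t, ht0, ht1⟩, rfl⟩
  simp only
  have h1 := hge ht0.le
  have h2 : x * Real.log t ≤ 0 :=
    mul_nonpos_of_nonneg_of_nonpos hx.le (Real.log_nonpos ht0.le ht1)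
  linarith

theorem le_rate (hge : ∀ {t : ℝ}, 0 ≤ t → -(5 / 48 : ℝ) ≤ psi t) {x θ : ℝ} (hx : 0 < x)
    (hθ : θ ≤ 0) : x * θ - psi (Real.exp θ) ≤ rate x := by
  have h1 := le_ciSup (rate_bdd hge hx) (⟨Real.exp θ, Real.exp_pos θ, Real.exp_le_one_iff.2 hθ⟩ :
    Set.Ioc (0 : ℝ) 1)
  simp only [Real.log_exp] at h1
  exact h1

theorem exp_pow (θ : ℝ) (m : ℕ) : Real.exp θ ^ m = Real.exp (m * θ) := (Real.exp_nat_mul θ m).symm

theorem rpow_exp {r : ℕ} (hr : 1 ≤ r) (a : ℝ) : (r : ℝ) ^ a = Real.exp (a * Real.log r) := by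
  rw [Real.rpow_def_of_pos (by exact_mod_cast hr), mul_comm]

/-- upper bound -/
theorem upper (hpow : ∀ {t : ℝ}, 0 < t → t ≤ 1 → ∃ c C : ℝ, 0 < c ∧ 0 < C ∧ ∀ r : ℕ, 1 ≤ r →
      c * (r : ℝ) ^ psi t ≤ ET r (fun m => t ^ m) ∧ ET r (fun m => t ^ m) ≤ C * (r : ℝ) ^ psi t)
    (hle : ∀ {k : ℕ} {g g' : ℕ → ℝ}, (∀ m, g m ≤ g' m) → ET k g ≤ ET k g')
    (hmul : ∀ (k : ℕ) (c : ℝ) (g : ℕ → ℝ), ET k (fun m => c * g m) = c * ET k g)
    {x : ℝ} {ε : ℝ} (hε : 0 < ε) : ∀ᶠ r : ℕ in Filter.atTop,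
      ET r (fun m => ind ((m : ℝ) ≤ x * Real.log r)) ≤ (r : ℝ) ^ (-(rate x) + ε) := by
  have h0 : rate x - ε / 2 < rate x := by linarith
  have : Nonempty (Set.Ioc (0 : ℝ) 1) := ⟨⟨1, by norm_num, le_rfl⟩⟩
  obtain ⟨⟨t, ht0, ht1⟩, ht⟩ := exists_lt_of_lt_ciSup h0
  simp only at ht
  obtain ⟨c, C, _, hC, hb⟩ := hpow ht0 ht1
  filter_upwards [ev_exp C (half_pos hε), Filter.eventually_ge_atTop 1] with r hr1 hr
  have hL : 0 ≤ Real.log (r : ℝ) := Real.log_nonneg (by exact_mod_cast hr)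
  have h1 : ∀ m : ℕ, ind ((m : ℝ) ≤ x * Real.log r) ≤
      Real.exp (-(Real.log t * x * Real.log r)) * t ^ m := by
    intro m
    have e1 : t ^ m = Real.exp (m * Real.log t) := by
      rw [← exp_pow, Real.exp_log ht0]
    rw [e1, ← Real.exp_add]
    by_cases hm : (m : ℝ) ≤ x * Real.log r
    · rw [ind_of hm]
      rw [Real.one_le_exp_iff]
      have h2 : Real.log t ≤ 0 := Real.log_nonpos ht0.le ht1
      nlinarith
    · rw [ind_not_of hm]
      positivity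
  calc ET r (fun m => ind ((m : ℝ) ≤ x * Real.log r))
      ≤ ET r (fun m => Real.exp (-(Real.log t * x * Real.log r)) * t ^ m) := hle h1
    _ = Real.exp (-(Real.log t * x * Real.log r)) * ET r (fun m => t ^ m) := hmul _ _ _
    _ ≤ Real.exp (-(Real.log t * x * Real.log r)) * (C * (r : ℝ) ^ psi t) :=
        mul_le_mul_of_nonneg_left (hb r hr).2 (Real.exp_pos _).le
    _ ≤ Real.exp (-(Real.log t * x * Real.log r)) *
          (Real.exp (ε / 2 * Real.log r) * (r : ℝ) ^ psi t) := by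
        gcongr
    _ ≤ (r : ℝ) ^ (-(rate x) + ε) := by
        rw [rpow_exp hr, rpow_exp hr, ← Real.exp_add, ← Real.exp_add, Real.exp_le_exp]
        nlinarith

theorem point {L θ0 θ1 θ2 x0 δ x : ℝ} (hL : 0 ≤ L) (h0 : θ0 ≤ 0) (h1 : θ0 ≤ θ1) (h2 : θ2 ≤ θ0)
    (hx : x0 + δ ≤ x) (m : ℕ) : Real.exp θ0 ^ m ≤
      Real.exp (θ0 * (x0 - δ) * L) * ind ((m : ℝ) ≤ x * L) +
        (Real.exp ((θ0 - θ1) * (x0 + δ) * L) * Real.exp θ1 ^ m +
          Real.exp ((θ0 - θ2) * (x0 - δ) * L) * Real.exp θ2 ^ m) := by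
  simp only [exp_pow]
  rw [← Real.exp_add, ← Real.exp_add]
  have p1 := Real.exp_pos ((θ0 - θ1) * (x0 + δ) * L + m * θ1)
  have p2 := Real.exp_pos ((θ0 - θ2) * (x0 - δ) * L + m * θ2)
  have p3 : 0 ≤ Real.exp (θ0 * (x0 - δ) * L) * ind ((m : ℝ) ≤ x * L) :=
    mul_nonneg (Real.exp_pos _).le (ind_nonneg _)
  rcases lt_or_ge ((x0 + δ) * L) (m : ℝ) with h | h
  · have : Real.exp (m * θ0) ≤ Real.exp ((θ0 - θ1) * (x0 + δ) * L + m * θ1) := by
      rw [Real.exp_le_exp]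
      nlinarith
    linarith
  · rcases lt_or_ge (m : ℝ) ((x0 - δ) * L) with h' | h'
    · have : Real.exp (m * θ0) ≤ Real.exp ((θ0 - θ2) * (x0 - δ) * L + m * θ2) := by
        rw [Real.exp_le_exp]
        nlinarith
      linarith
    · have hm : (m : ℝ) ≤ x * L := h.trans (by nlinarith)
      rw [ind_of hm, mul_one]
      have : Real.exp (m * θ0) ≤ Real.exp (θ0 * (x0 - δ) * L) := by
        rw [Real.exp_le_exp]
        nlinarith
      linarith

/-- lower bound -/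
theorem lower (hpow : ∀ {t : ℝ}, 0 < t → t ≤ 1 → ∃ c C : ℝ, 0 < c ∧ 0 < C ∧ ∀ r : ℕ, 1 ≤ r →
      c * (r : ℝ) ^ psi t ≤ ET r (fun m => t ^ m) ∧ ET r (fun m => t ^ m) ≤ C * (r : ℝ) ^ psi t)
    (hle : ∀ {k : ℕ} {g g' : ℕ → ℝ}, (∀ m, g m ≤ g' m) → ET k g ≤ ET k g')
    (hmul : ∀ (k : ℕ) (c : ℝ) (g : ℕ → ℝ), ET k (fun m => c * g m) = c * ET k g)
    (hadd : ∀ (k : ℕ) (g g' : ℕ → ℝ), ET k (fun m => g m + g' m) = ET k g + ET k g')
    (hge : ∀ {t : ℝ}, 0 ≤ t → -(5 / 48 : ℝ) ≤ psi t)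
    {x : ℝ} (hx : 0 < x) (hx1 : x < cN) {ε : ℝ} (hε : 0 < ε) : ∀ᶠ r : ℕ in Filter.atTop,
      (r : ℝ) ^ (-(rate x) - ε) ≤ ET r (fun m => ind ((m : ℝ) ≤ x * Real.log r)) := by
  -- the point `ta` with slope `x/2`
  obtain ⟨ta, ⟨hta0, hta1⟩, hta⟩ := intermediate_value_Icc (by norm_num : (0:ℝ) ≤ 1) w_cont
    (show x / 2 ∈ Set.Icc (w 0) (w 1) by rw [w_zero, w_one]; constructor <;> linarith)
  have hta0' : 0 < ta := by
    rcases hta0.lt_or_eq with h | h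
    · exact h
    · rw [← h, w_zero] at hta
      linarith
  obtain ⟨A, hA⟩ : ∃ A, A = -Real.log ta := ⟨_, rfl⟩
  have hA0 : 0 ≤ A := by
    rw [hA]
    linarith [Real.log_nonpos hta0 hta1]
  -- the slope `x0`
  obtain ⟨η, hη⟩ : ∃ η, η = min (x / 4) (ε / (4 * (A + 1))) := ⟨_, rfl⟩
  have hη0 : 0 < η := by rw [hη]; exact lt_min (by positivity) (by positivity)
  have hη1 : η ≤ x / 4 := by rw [hη]; exact min_le_left _ _
  have hη2 : 2 * η * A ≤ ε / 2 := by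
    have h1 : η ≤ ε / (4 * (A + 1)) := by rw [hη]; exact min_le_right _ _
    rw [le_div_iff₀ (by positivity)] at h1
    nlinarith
  obtain ⟨t0, ⟨ht01, ht02⟩, ht0⟩ := intermediate_value_Icc hta1
    (w_cont.mono (Set.Icc_subset_Icc_left hta0))
    (show x - η ∈ Set.Icc (w ta) (w 1) by rw [hta, w_one]; constructor <;> linarith)
  have ht0' : 0 < t0 := hta0'.trans_le ht01
  have ht03 : t0 < 1 := by
    rcases ht02.lt_or_eq with h | h
    · exact h
    · rw [h, w_one] at ht0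
      linarith
  obtain ⟨θ0, hθ0⟩ : ∃ θ0, θ0 = Real.log t0 := ⟨_, rfl⟩
  have hθt : Real.exp θ0 = t0 := by rw [hθ0, Real.exp_log ht0']
  have hθneg : θ0 < 0 := by rw [hθ0]; exact Real.log_neg ht0' ht03
  have hθA : -A ≤ θ0 := by
    rw [hA, hθ0, neg_neg]
    exact Real.log_le_log hta0' ht01
  have hd : HasDerivAt (fun θ => psi (Real.exp θ)) (x - η) θ0 := by
    have := deriv_psi (θ := θ0) (by rw [hθt]; linarith)
    rwa [hθt, ht0] at this
  obtain ⟨⟨θ1, h11, h12, h13⟩, ⟨θ2, h21, h22⟩⟩ := two_points hd hη0 (neg_pos.2 hθneg)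
  obtain ⟨g, hg⟩ : ∃ g, g = min (psi (Real.exp θ0) + (x - η + η) * (θ1 - θ0) - psi (Real.exp θ1))
    (psi (Real.exp θ0) - (x - η - η) * (θ0 - θ2) - psi (Real.exp θ2)) := ⟨_, rfl⟩
  have hg0 : 0 < g := by rw [hg]; exact lt_min (by linarith) (by linarith)
  have hg1 : psi (Real.exp θ1) + (θ0 - θ1) * (x - η + η) ≤ psi (Real.exp θ0) - g := by
    have : g ≤ _ := hg ▸ min_le_left _ _
    linarith
  have hg2 : psi (Real.exp θ2) + (θ0 - θ2) * (x - η - η) ≤ psi (Real.exp θ0) - g := by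
    have : g ≤ _ := hg ▸ min_le_right _ _
    linarith
  obtain ⟨c0, _, hc0, _, b0⟩ := hpow (Real.exp_pos θ0) (Real.exp_le_one_iff.2 hθneg.le)
  obtain ⟨_, C1, _, hC1, b1⟩ := hpow (Real.exp_pos θ1) (Real.exp_le_one_iff.2 (by linarith))
  obtain ⟨_, C2, _, hC2, b2⟩ := hpow (Real.exp_pos θ2) (Real.exp_le_one_iff.2 (by linarith))
  have hrate := le_rate hge hx hθneg.le
  filter_upwards [ev_exp (2 / c0) (half_pos hε), ev_exp (2 * (C1 + C2) / c0) hg0,
    Filter.eventually_ge_atTop 1] with r hr1 hr2 hr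
  obtain ⟨L, hL⟩ : ∃ L, L = Real.log (r : ℝ) := ⟨_, rfl⟩
  have hL0 : 0 ≤ L := by rw [hL]; exact Real.log_nonneg (by exact_mod_cast hr)
  have B0 := (b0 r hr).1
  have B1 := (b1 r hr).2
  have B2 := (b2 r hr).2
  rw [rpow_exp hr] at B0 B1 B2 ⊢
  rw [← hL] at B0 B1 B2 hr1 hr2 ⊢
  obtain ⟨P, hP⟩ : ∃ P, P = ET r (fun m => ind ((m : ℝ) ≤ x * L)) := ⟨_, rfl⟩
  rw [← hP]
  have key : ET r (fun m => Real.exp θ0 ^ m) ≤ Real.exp (θ0 * (x - η - η) * L) * P +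
      (Real.exp ((θ0 - θ1) * (x - η + η) * L) * ET r (fun m => Real.exp θ1 ^ m) +
        Real.exp ((θ0 - θ2) * (x - η - η) * L) * ET r (fun m => Real.exp θ2 ^ m)) := by
    rw [hP, ← hmul, ← hmul, ← hmul, ← hadd, ← hadd]
    exact hle (fun m => point hL0 hθneg.le h11.le h21.le (by linarith) m)
  have k1 : Real.exp ((θ0 - θ1) * (x - η + η) * L) * ET r (fun m => Real.exp θ1 ^ m) ≤
      C1 * (Real.exp (psi (Real.exp θ0) * L) * Real.exp (-(g * L))) := by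
    calc Real.exp ((θ0 - θ1) * (x - η + η) * L) * ET r (fun m => Real.exp θ1 ^ m)
        ≤ Real.exp ((θ0 - θ1) * (x - η + η) * L) * (C1 * Real.exp (psi (Real.exp θ1) * L)) :=
          mul_le_mul_of_nonneg_left B1 (Real.exp_pos _).le
      _ = C1 * Real.exp ((psi (Real.exp θ1) + (θ0 - θ1) * (x - η + η)) * L) := by
          rw [mul_left_comm, ← Real.exp_add]
          congr 2
          ring
      _ ≤ C1 * Real.exp ((psi (Real.exp θ0) - g) * L) := by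
          gcongr
      _ = _ := by
          rw [← Real.exp_add]
          congr 2
          ring
  have k2 : Real.exp ((θ0 - θ2) * (x - η - η) * L) * ET r (fun m => Real.exp θ2 ^ m) ≤
      C2 * (Real.exp (psi (Real.exp θ0) * L) * Real.exp (-(g * L))) := by
    calc Real.exp ((θ0 - θ2) * (x - η - η) * L) * ET r (fun m => Real.exp θ2 ^ m)
        ≤ Real.exp ((θ0 - θ2) * (x - η - η) * L) * (C2 * Real.exp (psi (Real.exp θ2) * L)) :=
          mul_le_mul_of_nonneg_left B2 (Real.exp_pos _).le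
      _ = C2 * Real.exp ((psi (Real.exp θ2) + (θ0 - θ2) * (x - η - η)) * L) := by
          rw [mul_left_comm, ← Real.exp_add]
          congr 2
          ring
      _ ≤ C2 * Real.exp ((psi (Real.exp θ0) - g) * L) := by
          gcongr
      _ = _ := by
          rw [← Real.exp_add]
          congr 2
          ring
  obtain ⟨E0, hE0⟩ : ∃ E0, E0 = Real.exp (psi (Real.exp θ0) * L) := ⟨_, rfl⟩
  obtain ⟨E1, hE1⟩ : ∃ E1, E1 = Real.exp (g * L) := ⟨_, rfl⟩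
  have hE0p : 0 < E0 := by rw [hE0]; exact Real.exp_pos _
  have hE1p : 0 < E1 := by rw [hE1]; exact Real.exp_pos _
  have k3 : (C1 + C2) * Real.exp (-(g * L)) ≤ c0 / 2 := by
    rw [Real.exp_neg, ← hE1, ← div_eq_mul_inv, div_le_div_iff₀ hE1p (by norm_num)]
    rw [← hE1, div_le_iff₀ hc0] at hr2
    linarith
  have k4 : c0 / 2 * E0 ≤ Real.exp (θ0 * (x - η - η) * L) * P := by
    rw [← hE0] at B0 k1 k2
    have h5 : (C1 + C2) * Real.exp (-(g * L)) * E0 ≤ c0 / 2 * E0 :=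
      mul_le_mul_of_nonneg_right k3 hE0p.le
    nlinarith
  have k5 : c0 / 2 * Real.exp ((psi (Real.exp θ0) - θ0 * (x - η - η)) * L) ≤ P := by
    have h5 : Real.exp ((psi (Real.exp θ0) - θ0 * (x - η - η)) * L) =
        E0 * Real.exp (-(θ0 * (x - η - η) * L)) := by
      rw [hE0, ← Real.exp_add]
      congr 1
      ring
    rw [h5, ← mul_assoc, Real.exp_neg, ← div_eq_mul_inv, div_le_iff₀ (Real.exp_pos _), mul_comm P]
    exact k4
  refine le_trans ?_ k5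
  have k6 : -(rate x) - ε / 2 ≤ psi (Real.exp θ0) - θ0 * (x - η - η) := by
    nlinarith
  have k7 : 1 ≤ c0 / 2 * Real.exp (ε / 2 * L) := by
    rw [div_le_iff₀ hc0] at hr1
    linarith
  calc Real.exp ((-(rate x) - ε) * L) = 1 * Real.exp ((-(rate x) - ε) * L) := (one_mul _).symm
    _ ≤ (c0 / 2 * Real.exp (ε / 2 * L)) * Real.exp ((-(rate x) - ε) * L) :=
        mul_le_mul_of_nonneg_right k7 (Real.exp_pos _).le
    _ = c0 / 2 * Real.exp ((-(rate x) - ε / 2) * L) := by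
        rw [mul_assoc, ← Real.exp_add]
        congr 2
        ring
    _ ≤ c0 / 2 * Real.exp ((psi (Real.exp θ0) - θ0 * (x - η - η)) * L) := by
        gcongr

end LDPAux

/-- large deviations, from the statements `ET_pow`, `ET_le_ET`, `ET_mul`, `ET_add`, `psi_ge` -/
theorem ldp_of (hpow : ∀ {t : ℝ}, 0 < t → t ≤ 1 → ∃ c C : ℝ, 0 < c ∧ 0 < C ∧ ∀ r : ℕ, 1 ≤ r →
      c * (r : ℝ) ^ psi t ≤ ET r (fun m => t ^ m) ∧ ET r (fun m => t ^ m) ≤ C * (r : ℝ) ^ psi t)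
    (hle : ∀ {k : ℕ} {g g' : ℕ → ℝ}, (∀ m, g m ≤ g' m) → ET k g ≤ ET k g')
    (hmul : ∀ (k : ℕ) (c : ℝ) (g : ℕ → ℝ), ET k (fun m => c * g m) = c * ET k g)
    (hadd : ∀ (k : ℕ) (g g' : ℕ → ℝ), ET k (fun m => g m + g' m) = ET k g + ET k g')
    (hge : ∀ {t : ℝ}, 0 ≤ t → -(5 / 48 : ℝ) ≤ psi t)
    {x : ℝ} (hx : 0 < x) (hx1 : x < cN) {ε : ℝ} (hε : 0 < ε) :
    ∀ᶠ r : ℕ in Filter.atTop,
      (r : ℝ) ^ (-(rate x) - ε) ≤ ET r (fun m => ind ((m : ℝ) ≤ x * Real.log r)) ∧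
      ET r (fun m => ind ((m : ℝ) ≤ x * Real.log r)) ≤ (r : ℝ) ^ (-(rate x) + ε) := by
  filter_upwards [LDPAux.lower hpow hle hmul hadd hge hx hx1 hε,
    LDPAux.upper hpow hle hmul (x := x) hε] with r h1 h2
  exact ⟨h1, h2⟩

end Pool.Agent.H863R2.NL
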