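import Pool.Agent.H863R2.NL.Defs
import Pool.Agent.H160R2.SA.SumU

/-!
# Blueprint: the nesting law of critical bond percolation on `ℤ²`
DO NOT import this file in final proofs. Each module proves its statements under the same names in
its own file `Pool/Agent/H863R2/NL/<Module>.lean`, namespace `Pool.Agent.H863R2.NL`
(import only `NL.Defs` and the modules which you use; helper lemmas in a sub-namespace `<Module>Aux`).
-/

namespace Pool.Agent.H863R2.NL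
open H974 H906.Cyl Finset
open Pool.Agent.H863R2.Cyl (Wd Tc rows FSpec push)
open Pool.Agent.H863R2.Nest (Ch St StI at_ mir Full nb)
open Pool.Agent.H160R2.OA (J IsMu)
open scoped Real

/-! ### Module Exit (file Exit.lean) -/

/-- first exit of a chain from the set `A` -/
theorem Ch_exit {X : Type*} {R S : X → X → Prop} (A : X → Prop) {K : ℕ} {a b : X}
    (h : Ch R S K a b) (ha : A a) (hb : ¬ A b) : ∃ (c' c : X) (K1 K2 : ℕ), A c' ∧ ¬ A c ∧
      (R c' c ∨ S c' c) ∧ K1 + K2 = K ∧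
      Ch (fun p q => R p q ∧ A p) (fun p q => S p q ∧ A p) K1 a c ∧ Ch R S K2 c b := sorry

/-! ### Module Loc (file Loc.lean, imports Exit): basic properties of `D` and `TT` -/

theorem D_mono {G : Set Edg} {k K K' : ℕ} (h : K ≤ K') (hD : D G k K) : D G k K' := sorry

theorem D_top (G : Set Edg) (k : ℕ) : D G k (2 * k) := sorry

theorem TT_le_iff {G : Set Edg} {k K : ℕ} : TT G k ≤ K ↔ D G k K := sorry

theorem TT_le_two (G : Set Edg) (k : ℕ) : TT G k ≤ 2 * k := sorry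

theorem TT_mono {G : Set Edg} {k k' : ℕ} (h : k ≤ k') : TT G k ≤ TT G k' := sorry

/-- all sources of the moves may be taken inside the open box -/
theorem D_iff {G : Set Edg} {k K : ℕ} : D G k K ↔ ∃ q : ℤ × ℤ, 2 * (k : ℤ) ≤ nm q ∧
    Ch (fun p q => Mv G p q ∧ nm p < 2 * k) (fun p q => St p q ∧ nm p < 2 * k) K (0, 0) q := sorry

/-- `TT G k` depends only on the edges of the box -/
theorem TT_local {G G' : Set Edg} {k : ℕ} (h : ∀ e ∈ boxE k, (e ∈ G ↔ e ∈ G')) :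
    TT G k = TT G' k := sorry

/-! ### Module FullL (file FullL.lean) -/

theorem full_CM {n : ℕ} (hn : 0 < n) (M : ℕ) (F : Finset Edg) (w w' : List Bool) (p q : ℤ × ℤ) :
    Full (dn n M F) (up n M F) M M w w' p q ↔ CM n M F w w' p q := sorry

theorem f_chain {f : List Bool → List Bool → ℕ} (hf : FSpec f) {n : ℕ} (hn : 0 < n) (M : ℕ)
    (F : Finset Edg) (σ τ : Wd (2 * n - 1 + 1)) (K : ℕ) :
    Ch (CM n M F σ.1 τ.1) (StI (-M) M) K (0, 0) (2 * n, 0) ↔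
      2 * f (rows (2 * n - 1) (dn n M F) M σ).1 (rows (2 * n - 1) (up n M F) M τ).1 ≤ K := sorry

theorem Mv_shift {n : ℕ} (hn : 0 < n) (F : Finset Edg) (p q : ℤ × ℤ) :
    Mv (per n F) (p.1 + 2 * n, p.2) (q.1 + 2 * n, q.2) ↔ Mv (per n F) p q := sorry

/-! ### Module Low (file Low.lean, imports Loc, FullL) -/

theorem TT_le_f {f : List Bool → List Bool → ℕ} (hf : FSpec f) {n k M : ℕ} (hk : 2 * k < n)
    (hM : 2 * k ≤ M) (F : Finset Edg) (σ τ : Wd (2 * n - 1 + 1)) : TT (per n F) k ≤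
      f (rows (2 * n - 1) (dn n M F) M σ).1 (rows (2 * n - 1) (up n M F) M τ).1 := sorry

/-! ### Module CircZ (file CircZ.lean) -/

theorem circ_z {R1 R2 : ℤ} (h1 : 0 ≤ R1) (h2 : R1 < R2) {E : Finset Edg} (h : Circ R1 R2 E) :
    ∃ z : Vtx, Zp R1 R2 E z := sorry

/-! ### Module Touch (file Touch.lean, imports Loc) -/

/-- a chain to the outside of the circuit comes within one colour change of its cluster -/
theorem touch {R1 : ℤ} {R : ℕ} (hR1 : 0 ≤ R1) (hR : 0 < R) {E : Finset Edg} {z : Vtx}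
    (hz : Zp R1 R E z) {G : Set Edg} {K : ℕ} (hD : D G R K) : ∃ w : Vtx,
      Reach (↑E ∩ ↑(RE (-R) R (-R) R)) z w ∧
      Ch (MvI G (-(2 * R + 2)) (2 * R + 2)) (StI (-(2 * R + 2)) (2 * R + 2)) (K + 1)
        (0, 0) (fc w) := sorry

/-! ### Module Opn (file Opn.lean) -/

theorem last_exit {G : Set Edg} {W : Vtx → Prop} {u v : Vtx} (h : Reach G u v) (hu : W u)
    (hv : ¬ W v) : ∃ e ∈ G, ∃ w w' : Vtx,
      ((src e = w ∧ tgt e = w') ∨ (src e = w' ∧ tgt e = w)) ∧ W w ∧ ¬ W w' ∧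
      Reach (G ∩ {e | ¬ W (src e) ∧ ¬ W (tgt e)}) w' v := sorry

/-- each closed edge costs two colour changes -/
theorem reach_chain {G : Set Edg} {s s' : ℤ} (X : Finset Edg) {u v : Vtx}
    (h : Reach ((G ∪ ↑X) ∩ {e | s ≤ dco e ∧ dco e < s'}) u v) :
    Ch (MvI G s s') (StI s s') (2 * X.card) (fc u) (fc v) := sorry

/-! ### Module Conn (file Conn.lean) -/

theorem conn {n b : ℕ} (hb : 0 < b) (hbn : 4 * b < n) {F X1 X5 X6 : Finset Edg} {z : Vtx}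
    (hX1 : X1 ⊆ RE (-(2 * b)) (2 * b) (-(2 * b)) (2 * b))
    (hX5 : X5 ⊆ LRE b (n + 2 * b) (-b) b) (hX6 : X6 ⊆ TBE (n - b) (n + b) (-(2 * b)) (n - b))
    (hz : Zp b (2 * b) (pf n (RE (-(2 * b)) (2 * b) (-(2 * b)) (2 * b)) F ∪ X1) z)
    (h5 : LRc b (n + 2 * b) (-b) b (pf n (LRE b (n + 2 * b) (-b) b) F ∪ X5))
    (h6 : TBc (n - b) (n + b) (-(2 * b)) (n - b)
      (pf n (TBE (n - b) (n + b) (-(2 * b)) (n - b)) F ∪ X6)) :
    Reach ((per n F ∪ ↑(X1 ∪ X5 ∪ X6 ∪ X1.image (fun e : Edg => (e.1 + n, e.2.1 + n, e.2.2)))) ∩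
      {e | -((n : ℤ) + 3 * b) ≤ dco e ∧ dco e < n + 3 * b}) z (z.1 + n, z.2 + n) := sorry

/-! ### Module Fle (file Fle.lean, imports Touch, CircZ, Opn, Conn, FullL) -/

theorem f_le {f : List Bool → List Bool → ℕ} (hf : FSpec f) {a k M : ℕ} (ha : 0 < a)
    (hM : 20 * a ≤ M) {F : Finset Edg} (hG : Good (10 * a) (2 * a) k F)
    (σ τ : Wd (2 * (10 * a) - 1 + 1)) :
    f (rows (2 * (10 * a) - 1) (dn (10 * a) M F) M σ).1
      (rows (2 * (10 * a) - 1) (up (10 * a) M F) M τ).1 ≤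
        TT (per (10 * a) F) (4 * a) + 1 + 10 * k := sorry

/-! ### Module CutBK (file CutBK.lean, imports Opn) -/

theorem cut_bk {q : ℝ} (h0 : 0 ≤ q) (h1 : q ≤ 1) (S : Finset Edg) (A B : Vtx → Prop) (k : ℕ) :
    Pr (fun _ => q) S (fun F => ¬ Opn k S (Crs S A B) F) ≤
      (Pr (fun _ => q) S (fun F => ¬ Crs S A B F)) ^ (k + 1) := sorry

theorem opn_LRc (k : ℕ) (a b c d : ℤ) :
    Pr (fun _ => (1/2 : ℝ)) (LRE a b c d) (fun F => ¬ Opn k (LRE a b c d) (LRc a b c d) F) ≤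
      (1 - hh (1/2) (b - a) (d - c)) ^ (k + 1) := sorry

theorem opn_TBc (k : ℕ) (a b c d : ℤ) :
    Pr (fun _ => (1/2 : ℝ)) (TBE a b c d) (fun F => ¬ Opn k (TBE a b c d) (TBc a b c d) F) ≤
      (1 - hh (1/2) (d - c) (b - a)) ^ (k + 1) := sorry

/-! ### Module Bad (file Bad.lean, imports CutBK) -/

theorem bad_le {a M : ℕ} (k : ℕ) (ha : 0 < a) (hM : 20 * a ≤ M) (φ : Finset Edg → ℝ)
    (h0 : ∀ F, 0 ≤ φ F) (hφ : ∀ F, F ⊆ CE (10 * a) M →
      φ F = φ (F ∩ (boxE (2 * a - 1)).image (red (10 * a)))) :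
    Ex (fun _ => (1/2 : ℝ)) (CE (10 * a) M) (fun F => φ F * ind (¬ Good (10 * a) (2 * a) k F)) ≤
      6 * (1 - (1/2 : ℝ) ^ 47) ^ (k + 1) * Ex (fun _ => (1/2 : ℝ)) (CE (10 * a) M) φ := sorry

/-- for large `k` every configuration is good -/
theorem good_top {n b k : ℕ} (hb : 0 < b) (hbn : 4 * b < n) (F : Finset Edg)
    (hk : (LRE (-(2 * b)) (2 * b) b (2 * b)).card + (LRE (-(2 * b)) (2 * b) (-(2 * b)) (-b)).card +
      (TBE b (2 * b) (-(2 * b)) (2 * b)).card + (TBE (-(2 * b)) (-b) (-(2 * b)) (2 * b)).card +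
      (LRE b (n + 2 * b) (-b) b).card + (TBE (n - b) (n + b) (-(2 * b)) (n - b)).card ≤ k) :
    Good n b k F := sorry

theorem good_mono {n b k k' : ℕ} {F : Finset Edg} (h : k ≤ k') (hG : Good n b k F) :
    Good n b k' F := sorry

/-! ### Module Avg (file Avg.lean, imports Loc) -/

theorem EN_avg {n : ℕ} (hn : 0 < n) (M : ℕ) (g : ℕ → ℝ) : EN n g =
    Ex (fun _ => (1/2 : ℝ)) (CE n M) (fun F => ∑ σ : Wd (2 * n - 1 + 1), ∑ τ : Wd (2 * n - 1 + 1),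
      mu n σ * mu n τ * g (fN (rows (2 * n - 1) (dn n M F) M σ).1
        (rows (2 * n - 1) (up n M F) M τ).1)) := sorry

theorem TT_per_local {n k M : ℕ} {F : Finset Edg} (hF : F ⊆ CE n M) :
    TT (per n F) k = TT (per n (F ∩ (boxE k).image (red n))) k := sorry

theorem Ex_per {n k M : ℕ} (hk : 2 * k < n) (hM : 2 * k ≤ M) (g : ℕ → ℝ) :
    Ex (fun _ => (1/2 : ℝ)) (CE n M) (fun F => g (TT (per n F) k)) = ET k g := sorry

theorem ET_box {k k' : ℕ} (h : k ≤ k') (g : ℕ → ℝ) :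
    Ex (fun _ => (1/2 : ℝ)) (boxE k') (fun F => g (TT (↑F) k)) = ET k g := sorry

theorem ET_anti {k k' : ℕ} (h : k ≤ k') {g : ℕ → ℝ} (hg : Antitone g) : ET k' g ≤ ET k g := sorry

theorem ET_mono {k k' : ℕ} (h : k ≤ k') {g : ℕ → ℝ} (hg : Monotone g) : ET k g ≤ ET k' g := sorry

/-- elementary properties of the two expectations -/
theorem EN_mono {n : ℕ} {g g' : ℕ → ℝ} (h : ∀ m, g m ≤ g' m) : EN n g ≤ EN n g' := sorry

theorem ET_le_ET {k : ℕ} {g g' : ℕ → ℝ} (h : ∀ m, g m ≤ g' m) : ET k g ≤ ET k g' := sorry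

theorem EN_const (n : ℕ) (c : ℝ) : EN n (fun _ => c) = c := sorry

theorem ET_const (k : ℕ) (c : ℝ) : ET k (fun _ => c) = c := sorry

theorem EN_mul (n : ℕ) (c : ℝ) (g : ℕ → ℝ) : EN n (fun m => c * g m) = c * EN n g := sorry

theorem ET_mul (k : ℕ) (c : ℝ) (g : ℕ → ℝ) : ET k (fun m => c * g m) = c * ET k g := sorry

theorem EN_add (n : ℕ) (g g' : ℕ → ℝ) : EN n (fun m => g m + g' m) = EN n g + EN n g' := sorry

theorem ET_add (k : ℕ) (g g' : ℕ → ℝ) : ET k (fun m => g m + g' m) = ET k g + ET k g' := sorry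

/-! ### Module Cmp (file Cmp.lean, imports Avg, Low, Fle, Bad): comparison of the two laws -/

theorem EN_le {n k : ℕ} (hk : 2 * k < n) {g : ℕ → ℝ} (hg : Antitone g) : EN n g ≤ ET k g := sorry

theorem ET_le {n k : ℕ} (hk : 2 * k < n) {g : ℕ → ℝ} (hg : Monotone g) : ET k g ≤ EN n g := sorry

theorem EN_ge {a : ℕ} (k : ℕ) (ha : 0 < a) {g : ℕ → ℝ} (hg : Antitone g) (h0 : ∀ m, 0 ≤ g m) :
    ET (4 * a) (fun m => g (m + 1 + 10 * k)) ≤
      EN (10 * a) g +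
        6 * (1 - (1/2 : ℝ) ^ 47) ^ (k + 1) * ET (2 * a - 1) (fun m => g (m + 1 + 10 * k)) := sorry

theorem EN_mean {a : ℕ} (ha : 0 < a) :
    EN (10 * a) (fun m => (m : ℝ)) ≤ ET (4 * a) (fun m => (m : ℝ)) + (1 + 60 * 2 ^ 47) := sorry

/-! ### Module Bern (file Bern.lean): the law on the cylinder is Poisson-binomial -/

theorem bern {n : ℕ} (hn : 1 ≤ n) : ∃ s : Multiset ℝ, (∀ p ∈ s, 0 < p ∧ p ≤ 1 / 3) ∧
    (∀ t : ℂ, (∑ σ : Wd (2 * n - 1 + 1), ∑ τ : Wd (2 * n - 1 + 1),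
      (mu n σ : ℂ) * mu n τ * t ^ fN σ.1 τ.1) = (s.map (fun p : ℝ => 1 + (p : ℂ) * (t - 1))).prod) ∧
    ∃ (hJ : (J (2 * n)).IsHermitian) (ν : Fin (2 * n) → ℝ), IsMu (2 * n) hJ ν ∧
      ∀ g : ℝ → ℝ, 2 * (s.map g).sum =
        ∑ i, g (1 / (2 * Real.cosh (Real.log (ν i)) + 1)) := sorry

/-! ### Module Sum (file Sum.lean, uses SA.sum_u, NE.cal_sum) -/

theorem sum_two (H H' : ℝ → ℝ) (hH : ∀ p, 0 ≤ p → p ≤ 1 / 3 → HasDerivAt H (H' p) p)
    (hH' : ContinuousOn H' (Set.Icc 0 (1 / 3))) (h0 : H 0 = 0) : ∃ C : ℝ, ∀ L : ℕ, 1 ≤ L →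
    ∀ (hJ : (J L).IsHermitian) (μ : Fin L → ℝ), IsMu L hJ μ →
      |∑ i, H (1 / (2 * Real.cosh (Real.log (μ i)) + 1)) -
        3 / (2 * π ^ 2) * (∫ x, H (1 / (2 * Real.cosh x + 1))) * Real.log L| ≤ C := sorry

/-! ### Module Int (file Int.lean): three integrals -/

theorem int_p : ∫ x : ℝ, 1 / (2 * Real.cosh x + 1) = 2 * π / (3 * √3) := sorry

theorem int_p2 : ∫ x : ℝ, (1 / (2 * Real.cosh x + 1)) ^ 2 = 2 / 3 - 2 * π / (9 * √3) := sorry

theorem int_log {t : ℝ} (h0 : 0 < t) (h2 : t < 2) :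
    ∫ x : ℝ, Real.log (1 + 1 / (2 * Real.cosh x + 1) * (t - 1)) =
      π ^ 2 / 9 - Real.arccos (t / 2) ^ 2 := sorry

/-! ### Module PsSum (file PsSum.lean, imports Bern, Sum, Int) -/

/-- `s` is the multiset of the parameters of the cylinder of circumference `2n` -/
def IsPs (n : ℕ) (s : Multiset ℝ) : Prop := (∀ p ∈ s, 0 < p ∧ p ≤ 1 / 3) ∧
    (∀ t : ℂ, (∑ σ : Wd (2 * n - 1 + 1), ∑ τ : Wd (2 * n - 1 + 1),
      (mu n σ : ℂ) * mu n τ * t ^ fN σ.1 τ.1) = (s.map (fun p : ℝ => 1 + (p : ℂ) * (t - 1))).prod)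

/-- sharp sums of the parameters -/
theorem ps_exists : ∃ ps : ℕ → Multiset ℝ, (∀ n, 1 ≤ n → IsPs n (ps n)) ∧
    (∃ C, ∀ n : ℕ, 1 ≤ n → |(ps n).sum - cN * Real.log n| ≤ C) ∧
    (∃ C, ∀ n : ℕ, 1 ≤ n →
      |((ps n).map (fun p => p * (1 - p))).sum - vN * Real.log n| ≤ C) ∧
    (∀ t : ℝ, 0 < t → t < 2 → ∃ C, ∀ n : ℕ, 1 ≤ n →
      |((ps n).map (fun p => Real.log (1 + p * (t - 1)))).sum - psi t * Real.log n| ≤ C) := sorry

/-- consequences for `EN` -/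
theorem EN_pow : ∀ t : ℝ, 0 < t → t < 2 → ∃ c C : ℝ, 0 < c ∧ 0 < C ∧ ∀ n : ℕ, 1 ≤ n →
    c * (n : ℝ) ^ psi t ≤ EN n (fun m => t ^ m) ∧ EN n (fun m => t ^ m) ≤ C * (n : ℝ) ^ psi t :=
  sorry

theorem EN_id : ∃ C : ℝ, ∀ n : ℕ, 1 ≤ n → |EN n (fun m => (m : ℝ)) - cN * Real.log n| ≤ C := sorry

/-! ### Module Psi (file Psi.lean): properties of the exponent -/

theorem psi_one : psi 1 = 0 := sorry

theorem psi_ge {t : ℝ} (h0 : 0 ≤ t) : -(5 / 48 : ℝ) ≤ psi t := sorry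

theorem psi_zero : psi 0 = -(5 / 48 : ℝ) := sorry

theorem psi_le {t : ℝ} (h0 : 0 < t) (h1 : t ≤ 1) : psi t ≤ 0 := sorry

/-- lower deviations: `psi t - (cN - ε) log t < 0` for some `t < 1` -/
theorem psi_low {ε : ℝ} (hε : 0 < ε) : ∃ t : ℝ, 0 < t ∧ t < 1 ∧
    psi t - (cN - ε) * Real.log t < 0 := sorry

/-- upper deviations -/
theorem psi_up {ε : ℝ} (hε : 0 < ε) : ∃ t : ℝ, 1 < t ∧ t < 2 ∧
    psi t - (cN + ε) * Real.log t < 0 := sorry

/-! ### Module Rec (file Rec.lean, imports Cmp) -/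

theorem ET_pow_upper {t κ C1 : ℝ} (ht : 0 < t) (ht1 : t ≤ 1) (hκ : -(1 / 2) ≤ κ) (hκ0 : κ ≤ 0)
    (h : ∀ n : ℕ, 1 ≤ n → EN n (fun m => t ^ m) ≤ C1 * (n : ℝ) ^ κ) :
    ∃ C : ℝ, 0 < C ∧ ∀ r : ℕ, 1 ≤ r → ET r (fun m => t ^ m) ≤ C * (r : ℝ) ^ κ := sorry

/-! ### Module Pow (file Pow.lean, imports Rec, PsSum, Psi) -/

theorem ET_pow {t : ℝ} (ht : 0 < t) (ht1 : t ≤ 1) : ∃ c C : ℝ, 0 < c ∧ 0 < C ∧ ∀ r : ℕ, 1 ≤ r →
    c * (r : ℝ) ^ psi t ≤ ET r (fun m => t ^ m) ∧ ET r (fun m => t ^ m) ≤ C * (r : ℝ) ^ psi t :=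
  sorry

theorem ET_pow_gt {t : ℝ} (ht : 1 < t) (ht1 : t < 2) : ∃ C : ℝ, 0 < C ∧ ∀ r : ℕ, 1 ≤ r →
    ET r (fun m => t ^ m) ≤ C * (r : ℝ) ^ psi t := sorry

theorem ET_mean : ∃ C : ℝ, ∀ r : ℕ, 1 ≤ r → |ET r (fun m => (m : ℝ)) - cN * Real.log r| ≤ C :=
  sorry

/-! ### Module CLT (file CLT.lean, imports PsSum) -/

/-- the central limit theorem for the number of nested loops on the cylinder -/
theorem clt_EN (y : ℕ → ℝ) (x : ℝ) (hy : Filter.Tendsto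
      (fun n : ℕ => (y n - cN * Real.log n) / √(Real.log n)) Filter.atTop (nhds x)) :
    Filter.Tendsto (fun n : ℕ => EN n (fun m => ind ((m : ℝ) ≤ y n))) Filter.atTop
      (nhds ((ProbabilityTheory.gaussianReal 0 (Real.toNNReal vN)).real (Set.Iic x))) := sorry

/-! ### Module CLTT (file CLTT.lean, imports CLT, Cmp) -/

/-- the central limit theorem in the plane -/
theorem clt_ET (x : ℝ) : Filter.Tendsto
    (fun r : ℕ => ET r (fun m => ind ((m : ℝ) ≤ cN * Real.log r + x * √(Real.log r))))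
    Filter.atTop
      (nhds ((ProbabilityTheory.gaussianReal 0 (Real.toNNReal vN)).real (Set.Iic x))) := sorry

/-! ### Module Inf (file Inf.lean, imports Loc): the infinite lattice -/

theorem changes_eq (n : ℕ) (ω : sqLattice.edgeSet → Bool) : changes n ω = TT (opn ω) n := sorry

theorem changes_FF (n : ℕ) (ω : sqLattice.edgeSet → Bool) :
    changes n ω = TT (↑(FF (boxE n) ω)) n := sorry

theorem changes_mono {n m : ℕ} (h : n ≤ m) (ω : sqLattice.edgeSet → Bool) :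
    changes n ω ≤ changes m ω := sorry

theorem meas_changes (n : ℕ) : Measurable (changes n) := sorry

open MeasureTheory in
theorem int_changes (n : ℕ) (g : ℕ → ℝ) :
    ∫ ω, g (changes n ω) ∂(bondLaw hlf) = ET n g := sorry

theorem prob_changes (n : ℕ) (P : ℕ → Prop) :
    (bondLaw hlf).real {ω | P (changes n ω)} = ET n (fun m => ind (P m)) := sorry

/-! ### Module AS (file AS.lean, imports Inf, Pow, Psi): almost sure convergence -/

open MeasureTheory in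
theorem lln : ∀ᵐ ω ∂(bondLaw hlf), Filter.Tendsto
    (fun n : ℕ => (changes n ω : ℝ) / Real.log n) Filter.atTop (nhds cN) := sorry

/-! ### Module LDP (file LDP.lean, imports Pow, Psi, Inf): large deviations (few layers) -/

/-- the rate function -/
noncomputable def rate (x : ℝ) : ℝ := ⨆ t : Set.Ioc (0 : ℝ) 1, (x * Real.log t.1 - psi t.1)

theorem ldp {x : ℝ} (hx : 0 < x) (hx1 : x < cN) {ε : ℝ} (hε : 0 < ε) :
    ∀ᶠ r : ℕ in Filter.atTop,
      (r : ℝ) ^ (-(rate x) - ε) ≤ ET r (fun m => ind ((m : ℝ) ≤ x * Real.log r)) ∧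
      ET r (fun m => ind ((m : ℝ) ≤ x * Real.log r)) ≤ (r : ℝ) ^ (-(rate x) + ε) := sorry

end Pool.Agent.H863R2.NL
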